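import Pool.Graph.R_pool_sql_team_seeded_63374d34.N28.BM.Weyl

/-!
# Bounds for alternants on the unit torus
-/

set_option autoImplicit false

namespace Pool.Agent.H498.EQ

open Finset Matrix Pool.Agent.N28.BM

/-- the alternant `det (x_j ^ h_i)` -/
noncomputable def altn {d : ℕ} (h : Fin d → ℤ) (x : Fin d → ℂ) : ℂ := (Matrix.of fun i j => x j ^ h i).det

lemma altn_scale {d : ℕ} (h : Fin d → ℤ) (x : Fin d → ℂ) (c : ℂ) (hc : c ≠ 0) :
    altn h (fun j => c * x j) = c ^ (∑ i, h i) * altn h x := by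
  unfold altn
  have h1 : (Matrix.of fun i j => (c * x j) ^ h i) =
      Matrix.of fun i j => c ^ h i * (Matrix.of fun i j => x j ^ h i) i j := by
    ext i j
    simp [mul_zpow]
  rw [h1, Matrix.det_mul_column]
  congr 1
  exact (prod_zpow_eq h c hc).symm
where
  prod_zpow_eq {d : ℕ} (h : Fin d → ℤ) (c : ℂ) (hc : c ≠ 0) : c ^ (∑ i, h i) = ∏ i, c ^ h i := by
    classical
    have : ∀ A : Finset (Fin d), c ^ (∑ i ∈ A, h i) = ∏ i ∈ A, c ^ h i := by
      intro A
      induction A using Finset.induction_on with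
      | empty => simp
      | insert a A ha ih => rw [Finset.sum_insert ha, Finset.prod_insert ha, zpow_add₀ hc, ih]
    exact this _

lemma geom_Ico (z : ℂ) (hz : z ≠ 0) (a b : ℤ) (hab : a ≤ b) :
    (z - 1) * ∑ k ∈ Finset.Ico a b, z ^ k = z ^ b - z ^ a := by
  induction b, hab using Int.leInduction with
  | base => simp
  | succ b hb ih =>
    have h1 : Finset.Ico a (b + 1) = insert b (Finset.Ico a b) := by
      ext k
      simp only [Finset.mem_Ico, Finset.mem_insert]
      omega
    rw [h1, Finset.sum_insert (by simp), mul_add, ih, zpow_add_one₀ hz]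
    ring

lemma altn_branch {n : ℕ} (h : Fin (n + 2) → ℤ) (hh : StrictAnti h) (z : Fin (n + 2) → ℂ) (c : Fin (n + 2))
    (hc : z c = 1) (hz : ∀ j, z j ≠ 0) :
    ‖altn h z‖ = (∏ j, ‖z (c.succAbove j) - 1‖) *
      ‖∑ k ∈ Fintype.piFinset (fun i : Fin (n + 1) => Finset.Ico (h i.succ) (h i.castSucc)),
        altn k (fun j => z (c.succAbove j))‖ := by
  set B : Matrix (Fin (n + 2)) (Fin (n + 2)) ℂ := Matrix.of fun i j =>
    Fin.cases (motive := fun _ => ℂ) (z j ^ h 0) (fun i => z j ^ h i.succ - z j ^ h i.castSucc) i with hB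
  have h1 : altn h z = B.det := by
    unfold altn
    refine Matrix.det_eq_of_forall_row_eq_smul_add_pred (fun _ => 1) (fun j => ?_) (fun i j => ?_)
    · rfl
    · simp [hB]
  have h2 : B.det = (-1) ^ ((c : ℕ)) * (B.submatrix Fin.succ c.succAbove).det := by
    rw [Matrix.det_succ_column B c, Finset.sum_eq_single 0]
    · have : B 0 c = 1 := by simp [hB, hc]
      rw [this, mul_one]
      simp only [Fin.val_zero, zero_add]
      congr 3
    · intro i _ hi
      obtain ⟨i', rfl⟩ := Fin.exists_succ_eq.2 hi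
      have : B i'.succ c = 0 := by simp [hB, hc]
      rw [this, mul_zero, zero_mul]
    · simp
  have h3 : B.submatrix Fin.succ c.succAbove = Matrix.of fun i j =>
      (fun j => -(z (c.succAbove j) - 1)) j *
        (Matrix.of fun (i : Fin (n + 1)) (j : Fin (n + 1)) =>
          ∑ k ∈ Finset.Ico (h i.succ) (h i.castSucc), z (c.succAbove j) ^ k) i j := by
    ext i j
    have h4 : h i.succ ≤ h i.castSucc := (hh (Fin.castSucc_lt_succ)).le
    have h5 := geom_Ico (z (c.succAbove j)) (hz _) _ _ h4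
    simp only [hB, Matrix.submatrix_apply, Matrix.of_apply, Fin.cases_succ]
    rw [neg_mul, h5]
    ring
  have h6 : (Matrix.of fun (i : Fin (n + 1)) (j : Fin (n + 1)) =>
      ∑ k ∈ Finset.Ico (h i.succ) (h i.castSucc), z (c.succAbove j) ^ k).det =
      ∑ k ∈ Fintype.piFinset (fun i : Fin (n + 1) => Finset.Ico (h i.succ) (h i.castSucc)),
        altn k (fun j => z (c.succAbove j)) := by
    have h7 := MultilinearMap.map_sum_finset
      (Matrix.detRowAlternating (n := Fin (n + 1)) (R := ℂ)).toMultilinearMap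
      (fun (i : Fin (n + 1)) (k : ℤ) => (fun j => z (c.succAbove j) ^ k : Fin (n + 1) → ℂ))
      (fun i : Fin (n + 1) => Finset.Ico (h i.succ) (h i.castSucc))
    unfold altn
    refine Eq.trans ?_ (h7.trans ?_)
    · show _ = Matrix.det _
      congr 1
      ext i j
      simp [Finset.sum_apply]
    · rfl
  rw [h1, h2, h3, Matrix.det_mul_row, h6, norm_mul, norm_mul, norm_pow, norm_neg, norm_one, one_pow, one_mul,
    norm_prod]
  simp only [norm_neg]

/-- the product of the differences `h i - h j`, `i < j`; if `δ` then the factor for `(0, n)` is left out -/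
def wgt (δ : Bool) {n : ℕ} (h : Fin (n + 1) → ℤ) : ℝ :=
  ∏ i, ∏ j ∈ Finset.Ioi i, if (δ = true ∧ i = 0 ∧ j = Fin.last n) then (1 : ℝ) else ((h i - h j : ℤ) : ℝ)

lemma wgt_nonneg (δ : Bool) {n : ℕ} (h : Fin (n + 1) → ℤ) (hh : StrictAnti h) : 0 < wgt δ h := by
  refine Finset.prod_pos fun i _ => Finset.prod_pos fun j hj => ?_
  split_ifs
  · exact one_pos
  · have := hh (Finset.mem_Ioi.1 hj)
    exact_mod_cast (by omega : 0 < h i - h j)

lemma wgt_mul {n : ℕ} (h : Fin (n + 2) → ℤ) :
    wgt false h = wgt true h * ((h 0 - h (Fin.last _) : ℤ) : ℝ) := by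
  unfold wgt
  have key : ∀ i : Fin (n + 2), ∏ j ∈ Finset.Ioi i, (if ((false : Bool) = true ∧ i = 0 ∧ j = Fin.last (n + 1)) then (1 : ℝ)
      else ((h i - h j : ℤ) : ℝ)) = (∏ j ∈ Finset.Ioi i, if ((true : Bool) = true ∧ i = 0 ∧ j = Fin.last (n + 1)) then (1 : ℝ)
      else ((h i - h j : ℤ) : ℝ)) * (if i = 0 then ((h 0 - h (Fin.last _) : ℤ) : ℝ) else 1) := by
    intro i
    by_cases hi : i = 0
    · subst hi
      rw [if_pos rfl]
      have hmem : Fin.last (n + 1) ∈ Finset.Ioi (0 : Fin (n + 2)) := by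
        rw [Finset.mem_Ioi]
        exact Fin.last_pos
      rw [← Finset.mul_prod_erase _ _ hmem, ← Finset.mul_prod_erase _ _ hmem]
      simp only [Bool.false_eq_true, false_and, if_false, true_and, if_true, one_mul]
      rw [mul_comm]
      congr 1
      refine Finset.prod_congr rfl fun j hj => ?_
      rw [if_neg (Finset.ne_of_mem_erase hj)]
    · rw [if_neg hi, mul_one]
      simp [hi]
  rw [Finset.prod_congr rfl fun i _ => key i, Finset.prod_mul_distrib]
  simp

lemma Ioi_cs {n : ℕ} (i : Fin (n + 1)) (f : Fin (n + 2) → ℝ) :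
    ∏ j ∈ Finset.Ioi i.castSucc, f j = f i.succ * ∏ j ∈ Finset.Ioi i, f j.succ := by
  have h1 : Finset.Ioi i.castSucc = (Finset.Ici i).map (Fin.succEmb (n + 1)) := by
    ext j
    simp only [Finset.mem_Ioi, Finset.mem_map, Finset.mem_Ici]
    constructor
    · intro hj
      have hj0 : j ≠ 0 := by
        rintro rfl
        exact absurd hj (Fin.not_lt_zero _)
      obtain ⟨j', rfl⟩ := Fin.exists_succ_eq.2 hj0
      refine ⟨j', ?_, rfl⟩
      rw [Fin.lt_def, Fin.val_castSucc, Fin.val_succ] at hj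
      rw [Fin.le_def]
      omega
    · rintro ⟨j', hj', rfl⟩
      rw [Fin.le_def] at hj'
      rw [Fin.lt_def, Fin.val_castSucc]
      show (i : ℕ) < (j'.succ : Fin (n + 2)).val
      rw [Fin.val_succ]
      omega
  rw [h1, Finset.prod_map]
  have h2 : Finset.Ici i = insert i (Finset.Ioi i) := by
    ext j
    simp [le_iff_eq_or_lt]
  rw [h2, Finset.prod_insert (by simp)]
  rfl

/-- the sum of the weights over the interlacing box -/
lemma wgt_sum (δ : Bool) {n : ℕ} (hn : δ = true → n ≠ 0) (h : Fin (n + 2) → ℤ) (hh : StrictAnti h) :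
    ∑ k ∈ Fintype.piFinset (fun i : Fin (n + 1) => Finset.Ico (h i.succ) (h i.castSucc)), wgt δ k ≤ wgt δ h := by
  have h1 : ∀ k ∈ Fintype.piFinset (fun i : Fin (n + 1) => Finset.Ico (h i.succ) (h i.castSucc)),
      wgt δ k ≤ ∏ i : Fin (n + 1), ∏ j ∈ Finset.Ioi i, if (δ = true ∧ i = 0 ∧ j = Fin.last n) then (1 : ℝ)
        else ((h i.castSucc - h j.succ : ℤ) : ℝ) := by
    intro k hk
    rw [Fintype.mem_piFinset] at hk
    have hk' : ∀ i, h i.succ ≤ k i ∧ k i < h i.castSucc := fun i => Finset.mem_Ico.1 (hk i)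
    have hanti : StrictAnti k := by
      intro i j hij
      have h2 := (hk' j).2
      have h3 := (hk' i).1
      have h4 : h j.castSucc ≤ h i.succ := hh.antitone (by
        rw [Fin.le_def, Fin.val_succ, Fin.val_castSucc]
        exact hij)
      omega
    refine Finset.prod_le_prod (fun i _ => Finset.prod_nonneg fun j hj => ?_) fun i _ =>
      Finset.prod_le_prod (fun j hj => ?_) fun j hj => ?_
    · split_ifs
      · exact zero_le_one
      · have := hanti (Finset.mem_Ioi.1 hj)
        exact_mod_cast (by omega : 0 ≤ k i - k j)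
    · split_ifs
      · exact zero_le_one
      · have := hanti (Finset.mem_Ioi.1 hj)
        exact_mod_cast (by omega : 0 ≤ k i - k j)
    · split_ifs
      · exact le_rfl
      · have h2 := (hk' i).2
        have h3 := (hk' j).1
        exact_mod_cast (by omega : k i - k j ≤ h i.castSucc - h j.succ)
  refine (Finset.sum_le_sum h1).trans ?_
  rw [Finset.sum_const, Fintype.card_piFinset, nsmul_eq_mul, Nat.cast_prod, ← Finset.prod_mul_distrib]
  unfold wgt
  rw [Fin.prod_univ_castSucc (n := n + 1)]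
  have h5 : (∏ j ∈ Finset.Ioi (Fin.last (n + 1)), if (δ = true ∧ Fin.last (n + 1) = 0 ∧ j = Fin.last (n + 1)) then (1 : ℝ)
      else ((h (Fin.last (n + 1)) - h j : ℤ) : ℝ)) = 1 := by
    have : Finset.Ioi (Fin.last (n + 1)) = ∅ := by
      ext j
      simp [Fin.le_last]
    rw [this, Finset.prod_empty]
  rw [h5, mul_one]
  refine le_of_eq (Finset.prod_congr rfl fun i _ => ?_)
  rw [Ioi_cs, Int.card_Ico]
  have h6 : ¬ (δ = true ∧ i.castSucc = 0 ∧ i.succ = Fin.last (n + 1)) := by
    rintro ⟨h7, h8, h9⟩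
    apply hn h7
    have h10 := congrArg Fin.val h8
    have h11 := congrArg Fin.val h9
    rw [Fin.val_castSucc, Fin.val_zero] at h10
    rw [Fin.val_succ, Fin.val_last] at h11
    omega
  rw [if_neg h6]
  have h7 : h i.succ < h i.castSucc := hh (Fin.castSucc_lt_succ)
  congr 1
  · rw [← Int.cast_natCast, Int.toNat_of_nonneg (by omega)]
  · refine Finset.prod_congr rfl fun j _ => ?_
    have e1 : (i.castSucc = 0) ↔ (i = 0) := by
      rw [← Fin.castSucc_zero, Fin.castSucc_inj]
    have e2 : (j.succ = Fin.last (n + 1)) ↔ (j = Fin.last n) := by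
      rw [← Fin.succ_last, Fin.succ_inj]
    simp only [e1, e2]

lemma rho_Ico {n : ℕ} : Fintype.piFinset (fun i : Fin (n + 1) => Finset.Ico (rho (n + 1) i.succ) (rho (n + 1) i.castSucc)) =
    {rho n} := by
  ext k
  rw [Fintype.mem_piFinset, Finset.mem_singleton]
  constructor
  · intro hk
    funext i
    have h1 := Finset.mem_Ico.1 (hk i)
    simp only [rho, Fin.val_succ, Fin.val_castSucc] at h1 ⊢
    push_cast at h1
    omega
  · rintro rfl i
    rw [Finset.mem_Ico]
    simp only [rho, Fin.val_succ, Fin.val_castSucc]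
    push_cast
    constructor <;> omega

lemma rho_anti (n : ℕ) : StrictAnti (rho n) := by
  intro i j hij
  simp only [rho]
  have : (i : ℕ) < j := hij
  omega

lemma norm_altn_scale {d : ℕ} (h : Fin d → ℤ) (x : Fin d → ℂ) (c : ℂ) (hc : ‖c‖ = 1) :
    ‖altn h (fun j => c * x j)‖ = ‖altn h x‖ := by
  have hc0 : c ≠ 0 := by
    rintro rfl
    simp at hc
  rw [altn_scale h x c hc0, norm_mul, norm_zpow, hc, _root_.one_zpow, one_mul]

/-- The Weyl character is bounded by the product of the differences. -/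
theorem altn_le (n : ℕ) : ∀ (h : Fin (n + 1) → ℤ), StrictAnti h → ∀ x : Fin (n + 1) → ℂ, (∀ i, ‖x i‖ = 1) →
    ‖altn h x‖ ≤ wgt false h * ‖altn (rho n) x‖ := by
  induction n with
  | zero =>
    intro h _ x hx
    have h1 : ∀ g : Fin 1 → ℤ, ‖altn g x‖ = 1 := by
      intro g
      unfold altn
      rw [Matrix.det_fin_one, Matrix.of_apply, norm_zpow, hx, _root_.one_zpow]
    rw [h1, h1, mul_one]
    unfold wgt
    simp
  | succ n ih =>
    intro h hh x hx
    have hx0 : ∀ j, x j ≠ 0 := fun j hj => by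
      have := hx j
      rw [hj, norm_zero] at this
      exact zero_ne_one this
    set c : Fin (n + 2) := 0
    set z : Fin (n + 2) → ℂ := fun j => (x c)⁻¹ * x j with hz
    have hinv : ‖(x c)⁻¹‖ = 1 := by rw [norm_inv, hx, inv_one]
    have hz1 : ∀ j, ‖z j‖ = 1 := fun j => by rw [hz]; simp only; rw [norm_mul, hinv, hx, one_mul]
    have hz0 : ∀ j, z j ≠ 0 := fun j => mul_ne_zero (inv_ne_zero (hx0 _)) (hx0 _)
    have hzc : z c = 1 := inv_mul_cancel₀ (hx0 _)
    rw [← norm_altn_scale h x _ hinv, ← norm_altn_scale (rho (n + 1)) x _ hinv]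
    rw [altn_branch h hh z c hzc hz0, altn_branch (rho (n + 1)) (rho_anti _) z c hzc hz0, rho_Ico,
      Finset.sum_singleton]
    have h1 : ‖∑ k ∈ Fintype.piFinset (fun i : Fin (n + 1) => Finset.Ico (h i.succ) (h i.castSucc)),
        altn k (fun j => z (c.succAbove j))‖ ≤ wgt false h * ‖altn (rho n) (fun j => z (c.succAbove j))‖ := by
      refine (norm_sum_le _ _).trans ?_
      refine le_trans (Finset.sum_le_sum fun k hk => ih k (box_anti h hh k hk) _ fun j => hz1 _) ?_
      rw [← Finset.sum_mul]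
      exact mul_le_mul_of_nonneg_right (wgt_sum false (by simp) h hh) (norm_nonneg _)
    calc _ ≤ (∏ j, ‖z (c.succAbove j) - 1‖) * (wgt false h * ‖altn (rho n) (fun j => z (c.succAbove j))‖) :=
          mul_le_mul_of_nonneg_left h1 (Finset.prod_nonneg fun _ _ => norm_nonneg _)
      _ = _ := by ring
where
  box_anti {n : ℕ} (h : Fin (n + 2) → ℤ) (hh : StrictAnti h) (k : Fin (n + 1) → ℤ)
      (hk : k ∈ Fintype.piFinset (fun i : Fin (n + 1) => Finset.Ico (h i.succ) (h i.castSucc))) : StrictAnti k := by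
    rw [Fintype.mem_piFinset] at hk
    have hk' : ∀ i, h i.succ ≤ k i ∧ k i < h i.castSucc := fun i => Finset.mem_Ico.1 (hk i)
    intro i j hij
    have h2 := (hk' j).2
    have h3 := (hk' i).1
    have h4 : h j.castSucc ≤ h i.succ := hh.antitone (by
      rw [Fin.le_def, Fin.val_succ, Fin.val_castSucc]
      exact hij)
    omega

/-- The Weyl character at a point with `x_i ≠ x_j` is smaller by the factor `h_1 - h_d`. -/
theorem altn_le' (n : ℕ) : ∀ (h : Fin (n + 2) → ℤ), StrictAnti h → ∀ x : Fin (n + 2) → ℂ, (∀ i, ‖x i‖ = 1) →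
    ∀ i j, i ≠ j → ‖altn h x‖ * ‖x i - x j‖ ≤ 2 * wgt true h * ‖altn (rho (n + 1)) x‖ := by
  induction n with
  | zero =>
    intro h _ x hx i j hij
    have h1 : ‖altn h x‖ ≤ 2 := by
      unfold altn
      rw [Matrix.det_fin_two]
      simp only [Matrix.of_apply]
      refine (norm_sub_le _ _).trans ?_
      rw [norm_mul, norm_mul, norm_zpow, norm_zpow, norm_zpow, norm_zpow, hx, hx]
      norm_num
    have h2 : ‖altn (rho (0 + 1)) x‖ = ‖x i - x j‖ := by
      unfold altn
      rw [Matrix.det_fin_two]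
      simp only [Matrix.of_apply, rho]
      fin_cases i <;> fin_cases j
      · exact absurd rfl hij
      · simp
      · simp
        rw [norm_sub_rev]
      · exact absurd rfl hij
    have h3 : wgt true h = 1 := by
      unfold wgt
      rw [Fin.prod_univ_two]
      have e0 : Finset.Ioi (0 : Fin (0 + 2)) = {1} := by decide
      have e1 : Finset.Ioi (1 : Fin (0 + 2)) = ∅ := by decide
      rw [e0, e1, Finset.prod_singleton, Finset.prod_empty, mul_one, if_pos ⟨rfl, rfl, rfl⟩]
    rw [h2, h3, mul_one]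
    exact mul_le_mul_of_nonneg_right h1 (norm_nonneg _)
  | succ n ih =>
    intro h hh x hx i j hij
    have hx0 : ∀ j, x j ≠ 0 := fun j hj => by
      have := hx j
      rw [hj, norm_zero] at this
      exact zero_ne_one this
    obtain ⟨c, hci, hcj⟩ : ∃ c : Fin (n + 1 + 2), i ≠ c ∧ j ≠ c := by
      by_contra hcon
      push Not at hcon
      have h1 : (Finset.univ : Finset (Fin (n + 1 + 2))) ⊆ {i, j} := by
        intro c _
        rw [Finset.mem_insert, Finset.mem_singleton]
        by_cases hc : i = c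
        · left; exact hc.symm
        · right; exact (hcon c hc).symm
      have h2 := Finset.card_le_card h1
      have h3 := Finset.card_le_two (a := i) (b := j)
      rw [Finset.card_univ, Fintype.card_fin] at h2
      omega
    obtain ⟨i', rfl⟩ := Fin.exists_succAbove_eq hci
    obtain ⟨j', rfl⟩ := Fin.exists_succAbove_eq hcj
    have hij' : i' ≠ j' := fun e => hij (by rw [e])
    set z : Fin (n + 1 + 2) → ℂ := fun j => (x c)⁻¹ * x j with hz
    have hinv : ‖(x c)⁻¹‖ = 1 := by rw [norm_inv, hx, inv_one]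
    have hz1 : ∀ j, ‖z j‖ = 1 := fun j => by rw [hz]; simp only; rw [norm_mul, hinv, hx, one_mul]
    have hz0 : ∀ j, z j ≠ 0 := fun j => mul_ne_zero (inv_ne_zero (hx0 _)) (hx0 _)
    have hzc : z c = 1 := inv_mul_cancel₀ (hx0 _)
    have hzd : ‖x (c.succAbove i') - x (c.succAbove j')‖ = ‖z (c.succAbove i') - z (c.succAbove j')‖ := by
      rw [hz]
      simp only
      rw [← mul_sub, norm_mul, hinv, one_mul]
    rw [← norm_altn_scale h x _ hinv, ← norm_altn_scale (rho (n + 1 + 1)) x _ hinv, hzd]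
    rw [altn_branch h hh z c hzc hz0, altn_branch (rho (n + 1 + 1)) (rho_anti _) z c hzc hz0, rho_Ico,
      Finset.sum_singleton]
    have h1 : ‖∑ k ∈ Fintype.piFinset (fun i : Fin (n + 1 + 1) => Finset.Ico (h i.succ) (h i.castSucc)),
        altn k (fun j => z (c.succAbove j))‖ * ‖z (c.succAbove i') - z (c.succAbove j')‖ ≤
        2 * wgt true h * ‖altn (rho (n + 1)) (fun j => z (c.succAbove j))‖ := by
      refine (mul_le_mul_of_nonneg_right (norm_sum_le _ _) (norm_nonneg _)).trans ?_
      rw [Finset.sum_mul]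
      refine le_trans (Finset.sum_le_sum fun k hk => ih k (altn_le.box_anti h hh k hk) _ (fun j => hz1 _) i' j' hij') ?_
      rw [← Finset.sum_mul, ← Finset.mul_sum]
      exact mul_le_mul_of_nonneg_right (mul_le_mul_of_nonneg_left (wgt_sum true (fun _ => Nat.succ_ne_zero n) h hh)
        zero_le_two) (norm_nonneg _)
    calc _ = (∏ j, ‖z (c.succAbove j) - 1‖) * (‖∑ k ∈ Fintype.piFinset (fun i : Fin (n + 1 + 1) =>
              Finset.Ico (h i.succ) (h i.castSucc)), altn k (fun j => z (c.succAbove j))‖ *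
              ‖z (c.succAbove i') - z (c.succAbove j')‖) := by ring
      _ ≤ (∏ j, ‖z (c.succAbove j) - 1‖) * (2 * wgt true h * ‖altn (rho (n + 1)) (fun j => z (c.succAbove j))‖) :=
          mul_le_mul_of_nonneg_left h1 (Finset.prod_nonneg fun _ _ => norm_nonneg _)
      _ = _ := by ring

end Pool.Agent.H498.EQ
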