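import Pool.Agent.H498.BT.Bra

/-!
# The multiplicities in the regular representation
-/

set_option autoImplicit false

namespace Pool.Agent.H498.EQ

open Polynomial Module Pool.Agent.N28.BM Pool.Agent.H498.BT Matrix

section Brc

variable {F : Type} [Field F] (t : Fˣ →* ℂˣ)

open scoped Classical in
/-- the lift of an element of `F` -/
noncomputable def tx (y : F) : ℂ := if h : y = 0 then 0 else ((t (Units.mk0 y h) : ℂˣ) : ℂ)

lemma tx_unit (y : Fˣ) : tx t (y : F) = t y := by
  unfold tx
  rw [dif_neg y.ne_zero, Units.mk0_val]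

lemma tx_mul (ζ : Fˣ) (y : F) : tx t ((ζ : F) * y) = t ζ * tx t y := by
  by_cases hy : y = 0
  · subst hy
    simp [tx]
  · obtain ⟨y, rfl⟩ : ∃ u : Fˣ, (u : F) = y := ⟨Units.mk0 y hy, rfl⟩
    rw [← Units.val_mul, tx_unit, tx_unit, map_mul, Units.val_mul]

variable {V : Type} [AddCommGroup V] [Module F V] [FiniteDimensional F V]

/-- the sum of the lifts of the eigenvalues -/
noncomputable def brc (f : V →ₗ[F] V) : ℂ := (f.charpoly.roots.map (tx t)).sum

lemma charpoly_sub_quot [IsAlgClosed F] (W : Submodule F V) (f : V →ₗ[F] V) (hW : W ≤ W.comap f) :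
    f.charpoly = (f.restrict hW).charpoly * (W.mapQ W f hW).charpoly := by
  have hinf : Infinite F := IsAlgClosed.instInfinite
  apply Polynomial.funext
  intro c
  rw [eval_mul, LinearMap.eval_charpoly, LinearMap.eval_charpoly, LinearMap.eval_charpoly]
  have hW' : W ≤ W.comap (algebraMap F (Module.End F V) c - f) := by
    intro v hv
    rw [Submodule.mem_comap, LinearMap.sub_apply]
    exact W.sub_mem (W.smul_mem c hv) (hW hv)
  rw [LinearMap.det_eq_det_mul_det W _ hW']
  congr 1
  congr 1
  apply LinearMap.ext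
  intro v
  obtain ⟨v, rfl⟩ := Submodule.mkQ_surjective W v
  rfl

lemma brc_add [IsAlgClosed F] (W : Submodule F V) (f : V →ₗ[F] V) (hW : W ≤ W.comap f) :
    brc t f = brc t (f.restrict hW) + brc t (W.mapQ W f hW) := by
  unfold brc
  rw [charpoly_sub_quot W f hW, roots_mul (mul_ne_zero (LinearMap.charpoly_monic _).ne_zero
    (LinearMap.charpoly_monic _).ne_zero), Multiset.map_add, Multiset.sum_add]

lemma brc_conj {V' : Type} [AddCommGroup V'] [Module F V'] [FiniteDimensional F V'] (e : V ≃ₗ[F] V')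
    (f : V →ₗ[F] V) (f' : V' →ₗ[F] V') (h : ∀ v, e (f v) = f' (e v)) : brc t f = brc t f' := by
  have h1 : f' = e.conj f := by
    apply LinearMap.ext
    intro v
    rw [LinearEquiv.conj_apply_apply, h, e.apply_symm_apply]
  unfold brc
  rw [h1, LinearEquiv.charpoly_conj]

lemma brc_smul [IsAlgClosed F] (ζ : Fˣ) (f : V →ₗ[F] V) : brc t ((ζ : F) • f) = t ζ * brc t f := by
  have hinf : Infinite F := IsAlgClosed.instInfinite
  have h0 : f.charpoly = (f.charpoly.roots.map fun a => X - C a).prod :=
    ((IsAlgClosed.splits f.charpoly).eq_prod_roots_of_monic f.charpoly_monic)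
  have hcard : f.charpoly.roots.card = finrank F V := by
    rw [IsAlgClosed.card_roots_eq_natDegree, LinearMap.charpoly_natDegree]
  have h1 : ((ζ : F) • f).charpoly = (f.charpoly.roots.map fun a => X - C ((ζ : F) * a)).prod := by
    apply Polynomial.funext
    intro c
    rw [LinearMap.eval_charpoly]
    have h2 : algebraMap F (Module.End F V) c - (ζ : F) • f =
        (ζ : F) • (algebraMap F (Module.End F V) ((ζ : F)⁻¹ * c) - f) := by
      rw [smul_sub]
      congr 1
      rw [Algebra.algebraMap_eq_smul_one, Algebra.algebraMap_eq_smul_one, smul_smul, mul_inv_cancel_left₀ ζ.ne_zero]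
    rw [h2, LinearMap.det_smul, ← LinearMap.eval_charpoly, ← hcard]
    have h4 : ∀ m : Multiset F, (ζ : F) ^ m.card * ((m.map fun a => X - C a).prod).eval ((ζ : F)⁻¹ * c) =
        ((m.map fun a => X - C ((ζ : F) * a)).prod).eval c := by
      intro m
      induction m using Multiset.induction_on with
      | empty => simp
      | cons a m ih =>
        rw [Multiset.card_cons, Multiset.map_cons, Multiset.prod_cons, Multiset.map_cons, Multiset.prod_cons,
          eval_mul, eval_mul, ← ih, eval_sub, eval_X, eval_C, eval_sub, eval_X, eval_C]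
        have : c = (ζ : F) * ((ζ : F)⁻¹ * c) := by rw [mul_inv_cancel_left₀ ζ.ne_zero]
        rw [pow_succ]
        conv_rhs => rw [this]
        simp only [mul_inv_cancel_left₀ ζ.ne_zero]
        have h5 : c - (ζ : F) * a = (ζ : F) * ((ζ : F)⁻¹ * c - a) := by
          rw [mul_sub, mul_inv_cancel_left₀ ζ.ne_zero]
        rw [h5]
        ring
    rw [← h4, ← h0]
  unfold brc
  have h3 : (f.charpoly.roots.map fun a => X - C ((ζ : F) * a)) =
      ((f.charpoly.roots.map fun a => (ζ : F) * a).map fun a => X - C a) := by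
    rw [Multiset.map_map]; rfl
  rw [h1, h3, roots_multiset_prod_X_sub_C, Multiset.map_map, ← Multiset.sum_map_mul_left]
  congr 1
  refine Multiset.map_congr rfl fun a _ => ?_
  exact tx_mul t ζ a

lemma brc_mat {d : ℕ} (M : Matrix (Fin d) (Fin d) F) (y : Fin d → Fˣ)
    (h : M.charpoly = ∏ i, (X - C ((y i : Fˣ) : F))) : brc t (Matrix.toLin' M) = ∑ i, ((t (y i) : ℂˣ) : ℂ) := by
  unfold brc
  rw [Matrix.charpoly_toLin', h]
  have h1 : (∏ i, (X - C ((y i : Fˣ) : F))) =
      ((Finset.univ.val.map fun i => ((y i : Fˣ) : F)).map (fun a => X - C a)).prod := by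
    rw [Multiset.map_map]; rfl
  rw [h1, roots_multiset_prod_X_sub_C, Multiset.map_map]
  show (Multiset.map _ Finset.univ.val).sum = _
  rw [← Finset.sum_eq_multiset_sum]
  exact Finset.sum_congr rfl fun i _ => tx_unit t (y i)

end Brc

section Dec

variable {G : Type} [Group G] {F : Type} [Field F]

/-- the restriction of a representation to an invariant subspace -/
def subR {V : Type} [AddCommGroup V] [Module F V] (τ : Representation F G V) (U : Submodule F V)
    (hU : ∀ g, U ≤ U.comap (τ g)) : Representation F G U where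
  toFun g := (τ g).restrict (hU g)
  map_one' := by
    apply LinearMap.ext
    intro v
    apply Subtype.ext
    rw [LinearMap.coe_restrict_apply, map_one]
    rfl
  map_mul' a b := by
    apply LinearMap.ext
    intro v
    apply Subtype.ext
    rw [LinearMap.coe_restrict_apply, map_mul]
    rfl

/-- the representation on the quotient by an invariant subspace -/
def quoR {V : Type} [AddCommGroup V] [Module F V] (τ : Representation F G V) (U : Submodule F V)
    (hU : ∀ g, U ≤ U.comap (τ g)) : Representation F G (V ⧸ U) where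
  toFun g := U.mapQ U (τ g) (hU g)
  map_one' := by
    apply LinearMap.ext
    intro v
    obtain ⟨v, rfl⟩ := Submodule.mkQ_surjective U v
    simp only [Submodule.mkQ_apply, Submodule.mapQ_apply, map_one]
    rfl
  map_mul' a b := by
    apply LinearMap.ext
    intro v
    obtain ⟨v, rfl⟩ := Submodule.mkQ_surjective U v
    simp only [Submodule.mkQ_apply, Submodule.mapQ_apply, map_mul]
    rfl

variable [IsAlgClosed F] (t : Fˣ →* ℂˣ) {W : Type} [Fintype W] (d : W → ℕ) (ρ : ∀ w, G →* GL (Fin (d w)) F)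
  (hirr : ∀ w, IrrRep (ρ w))
  (hcomp : ∀ (N : ℕ) (τ : G →* GL (Fin N) F), IrrRep τ → ∃ w, IsoRep (ρ w) τ) (br : W → G → ℂ)
  (hbr : ∀ w g (y : Fin (d w) → Fˣ), IsEigen (RingHom.id F) (ρ w g) y → br w g = ∑ i, ((t (y i) : ℂˣ) : ℂ))

include hirr hbr in
omit [Fintype W] in
lemma br_brc (w : W) (g : G) : brc t (toRep (ρ w) g) = br w g := by
  obtain ⟨y, hy⟩ : ∃ y : Fin (d w) → Fˣ, IsEigen (RingHom.id F) (ρ w g) y := by
    obtain ⟨d', hd'⟩ : ∃ d', d w = d' + 1 := ⟨d w - 1, by have := (hirr w).1; omega⟩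
    have key : ∀ (D : ℕ) (hD : D = d' + 1) (M : GL (Fin D) F), ∃ y : Fin D → Fˣ, IsEigen (RingHom.id F) M y := by
      intro D hD M
      subst hD
      exact list_eigen (RingHom.id F) M
    exact key _ hd' (ρ w g)
  rw [hbr w g y hy]
  unfold IsEigen at hy
  rw [Polynomial.map_id] at hy
  exact brc_mat t _ y hy

include hirr hbr hcomp in
/-- The Brauer character of a representation is a combination of irreducible ones. -/
theorem exists_dec (n : ℕ) : ∀ (V : Type) [AddCommGroup V] [Module F V] [FiniteDimensional F V]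
    (τ : Representation F G V), finrank F V = n →
      ∃ m : W → ℕ, ∀ g, brc t (τ g) = ∑ w, (m w : ℂ) * br w g := by
  classical
  induction n using Nat.strong_induction_on with
  | _ n ih =>
    intro V _ _ _ τ hn
    rcases Nat.eq_zero_or_pos n with h0 | hpos
    · refine ⟨0, fun g => ?_⟩
      have h1 : (τ g).charpoly.roots = 0 := by
        rw [← Multiset.card_eq_zero, ← Nat.le_zero]
        refine (Polynomial.card_roots' _).trans ?_
        rw [LinearMap.charpoly_natDegree, hn, h0]
      unfold brc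
      rw [h1]
      simp
    by_cases hred : ∃ U : Submodule F V, (∀ g, U ≤ U.comap (τ g)) ∧ U ≠ ⊥ ∧ U ≠ ⊤
    · obtain ⟨U, hU, hb, ht⟩ := hred
      have h1 : finrank F U < n := by
        rw [← hn]
        exact Submodule.finrank_lt ht
      have h2 : 0 < finrank F U := by
        have : Nontrivial U := (Submodule.nontrivial_iff_ne_bot).2 hb
        exact Module.finrank_pos
      have h3 := Submodule.finrank_quotient_add_finrank U
      obtain ⟨m1, hm1⟩ := ih _ h1 U (subR τ U hU) rfl
      obtain ⟨m2, hm2⟩ := ih _ (by omega : finrank F (V ⧸ U) < n) (V ⧸ U) (quoR τ U hU) rfl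
      refine ⟨m1 + m2, fun g => ?_⟩
      rw [brc_add t U (τ g) (hU g)]
      have e1 := hm1 g
      have e2 := hm2 g
      change brc t ((τ g).restrict (hU g)) = _ at e1
      change brc t (U.mapQ U (τ g) (hU g)) = _ at e2
      rw [e1, e2, ← Finset.sum_add_distrib]
      refine Finset.sum_congr rfl fun w _ => ?_
      simp only [Pi.add_apply, Nat.cast_add]
      ring
    · push Not at hred
      set b := Module.finBasis F V with hb
      set τ' : G →* GL (Fin (finrank F V)) F := MonoidHom.toHomUnits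
        ((LinearMap.toMatrixAlgEquiv b : (V →ₗ[F] V) →* _).comp (τ : G →* (V →ₗ[F] V))) with hτ'
      have hact : ∀ g v, ((τ' g : GL (Fin (finrank F V)) F) : Matrix _ _ F) *ᵥ (b.equivFun v) = b.equivFun (τ g v) := by
        intro g v
        have := LinearMap.toMatrix_mulVec_repr b b (τ g) v
        exact this
      have hirr' : IrrRep τ' := by
        refine ⟨by rw [hn]; exact hpos, fun U' hU' => ?_⟩
        have h1 : ∀ g, U'.comap (b.equivFun : V →ₗ[F] _) ≤ (U'.comap (b.equivFun : V →ₗ[F] _)).comap (τ g) := by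
          intro g v hv
          rw [Submodule.mem_comap, Submodule.mem_comap]
          have h2 := hU' g _ hv
          have h3 := hact g v
          change _ *ᵥ (b.equivFun v) ∈ U' at h2
          rw [h3] at h2
          exact h2
        have h4 : U' = (U'.comap (b.equivFun : V →ₗ[F] _)).map (b.equivFun : V →ₗ[F] _) := by
          rw [Submodule.map_comap_eq_of_surjective b.equivFun.surjective]
        by_cases hbot : U'.comap (b.equivFun : V →ₗ[F] _) = ⊥
        · left
          rw [h4, hbot, Submodule.map_bot]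
        · right
          rw [h4, hred _ h1 hbot, Submodule.map_top, LinearMap.range_eq_top.2 b.equivFun.surjective]
      obtain ⟨w, e, he⟩ := hcomp _ τ' hirr'
      refine ⟨Pi.single w 1, fun g => ?_⟩
      rw [Finset.sum_eq_single w]
      · rw [Pi.single_eq_same, Nat.cast_one, one_mul, ← br_brc t d ρ hirr br hbr w g]
        rw [brc_conj t b.equivFun (τ g) (toRep τ' g) (fun v => (hact g v).symm)]
        exact (brc_conj t e (toRep (ρ w) g) (toRep τ' g) (fun v => he g v)).symm
      · intro w' _ hw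
        rw [Pi.single_eq_of_ne hw, Nat.cast_zero, zero_mul]
      · intro h
        exact absurd (Finset.mem_univ w) h

end Dec

section RegRep

/-- the regular representation on functions -/
def regF (G F : Type) [Group G] [Field F] : Representation F G (G → F) where
  toFun g :=
    { toFun := fun φ x => φ (g⁻¹ * x)
      map_add' := fun _ _ => rfl
      map_smul' := fun _ _ => rfl }
  map_one' := by
    apply LinearMap.ext
    intro φ
    funext x
    show φ (1⁻¹ * x) = φ x
    rw [inv_one, one_mul]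
  map_mul' a b := by
    apply LinearMap.ext
    intro φ
    funext x
    show φ ((a * b)⁻¹ * x) = φ (b⁻¹ * (a⁻¹ * x))
    rw [_root_.mul_inv_rev, mul_assoc]

variable {G : Type} [Group G] {F : Type} [Field F]

lemma exists_chi (g : G) (ζ : Fˣ) (hζ : ζ ^ orderOf g = 1) : ∃ χ : G → Fˣ, ∀ x, χ (g * x) = ζ * χ x := by
  classical
  set s : G → G := fun x => Quotient.out (Quotient.mk (MulAction.orbitRel (Subgroup.zpowers g) G) x) with hs
  have h1 : ∀ x, ∃ j : ℤ, x = g ^ j * s x := by
    intro x
    have h2 : (MulAction.orbitRel (Subgroup.zpowers g) G) (s x) x := Quotient.mk_out x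
    rw [MulAction.orbitRel_apply] at h2
    obtain ⟨⟨u, j, hj⟩, hu⟩ := h2
    refine ⟨-j, ?_⟩
    have h3 : u * x = s x := hu
    simp only at hj
    rw [← h3, ← hj, ← mul_assoc, ← _root_.zpow_add, neg_add_cancel, zpow_zero, one_mul]
  choose j hj using h1
  refine ⟨fun x => ζ ^ j x, fun x => ?_⟩
  have h4 : s (g * x) = s x := by
    rw [hs]
    simp only
    congr 1
    apply Quotient.sound
    show (MulAction.orbitRel (Subgroup.zpowers g) G) (g * x) x
    rw [MulAction.orbitRel_apply]
    exact ⟨⟨g, Subgroup.mem_zpowers g⟩, rfl⟩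
  have h5 : g ^ (j (g * x)) = g ^ (j x + 1) := by
    have h6 := hj (g * x)
    rw [h4] at h6
    have h7 := hj x
    have h8 : g * x = g ^ (j x + 1) * s x := by
      rw [add_comm, _root_.zpow_add, zpow_one, mul_assoc, ← h7]
    exact (mul_right_cancel (h8.symm.trans h6)).symm
  have h9 : ζ ^ (j (g * x)) = ζ ^ (j x + 1) := by
    have h10 : (orderOf g : ℤ) ∣ j (g * x) - (j x + 1) := by
      rw [orderOf_dvd_iff_zpow_eq_one, _root_.zpow_sub, h5, mul_inv_cancel]
    obtain ⟨c, hc⟩ := h10
    have h11 : ζ ^ (j (g * x) - (j x + 1)) = 1 := by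
      rw [hc, _root_.zpow_mul, zpow_natCast, hζ, _root_.one_zpow]
    rw [_root_.zpow_sub] at h11
    exact mul_inv_eq_one.1 h11
  show ζ ^ (j (g * x)) = ζ * ζ ^ (j x)
  rw [h9, _root_.zpow_add, zpow_one, mul_comm]

variable [Finite G] [IsAlgClosed F] (p : ℕ) [hp : Fact p.Prime] [CharP F p] (t : Fˣ →* ℂˣ)
  (ht : Function.Injective t)

omit hp in
include ht in
lemma reg_zero (g : G) (hg : ¬ p ∣ orderOf g) (hg1 : g ≠ 1) : brc t (regF G F g) = 0 := by
  have hm : 0 < orderOf g := orderOf_pos g
  have : NeZero ((orderOf g : ℕ) : F) := ⟨by rw [Ne, CharP.cast_eq_zero_iff F p]; exact hg⟩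
  have : NeZero (orderOf g) := ⟨hm.ne'⟩
  obtain ⟨z', hz'⟩ := HasEnoughRootsOfUnity.exists_primitiveRoot F (orderOf g)
  obtain ⟨ζ, rfl⟩ := hz'.isUnit hm.ne'
  have hζ : IsPrimitiveRoot ζ (orderOf g) := IsPrimitiveRoot.coe_units_iff.1 hz'
  obtain ⟨χ, hχ⟩ := exists_chi g ζ hζ.pow_eq_one
  have h1 := brc_conj t (LinearEquiv.piCongrRight fun x : G => LinearEquiv.smulOfUnit (χ x))
    (regF G F g) ((ζ : F) • regF G F g) (fun φ => by
      funext x
      show ((χ x : Fˣ) : F) * φ (g⁻¹ * x) = (ζ : F) * (((χ (g⁻¹ * x) : Fˣ) : F) * φ (g⁻¹ * x))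
      have h2 := hχ (g⁻¹ * x)
      rw [mul_inv_cancel_left] at h2
      rw [h2, Units.val_mul, mul_assoc])
  rw [brc_smul] at h1
  have h3 : ((t ζ : ℂˣ) : ℂ) ≠ 1 := by
    intro h4
    have h5 : t ζ = t 1 := by rw [map_one]; exact Units.ext h4
    have h6 := ht h5
    rw [h6] at hζ
    have h7 := hζ.eq_orderOf
    rw [orderOf_one] at h7
    exact hg1 (orderOf_eq_one_iff.1 h7)
  have h8 : (1 - ((t ζ : ℂˣ) : ℂ)) * brc t (regF G F g) = 0 := by
    rw [sub_mul, one_mul, ← h1, sub_self]
  rcases mul_eq_zero.1 h8 with h9 | h9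
  · exact absurd (sub_eq_zero.1 h9).symm h3
  · exact h9

omit hp [CharP F p] [IsAlgClosed F] in
lemma reg_one : brc t (regF G F 1) = (Nat.card G : ℂ) := by
  classical
  cases nonempty_fintype G
  unfold brc
  rw [map_one]
  rw [LinearMap.charpoly_one, Module.finrank_pi, roots_pow]
  have : (X - 1 : F[X]) = X - C 1 := by rw [C_1]
  rw [this, roots_X_sub_C, Multiset.map_nsmul, Multiset.sum_nsmul, Multiset.map_singleton, Multiset.sum_singleton]
  have h1 : tx t (1 : F) = 1 := by
    have := tx_unit t (1 : Fˣ)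
    rw [Units.val_one, map_one, Units.val_one] at this
    exact this
  rw [h1, nsmul_eq_mul, mul_one, Nat.card_eq_fintype_card]

variable {W : Type} [Fintype W] (d : W → ℕ) (ρ : ∀ w, G →* GL (Fin (d w)) F)
  (hirr : ∀ w, IrrRep (ρ w)) (hiso : ∀ w w', w ≠ w' → ¬ IsoRep (ρ w) (ρ w'))
  (hcomp : ∀ (N : ℕ) (τ : G →* GL (Fin N) F), IrrRep τ → ∃ w, IsoRep (ρ w) τ) (br : W → G → ℂ)
  (hbr : ∀ w g (y : Fin (d w) → Fˣ), IsEigen (RingHom.id F) (ρ w g) y → br w g = ∑ i, ((t (y i) : ℂˣ) : ℂ))

open scoped Classical in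
include hp ht hirr hiso hcomp hbr in
/-- **Every irreducible representation occurs in the regular representation.** -/
theorem exists_reg : ∃ r : W → ℕ, (∀ w, 0 < r w) ∧ ∀ g : G, ¬ p ∣ orderOf g →
    ∑ w, (r w : ℂ) * br w g = if g = 1 then (Nat.card G : ℂ) else 0 := by
  cases nonempty_fintype G
  obtain ⟨r, hr⟩ := exists_dec t d ρ hirr hcomp br hbr _ (G → F) (regF G F) rfl
  refine ⟨r, fun w => ?_, fun g hg => ?_⟩
  · have : Nonempty (Fin (d w)) := ⟨⟨0, (hirr w).1⟩⟩
    obtain ⟨v₀, hv₀⟩ := exists_ne (0 : Fin (d w) → F)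
    set Φ : (G → F) →ₗ[F] (Fin (d w) → F) :=
      ∑ x : G, (LinearMap.proj x).smulRight ((ρ w x : Matrix (Fin (d w)) (Fin (d w)) F) *ᵥ v₀) with hΦ
    have hΦa : ∀ φ, Φ φ = ∑ x, φ x • ((ρ w x : Matrix (Fin (d w)) (Fin (d w)) F) *ᵥ v₀) := by
      intro φ
      rw [hΦ, LinearMap.sum_apply]
      rfl
    have heq : ∀ g φ, Φ (regF G F g φ) = (ρ w g : Matrix (Fin (d w)) (Fin (d w)) F) *ᵥ (Φ φ) := by
      intro g φ
      rw [hΦa, hΦa, Matrix.mulVec_sum]
      rw [← Equiv.sum_comp (Equiv.mulLeft g) (fun x => regF G F g φ x • ((ρ w x : Matrix (Fin (d w)) (Fin (d w)) F) *ᵥ v₀))]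
      refine Finset.sum_congr rfl fun x _ => ?_
      show φ (g⁻¹ * (g * x)) • _ = _
      rw [inv_mul_cancel_left, Matrix.mulVec_smul]
      congr 1
      show (ρ w (g * x) : Matrix (Fin (d w)) (Fin (d w)) F) *ᵥ v₀ = _
      rw [map_mul, Units.val_mul, Matrix.mulVec_mulVec]
    have hsurj : Function.Surjective Φ := by
      rw [← LinearMap.range_eq_top]
      rcases (hirr w).2 (LinearMap.range Φ) (by
        rintro g _ ⟨φ, rfl⟩
        exact ⟨regF G F g φ, heq g φ⟩) with h | h
      · exfalso
        have h1 : Φ (Pi.single 1 1) = v₀ := by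
          rw [hΦa, Finset.sum_eq_single 1]
          · rw [Pi.single_eq_same, one_smul, map_one, Units.val_one, Matrix.one_mulVec]
          · intro x _ hx
            rw [Pi.single_eq_of_ne hx, zero_smul]
          · intro h; exact absurd (Finset.mem_univ _) h
        have h2 : Φ (Pi.single 1 1) ∈ LinearMap.range Φ := ⟨_, rfl⟩
        rw [h, Submodule.mem_bot, h1] at h2
        exact hv₀ h2
      · exact h
    have hK : ∀ g, LinearMap.ker Φ ≤ (LinearMap.ker Φ).comap (regF G F g) := by
      intro g φ hφ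
      rw [LinearMap.mem_ker] at hφ
      rw [Submodule.mem_comap, LinearMap.mem_ker, heq, hφ, Matrix.mulVec_zero]
    obtain ⟨m, hm⟩ := exists_dec t d ρ hirr hcomp br hbr _ (LinearMap.ker Φ) (subR (regF G F) _ hK) rfl
    have key : ∀ g, ∑ w', (r w' : ℂ) * br w' g = ∑ w', ((m w' : ℂ) + if w' = w then 1 else 0) * br w' g := by
      intro g
      rw [← hr g, brc_add t (LinearMap.ker Φ) (regF G F g) (hK g)]
      have e1 := hm g
      change brc t ((regF G F g).restrict (hK g)) = _ at e1
      have e2 := brc_conj t (Φ.quotKerEquivOfSurjective hsurj) ((LinearMap.ker Φ).mapQ (LinearMap.ker Φ) (regF G F g) (hK g))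
        (toRep (ρ w) g) (fun v => by
          obtain ⟨φ, rfl⟩ := Submodule.mkQ_surjective _ v
          exact heq g φ)
      rw [e1, e2, br_brc t d ρ hirr br hbr w g]
      simp only [add_mul, Finset.sum_add_distrib, ite_mul, one_mul, zero_mul, Finset.sum_ite_eq', Finset.mem_univ,
        if_true]
    have hind := brauer p t ht d ρ hirr hiso br hbr
    rw [Fintype.linearIndependent_iff] at hind
    have h3 := hind (fun w' => (r w' : ℂ) - ((m w' : ℂ) + if w' = w then 1 else 0)) (by
      funext g
      rw [Finset.sum_apply, Pi.zero_apply]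
      simp only [Pi.smul_apply, smul_eq_mul, sub_mul, Finset.sum_sub_distrib]
      rw [key, sub_self]) w
    rw [if_pos rfl, sub_eq_zero] at h3
    have h4 : r w = m w + 1 := by exact_mod_cast h3
    omega
  · rw [← hr g]
    split_ifs with h
    · rw [h]
      exact reg_one t
    · exact reg_zero p t ht g hg h

end RegRep

end Pool.Agent.H498.EQ
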