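import Pool.Agent.H498.EQ.Wey
import Pool.Agent.H498.EQ.Reg
import Pool.Agent.H498.BT.Bra
import Pool.Agent.H498.BT.Key

/-!
# Central characters
-/

set_option autoImplicit false

namespace Pool.Agent.H498.EQ

open Matrix Polynomial Pool.Agent.N28.BM Pool.Agent.H498.BT Filter Topology

section Weyl

variable {S : Type} [Fintype S] [DecidableEq S] {n : ℕ} (s : Wt S (n + 1) → P S (n + 1)) (hs : IsWeyl s)

include hs in
/-- the Weyl characters are homogeneous -/
theorem evx_scale (u : S → ℂˣ) (y : S → Fin (n + 1) → ℂˣ) (h : Wt S (n + 1)) :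
    evx (fun σ i => u σ * y σ i) (s h) =
    (∏ σ, ((u σ : ℂˣ) : ℂ) ^ (∑ i, (h σ i - rho n i))) * evx y (s h) := by
  have h1 : Tendsto (fun ε : ℝ => evx (pth (fun σ i => u σ * y σ i) ε) (s h)) (𝓝[>] 0)
      (𝓝 (evx (fun σ i => u σ * y σ i) (s h))) := by
    have := ((pth_cont (fun (σ : S) (i : Fin (n + 1)) => u σ * y σ i) (s h)).tendsto 0).mono_left
      (nhdsWithin_le_nhds (s := Set.Ioi 0))
    rwa [pth_zero] at this
  have h2 : Tendsto (fun ε : ℝ => (∏ σ, ((u σ : ℂˣ) : ℂ) ^ (∑ i, (h σ i - rho n i))) *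
      evx (pth y ε) (s h)) (𝓝[>] 0)
      (𝓝 ((∏ σ, ((u σ : ℂˣ) : ℂ) ^ (∑ i, (h σ i - rho n i))) * evx y (s h))) := by
    have := ((pth_cont y (s h)).tendsto 0).mono_left
      (nhdsWithin_le_nhds (s := Set.Ioi 0))
    rw [pth_zero] at this
    exact this.const_mul _
  refine tendsto_nhds_unique h1 (h2.congr' ?_)
  filter_upwards [pth_reg (S := S) (n := n) y] with ε hε
  have h3 := evx_weyl s hs (pth y ε) h
  have h4 := evx_weyl s hs (pth (fun σ i => u σ * y σ i) ε) h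
  have h5 : ∀ (g : Fin (n + 1) → ℤ) (σ : S), altn g (fun i => ((pth (fun σ i => u σ * y σ i) ε σ i : ℂˣ) : ℂ)) =
      ((u σ : ℂˣ) : ℂ) ^ (∑ i, g i) * altn g (fun i => ((pth y ε σ i : ℂˣ) : ℂ)) := by
    intro g σ
    rw [← altn_scale g _ _ (Units.ne_zero _)]
    congr 1
    funext i
    rw [pth_val, pth_val, Units.val_mul, mul_assoc]
  have h6 : (∏ σ, altn (rho n) (fun i => ((pth y ε σ i : ℂˣ) : ℂ))) ≠ 0 :=
    Finset.prod_ne_zero_iff.2 fun σ _ => hε σ
  have h7 : (∏ σ, ((u σ : ℂˣ) : ℂ) ^ (∑ i, rho n i)) ≠ 0 :=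
    Finset.prod_ne_zero_iff.2 fun σ _ => zpow_ne_zero _ (Units.ne_zero _)
  simp only [h5, Finset.prod_mul_distrib] at h4
  rw [← h3] at h4
  have h8 : (∏ σ, ((u σ : ℂˣ) : ℂ) ^ (∑ i, h σ i)) =
      (∏ σ, ((u σ : ℂˣ) : ℂ) ^ (∑ i, (h σ i - rho n i))) * ∏ σ, ((u σ : ℂˣ) : ℂ) ^ (∑ i, rho n i) := by
    rw [← Finset.prod_mul_distrib]
    refine Finset.prod_congr rfl fun σ _ => ?_
    rw [← zpow_add₀ (Units.ne_zero _), ← Finset.sum_add_distrib]
    congr 1
    exact Finset.sum_congr rfl fun i _ => by ring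
  rw [h8] at h4
  have h9 := mul_ne_zero h7 h6
  apply mul_right_cancel₀ h9
  rw [h4]
  ring

end Weyl

section Schur

/-- Schur's lemma for central elements -/
lemma irr_scalar {G : Type} [Group G] {F : Type} [Field F] [IsAlgClosed F] {d : ℕ} (ρ : G →* GL (Fin d) F)
    (h : IrrRep ρ) (z : G) (hz : ∀ g, z * g = g * z) :
    ∃ c : Fˣ, (ρ z : Matrix (Fin d) (Fin d) F) = (c : F) • 1 := by
  have hne : Nonempty (Fin d) := ⟨⟨0, h.1⟩⟩
  obtain ⟨c, hc⟩ := Module.End.exists_eigenvalue (Matrix.toLin' (ρ z : Matrix (Fin d) (Fin d) F))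
  have hU := h.2 (Module.End.eigenspace (Matrix.toLin' (ρ z : Matrix (Fin d) (Fin d) F)) c) (by
    intro g v hv
    rw [Module.End.mem_eigenspace_iff, Matrix.toLin'_apply] at hv ⊢
    rw [Matrix.mulVec_mulVec, ← Units.val_mul, ← map_mul, hz, map_mul, Units.val_mul, ← Matrix.mulVec_mulVec,
      hv, Matrix.mulVec_smul])
  rcases hU with hU | hU
  · exact absurd hU hc
  have h1 : ∀ v, (ρ z : Matrix (Fin d) (Fin d) F) *ᵥ v = c • v := by
    intro v
    have : v ∈ Module.End.eigenspace (Matrix.toLin' (ρ z : Matrix (Fin d) (Fin d) F)) c := by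
      rw [hU]; trivial
    rwa [Module.End.mem_eigenspace_iff, Matrix.toLin'_apply] at this
  have h2 : (ρ z : Matrix (Fin d) (Fin d) F) = c • 1 := by
    apply Matrix.toLin'.injective
    apply LinearMap.ext
    intro v
    rw [Matrix.toLin'_apply, Matrix.toLin'_apply, h1, Matrix.smul_mulVec, Matrix.one_mulVec]
  have hc0 : c ≠ 0 := by
    rintro rfl
    rw [zero_smul] at h2
    have h3 := (ρ z).mul_inv
    rw [h2, zero_mul] at h3
    obtain ⟨i⟩ := hne
    have := congrFun (congrFun h3 i) i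
    simp at this
  exact ⟨Units.mk0 c hc0, h2⟩

/-- the scalar matrix -/
def sc {k : Type} [CommRing k] {d : ℕ} (a : kˣ) : GL (Fin d) k :=
  Units.map (Matrix.scalar (Fin d)).toMonoidHom a

lemma sc_val {k : Type} [CommRing k] {d : ℕ} (a : kˣ) :
    ((sc a : GL (Fin d) k) : Matrix (Fin d) (Fin d) k) = (a : k) • 1 := by
  show Matrix.scalar (Fin d) (a : k) = _
  rw [Matrix.scalar_apply, Matrix.smul_one_eq_diagonal]

lemma sc_comm {k : Type} [CommRing k] {d : ℕ} (a : kˣ) (g : GL (Fin d) k) : sc a * g = g * sc a := by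
  apply Units.ext
  rw [Units.val_mul, Units.val_mul, sc_val, smul_mul_assoc, one_mul, mul_smul_comm, mul_one]

lemma sc_one {k : Type} [CommRing k] {d : ℕ} : (sc 1 : GL (Fin d) k) = 1 := map_one _

lemma sc_mul {k : Type} [CommRing k] {d : ℕ} (a b : kˣ) : (sc (a * b) : GL (Fin d) k) = sc a * sc b := map_mul _ _ _

lemma eigen_scale {k F : Type} [Field k] [Field F] [IsAlgClosed F] (ι : k →+* F) {d : ℕ} (a : kˣ) (g : GL (Fin d) k)
    (x : Fin d → Fˣ) (h : IsEigen ι g x) : IsEigen ι (sc a * g) (fun i => Units.map ι.toMonoidHom a * x i) := by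
  have hinf : Infinite F := IsAlgClosed.instInfinite
  unfold IsEigen at h ⊢
  rw [← Matrix.charpoly_map] at h ⊢
  have ha : ι (a : k) ≠ 0 := by rw [Ne, map_eq_zero]; exact a.ne_zero
  have e1 : (((sc a * g : GL (Fin d) k) : Matrix (Fin d) (Fin d) k).map ι) = ι (a : k) • ((g : Matrix (Fin d) (Fin d) k).map ι) := by
    rw [Units.val_mul, sc_val, smul_mul_assoc, one_mul]
    ext i j
    simp
  rw [e1]
  apply Polynomial.funext
  intro c
  have h2 := congrArg (fun P => P.eval ((ι (a : k))⁻¹ * c)) h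
  simp only [Matrix.eval_charpoly, Polynomial.eval_prod, eval_sub, eval_X, eval_C] at h2 ⊢
  have e2 : Matrix.scalar (Fin d) c - ι (a : k) • ((g : Matrix (Fin d) (Fin d) k).map ι) =
      ι (a : k) • (Matrix.scalar (Fin d) ((ι (a : k))⁻¹ * c) - ((g : Matrix (Fin d) (Fin d) k).map ι)) := by
    rw [smul_sub]
    congr 1
    rw [Matrix.scalar_apply, Matrix.scalar_apply, ← Matrix.smul_one_eq_diagonal, ← Matrix.smul_one_eq_diagonal,
      smul_smul, mul_inv_cancel_left₀ ha]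
  rw [e2, Matrix.det_smul, h2, Fintype.card_fin]
  have e3 : ι (a : k) ^ d = ∏ _i : Fin d, ι (a : k) := by rw [Finset.prod_const, Finset.card_univ, Fintype.card_fin]
  rw [e3, ← Finset.prod_mul_distrib]
  refine Finset.prod_congr rfl fun i _ => ?_
  rw [mul_sub, mul_inv_cancel_left₀ ha, Units.val_mul]
  rfl

end Schur

section Br

variable {k F : Type} [Field k] [Field F] [IsAlgClosed F] {n : ℕ} (t : Fˣ →* ℂˣ)
  (D : SerreWeights k F (n + 1) t) (hirr : ∀ w, IrrRep (D.rep w))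

include hirr in
lemma br_central (w : D.W) (z : GL (Fin (n + 1)) k) (hz : ∀ g, z * g = g * z) :
    ∃ c : Fˣ, (D.rep w z : Matrix (Fin (D.dim w)) (Fin (D.dim w)) F) = (c : F) • 1 ∧
      ∀ g, D.br w (z * g) = t c * D.br w g := by
  obtain ⟨c, hc⟩ := irr_scalar (D.rep w) (hirr w) z hz
  refine ⟨c, hc, fun g => ?_⟩
  rw [← br_brc t D.dim D.rep hirr D.br D.br_eq, ← br_brc t D.dim D.rep hirr D.br D.br_eq, ← brc_smul]
  congr 1
  show Matrix.toLin' ((D.rep w (z * g) : GL (Fin (D.dim w)) F) : Matrix (Fin (D.dim w)) (Fin (D.dim w)) F) = _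
  rw [map_mul, Units.val_mul, hc, smul_mul_assoc, one_mul, map_smul]
  rfl

lemma br_one (w : D.W) : D.br w 1 = D.dim w := by
  rw [D.br_eq w 1 (fun _ => 1) (by
    unfold IsEigen
    rw [map_one, Units.val_one, Matrix.charpoly_one, Polynomial.map_id]
    simp)]
  simp

end Br

end Pool.Agent.H498.EQ
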