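import Mathlib

/-!
# Character values and abelian normal subgroups
-/

set_option autoImplicit false

namespace Pool.Agent.H498.EQ

open Module

section Schur

variable {G : Type} [Group G] {V : Type} [AddCommGroup V] [Module ℂ V] [FiniteDimensional ℂ V]
  (ρ : Representation ℂ G V)

omit [FiniteDimensional ℂ V] in
lemma nontriv_of_irr (hirr : ρ.IsIrreducible) : Nontrivial V := by
  by_contra hcon
  rw [not_nontrivial_iff_subsingleton] at hcon
  obtain ⟨a, b, hab⟩ := hirr.toNontrivial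
  apply hab
  apply Subrepresentation.toSubmodule_injective
  ext x
  have : x = 0 := Subsingleton.elim _ _
  rw [this]
  simp

lemma schur (hirr : ρ.IsIrreducible) (T : V →ₗ[ℂ] V) (hT : ∀ g, T ∘ₗ ρ g = ρ g ∘ₗ T) :
    ∃ c : ℂ, T = c • LinearMap.id := by
  have := nontriv_of_irr ρ hirr
  obtain ⟨c, hc⟩ := Module.End.exists_eigenvalue T
  have hE : ∀ g, ∀ w ∈ Module.End.eigenspace T c, ρ g w ∈ Module.End.eigenspace T c := by
    intro g w hw
    rw [Module.End.mem_eigenspace_iff] at hw ⊢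
    have := LinearMap.congr_fun (hT g) w
    rw [LinearMap.comp_apply, LinearMap.comp_apply, hw] at this
    rw [this, map_smul]
  have htop : Module.End.eigenspace T c = ⊤ := by
    have h1 := hirr.eq_bot_or_eq_top (⟨Module.End.eigenspace T c, hE⟩ : Subrepresentation ρ)
    rcases h1 with h1 | h1
    · exact absurd (congrArg Subrepresentation.toSubmodule h1) hc
    · exact congrArg Subrepresentation.toSubmodule h1
  refine ⟨c, ?_⟩
  apply LinearMap.ext
  intro x
  have : x ∈ Module.End.eigenspace T c := by rw [htop]; trivial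
  rw [Module.End.mem_eigenspace_iff] at this
  simpa using this

lemma norm_trace_le (f : V →ₗ[ℂ] V) (m : ℕ) (hm : 0 < m) (hf : f ^ m = 1) :
    ‖LinearMap.trace ℂ V f‖ ≤ finrank ℂ V := by
  have h0 : LinearMap.trace ℂ V f = f.charpoly.roots.sum := by
    rw [LinearMap.trace_eq_matrix_trace ℂ (Module.finBasis ℂ V), Matrix.trace_eq_sum_roots_charpoly,
      LinearMap.charpoly_toMatrix]
  have h1 : ∀ a ∈ f.charpoly.roots, ‖a‖ = 1 := by
    intro a ha
    have h2 : Module.End.HasEigenvalue f a := by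
      rw [Module.End.hasEigenvalue_iff_isRoot_charpoly]
      exact Polynomial.isRoot_of_mem_roots ha
    obtain ⟨v, hv⟩ := h2.exists_hasEigenvector
    have h3 : (f ^ m) v = a ^ m • v := by
      clear hf hm
      induction m with
      | zero => simp
      | succ m ih =>
        rw [pow_succ', Module.End.mul_apply, ih, map_smul, hv.apply_eq_smul, smul_smul, ← pow_succ]
    rw [hf, Module.End.one_apply] at h3
    have h4 : (a ^ m - 1) • v = 0 := by rw [sub_smul, one_smul, ← h3, sub_self]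
    have h5 := (smul_eq_zero.1 h4).resolve_right hv.2
    have h6 : ‖a‖ ^ m = 1 := by rw [← norm_pow, sub_eq_zero.1 h5, norm_one]
    exact (pow_eq_one_iff_of_nonneg (norm_nonneg a) hm.ne').1 h6
  rw [h0]
  have h7 : ∀ m : Multiset ℂ, (∀ a ∈ m, ‖a‖ = 1) → ‖m.sum‖ ≤ m.card := by
    intro m
    induction m using Multiset.induction_on with
    | empty => simp
    | cons a m ih =>
      intro hm
      rw [Multiset.sum_cons, Multiset.card_cons, Nat.cast_succ, add_comm (m.card : ℝ)]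
      refine (norm_add_le _ _).trans (add_le_add (le_of_eq (hm a (Multiset.mem_cons_self a m))) ?_)
      exact ih fun b hb => hm b (Multiset.mem_cons_of_mem hb)
  refine (h7 _ h1).trans ?_
  exact_mod_cast (Polynomial.card_roots' _).trans (le_of_eq (LinearMap.charpoly_natDegree f))

/-- a common eigenvector of commuting operators -/
lemma exists_eigen_char [Nontrivial V] (K : Subgroup G) (hK : ∀ a ∈ K, ∀ b ∈ K, a * b = b * a) :
    ∃ (ψ : K →* ℂˣ) (v : V), v ≠ 0 ∧ ∀ κ : K, ρ (κ : G) v = ((ψ κ : ℂˣ) : ℂ) • v := by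
  classical
  obtain ⟨W, hW, hmin⟩ : ∃ W : Submodule ℂ V, (W ≠ ⊥ ∧ ∀ κ : K, ∀ w ∈ W, ρ (κ : G) w ∈ W) ∧
      ∀ W' : Submodule ℂ V, (W' ≠ ⊥ ∧ ∀ κ : K, ∀ w ∈ W', ρ (κ : G) w ∈ W') → finrank ℂ W ≤ finrank ℂ W' := by
    have hne : {d : ℕ | ∃ W : Submodule ℂ V, (W ≠ ⊥ ∧ ∀ κ : K, ∀ w ∈ W, ρ (κ : G) w ∈ W) ∧ finrank ℂ W = d}.Nonempty :=
      ⟨_, ⊤, ⟨top_ne_bot, fun _ _ _ => trivial⟩, rfl⟩
    obtain ⟨W, hW, hd⟩ := Nat.sInf_mem hne
    exact ⟨W, hW, fun W' hW' => by rw [hd]; exact Nat.sInf_le ⟨W', hW', rfl⟩⟩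
  have hsc : ∀ κ : K, ∃ c : ℂ, ∀ w ∈ W, ρ (κ : G) w = c • w := by
    intro κ
    have hnt : Nontrivial W := (Submodule.nontrivial_iff_ne_bot).2 hW.1
    obtain ⟨c, hc⟩ := Module.End.exists_eigenvalue ((ρ (κ : G)).restrict (hW.2 κ))
    refine ⟨c, ?_⟩
    set W' : Submodule ℂ V := W ⊓ Module.End.eigenspace (ρ (κ : G)) c with hW'
    have h1 : W' ≠ ⊥ := by
      obtain ⟨v, hv⟩ := hc.exists_hasEigenvector
      intro hb
      have h2 : (v : V) ∈ W' := by
        refine ⟨v.2, Module.End.mem_eigenspace_iff.2 ?_⟩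
        have := hv.apply_eq_smul
        exact congrArg Subtype.val this
      rw [hb, Submodule.mem_bot] at h2
      exact hv.2 (Subtype.ext h2)
    have h3 : ∀ κ' : K, ∀ w ∈ W', ρ (κ' : G) w ∈ W' := by
      intro κ' w hw
      have hw2 := Module.End.mem_eigenspace_iff.1 hw.2
      refine ⟨hW.2 κ' w hw.1, Module.End.mem_eigenspace_iff.2 ?_⟩
      rw [← Module.End.mul_apply, ← map_mul, hK _ κ.2 _ κ'.2, map_mul, Module.End.mul_apply, hw2, map_smul]
    have h4 := hmin W' ⟨h1, h3⟩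
    have h5 : W' = W := Submodule.eq_of_le_of_finrank_le inf_le_left h4
    intro w hw
    rw [← h5] at hw
    exact Module.End.mem_eigenspace_iff.1 hw.2
  choose c hc using hsc
  obtain ⟨v, hvW, hv⟩ := (Submodule.ne_bot_iff _).1 hW.1
  refine ⟨MonoidHom.toHomUnits
    { toFun := c
      map_one' := by
        have h1 := hc 1 v hvW
        rw [OneMemClass.coe_one, map_one, Module.End.one_apply] at h1
        have h2 : (c 1 - 1) • v = 0 := by rw [sub_smul, one_smul, ← h1, sub_self]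
        exact sub_eq_zero.1 ((smul_eq_zero.1 h2).resolve_right hv)
      map_mul' := by
        intro a b
        have h1 := hc (a * b) v hvW
        rw [Subgroup.coe_mul, map_mul, Module.End.mul_apply, hc b v hvW, map_smul, hc a v hvW, smul_smul] at h1
        have h2 : (c (a * b) - c a * c b) • v = 0 := by rw [sub_smul, ← h1, mul_comm (c a), sub_self]
        exact sub_eq_zero.1 ((smul_eq_zero.1 h2).resolve_right hv) }, v, hv, fun κ => ?_⟩
  exact hc κ v hvW

variable [Finite G] (K : Subgroup G) [hKn : K.Normal] (hK : ∀ a ∈ K, ∀ b ∈ K, a * b = b * a) (ψ : K →* ℂˣ)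

include hKn in
omit [Finite G] in
lemma comm_mem (y : G) (n : K) : y * n * y⁻¹ * (n : G)⁻¹ ∈ K :=
  K.mul_mem (hKn.conj_mem _ n.2 y) (K.inv_mem n.2)

omit [Finite G] in
include hKn in
/-- the values of the character on the normal subgroup -/
lemma char_on_K (hirr : ρ.IsIrreducible) (v : V) (hv0 : v ≠ 0)
    (hv : ∀ κ : K, ρ (κ : G) v = ((ψ κ : ℂˣ) : ℂ) • v) (κ : K) [Fintype G] :
    LinearMap.trace ℂ V (ρ κ) * Fintype.card G =
      finrank ℂ V * ∑ h : G, ((ψ ⟨h * κ * h⁻¹, hKn.conj_mem _ κ.2 h⟩ : ℂˣ) : ℂ) := by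
  obtain ⟨c, hc⟩ := schur ρ hirr (∑ h : G, ρ (h * κ * h⁻¹)) (by
    intro g
    apply LinearMap.ext
    intro x
    rw [LinearMap.comp_apply, LinearMap.comp_apply, LinearMap.sum_apply, LinearMap.sum_apply, map_sum,
      ← Equiv.sum_comp (Equiv.mulLeft g)]
    refine Finset.sum_congr rfl fun h _ => ?_
    rw [← Module.End.mul_apply, ← Module.End.mul_apply, ← map_mul, ← map_mul]
    congr 2
    show g * h * κ * (g * h)⁻¹ * g = _
    group)
  have h1 := congrArg (LinearMap.trace ℂ V) hc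
  rw [map_sum, map_smul, LinearMap.trace_id, smul_eq_mul] at h1
  have h2 : ∀ h : G, LinearMap.trace ℂ V (ρ (h * κ * h⁻¹)) = LinearMap.trace ℂ V (ρ κ) := by
    intro h
    have h3 : ρ (h * κ * h⁻¹) = ρ h * (ρ κ * ρ h⁻¹) := by rw [← map_mul, ← map_mul, mul_assoc]
    rw [h3, LinearMap.trace_mul_comm, mul_assoc, ← map_mul, inv_mul_cancel, map_one, mul_one]
  simp only [h2, Finset.sum_const, Finset.card_univ, nsmul_eq_mul] at h1
  have h3 : ∑ h : G, ((ψ ⟨h * κ * h⁻¹, hKn.conj_mem _ κ.2 h⟩ : ℂˣ) : ℂ) = c := by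
    have h4 := LinearMap.congr_fun hc v
    rw [LinearMap.sum_apply] at h4
    have h5 : ∀ h : G, ρ (h * κ * h⁻¹) v = ((ψ ⟨h * κ * h⁻¹, hKn.conj_mem _ κ.2 h⟩ : ℂˣ) : ℂ) • v := fun h =>
      hv ⟨h * κ * h⁻¹, hKn.conj_mem _ κ.2 h⟩
    simp only [h5] at h4
    rw [← Finset.sum_smul, LinearMap.smul_apply, LinearMap.id_apply, ← sub_eq_zero, ← sub_smul] at h4
    exact sub_eq_zero.1 ((smul_eq_zero.1 h4).resolve_right hv0)
  rw [h3, mul_comm, h1, mul_comm]

include hK hKn in
/-- **The character ratio is at most the probability that a conjugate of `g` fixes the character `ψ`.** -/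
theorem ratio_le (hirr : ρ.IsIrreducible) (v : V) (hv0 : v ≠ 0)
    (hv : ∀ κ : K, ρ (κ : G) v = ((ψ κ : ℂˣ) : ℂ) • v) (g : G) :
    ‖LinearMap.trace ℂ V (ρ g)‖ * Nat.card G ≤ finrank ℂ V *
      Nat.card {h : G // ∀ n : K, ψ ⟨(h * g * h⁻¹) * n * (h * g * h⁻¹)⁻¹ * (n : G)⁻¹, comm_mem K _ n⟩ = 1} := by
  classical
  cases nonempty_fintype G
  have : Fintype K := Fintype.ofFinite K
  set c : K → G := fun n => g⁻¹ * n * g * (n : G)⁻¹ with hcdef
  have hcK : ∀ n, c n ∈ K := fun n => K.mul_mem (by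
    have := hKn.conj_mem _ n.2 g⁻¹
    rwa [inv_inv] at this) (K.inv_mem n.2)
  have hcm : ∀ a b, c (a * b) = c a * c b := by
    intro a b
    have h1 := hK _ (hcK b) _ (K.inv_mem a.2)
    simp only [hcdef] at h1 ⊢
    rw [Subgroup.coe_mul, _root_.mul_inv_rev]
    calc g⁻¹ * (↑a * ↑b) * g * ((b : G)⁻¹ * (a : G)⁻¹) = g⁻¹ * a * g * (g⁻¹ * b * g * (b : G)⁻¹ * (a : G)⁻¹) := by group
      _ = g⁻¹ * a * g * ((a : G)⁻¹ * (g⁻¹ * b * g * (b : G)⁻¹)) := by rw [h1]
      _ = _ := by group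
  set U : Submodule ℂ V :=
    { carrier := {w | ∀ n, ρ (c n) w = w}
      add_mem' := by
        intro a b ha hb n
        rw [map_add, ha, hb]
      zero_mem' := fun n => map_zero _
      smul_mem' := by
        intro z a ha n
        rw [map_smul, ha] } with hU
  have hUmem : ∀ w, w ∈ U ↔ ∀ n, ρ (c n) w = w := fun w => Iff.rfl
  set P : V →ₗ[ℂ] V := (Fintype.card K : ℂ)⁻¹ • ∑ n : K, ρ (c n) with hP
  have hK0 : (Fintype.card K : ℂ) ≠ 0 := by exact_mod_cast Fintype.card_ne_zero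
  have hPU : ∀ x, P x ∈ U := by
    intro x
    rw [hUmem]
    intro n
    rw [hP, LinearMap.smul_apply, map_smul, LinearMap.sum_apply, map_sum]
    congr 1
    rw [← Equiv.sum_comp (Equiv.mulLeft n) (fun m => ρ (c m) x)]
    refine Finset.sum_congr rfl fun m _ => ?_
    rw [← Module.End.mul_apply, ← map_mul, ← hcm]
    rfl
  have hPid : ∀ x ∈ U, P x = x := by
    intro x hx
    rw [hP, LinearMap.smul_apply, LinearMap.sum_apply]
    rw [Finset.sum_congr rfl fun n _ => (hUmem x).1 hx n, Finset.sum_const, Finset.card_univ, ← Nat.cast_smul_eq_nsmul ℂ,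
      smul_smul, inv_mul_cancel₀ hK0, one_smul]
  have hgU : ∀ x ∈ U, ρ g x ∈ U := by
    intro x hx
    rw [hUmem]
    intro n
    have h1 : c n * g = g * c ⟨g⁻¹ * n * g, by
        have := hKn.conj_mem _ n.2 g⁻¹
        rwa [inv_inv] at this⟩ := by
      simp only [hcdef]
      group
    rw [← Module.End.mul_apply, ← map_mul, h1, map_mul, Module.End.mul_apply, (hUmem x).1 hx]
  -- the trace of `ρ g`
  have h1 : LinearMap.trace ℂ V (ρ g) = LinearMap.trace ℂ U ((ρ g).restrict hgU) := by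
    have h2 : LinearMap.trace ℂ V (ρ g ∘ₗ P) = LinearMap.trace ℂ V (ρ g) := by
      have h2' : ρ g ∘ₗ P = (Fintype.card K : ℂ)⁻¹ • ∑ n : K, ρ g ∘ₗ ρ (c n) := by
        rw [hP, LinearMap.comp_smul]
        congr 1
        apply LinearMap.ext
        intro x
        rw [LinearMap.comp_apply, LinearMap.sum_apply, LinearMap.sum_apply, map_sum]
        rfl
      rw [h2', map_smul, map_sum]
      have h3 : ∀ n : K, LinearMap.trace ℂ V (ρ g ∘ₗ ρ (c n)) = LinearMap.trace ℂ V (ρ g) := by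
        intro n
        have h4 : ρ g ∘ₗ ρ (c n) = ρ n * ρ g * ρ (n : G)⁻¹ := by
          rw [← map_mul, ← map_mul]
          show ρ g * ρ (c n) = _
          rw [← map_mul]
          congr 1
          simp only [hcdef]
          group
        rw [h4, LinearMap.trace_mul_comm, ← mul_assoc, ← map_mul, inv_mul_cancel, map_one, one_mul]
      simp only [h3, Finset.sum_const, Finset.card_univ, nsmul_eq_mul, smul_eq_mul]
      rw [inv_mul_cancel_left₀ hK0]
    rw [← h2]
    have h5 : ∀ x, (ρ g ∘ₗ P) x ∈ U := fun x => hgU _ (hPU x)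
    rw [← LinearMap.trace_restrict_eq_of_forall_mem U (ρ g ∘ₗ P) h5]
    congr 1
    apply LinearMap.ext
    intro x
    apply Subtype.ext
    show ρ g (P x) = ρ g x
    rw [hPid x x.2]
  have h2 : ‖LinearMap.trace ℂ V (ρ g)‖ ≤ finrank ℂ U := by
    rw [h1]
    refine norm_trace_le _ (orderOf g) (orderOf_pos g) ?_
    apply LinearMap.ext
    intro x
    apply Subtype.ext
    have h3 : ∀ m : ℕ, (((((ρ g).restrict hgU) ^ m) x : U) : V) = ρ (g ^ m) x := by
      intro m
      induction m with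
      | zero => rw [pow_zero, pow_zero, map_one]; rfl
      | succ m ih =>
        rw [pow_succ', Module.End.mul_apply, LinearMap.coe_restrict_apply, ih, pow_succ', map_mul, Module.End.mul_apply]
    rw [h3, pow_orderOf_eq_one, map_one]
    rfl
  -- the dimension of `U`
  have h3 : (finrank ℂ U : ℂ) = (Fintype.card K : ℂ)⁻¹ * ∑ n : K, LinearMap.trace ℂ V (ρ (c n)) := by
    have h4 : LinearMap.trace ℂ V P = finrank ℂ U := by
      rw [← LinearMap.trace_restrict_eq_of_forall_mem U P hPU, ← LinearMap.trace_id]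
      congr 1
      apply LinearMap.ext
      intro x
      apply Subtype.ext
      exact hPid x x.2
    rw [← h4, hP, map_smul, map_sum, smul_eq_mul]
  have h4 : (finrank ℂ U : ℂ) * Fintype.card G = (Fintype.card K : ℂ)⁻¹ * (finrank ℂ V *
      ∑ h : G, ∑ n : K, ((ψ ⟨h * c n * h⁻¹, hKn.conj_mem _ (hcK n) h⟩ : ℂˣ) : ℂ)) := by
    rw [h3, mul_assoc, Finset.sum_mul]
    congr 1
    rw [Finset.sum_comm, Finset.mul_sum]
    exact Finset.sum_congr rfl fun n _ => char_on_K (K := K) (ψ := ψ) ρ hirr v hv0 hv ⟨c n, hcK n⟩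
  have h5 : ∀ h : G, ∑ n : K, ((ψ ⟨h * c n * h⁻¹, hKn.conj_mem _ (hcK n) h⟩ : ℂˣ) : ℂ) =
      if (∀ n : K, ψ ⟨(h * g * h⁻¹) * n * (h * g * h⁻¹)⁻¹ * (n : G)⁻¹, comm_mem K _ n⟩ = 1) then
        (Fintype.card K : ℂ) else 0 := by
    intro h
    set f : K →* ℂˣ :=
      { toFun := fun n => ψ ⟨h * c n * h⁻¹, hKn.conj_mem _ (hcK n) h⟩
        map_one' := by
          rw [← map_one ψ]
          congr 1
          apply Subtype.ext
          show h * (g⁻¹ * ((1 : K) : G) * g * ((1 : K) : G)⁻¹) * h⁻¹ = 1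
          simp
        map_mul' := by
          intro a b
          rw [← map_mul]
          congr 1
          apply Subtype.ext
          show h * c (a * b) * h⁻¹ = h * c a * h⁻¹ * (h * c b * h⁻¹)
          rw [hcm]
          group } with hf
    have h6 := sum_hom_units ((Units.coeHom ℂ).comp f)
    have h7 : ((Units.coeHom ℂ).comp f = 1) ↔
        (∀ n : K, ψ ⟨(h * g * h⁻¹) * n * (h * g * h⁻¹)⁻¹ * (n : G)⁻¹, comm_mem K _ n⟩ = 1) := by
      have h8 : ∀ n : K, (((Units.coeHom ℂ).comp f) n = 1) ↔ f n = 1 := by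
        intro n
        rw [MonoidHom.comp_apply, Units.coeHom_apply, Units.val_eq_one]
      have h10 : ∀ n : K, f n = (ψ ⟨(h * g * h⁻¹) * (h * g⁻¹ * n * g * h⁻¹) * (h * g * h⁻¹)⁻¹ * (h * g⁻¹ * n * g * h⁻¹)⁻¹,
          comm_mem K _ ⟨h * g⁻¹ * n * g * h⁻¹, by
            have := hKn.conj_mem _ n.2 (h * g⁻¹)
            have e : h * g⁻¹ * n * g * h⁻¹ = h * g⁻¹ * n * (h * g⁻¹)⁻¹ := by group
            rw [e]
            exact this⟩⟩)⁻¹ := by
        intro n
        rw [← map_inv]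
        show ψ _ = ψ _
        congr 1
        apply Subtype.ext
        rw [Subgroup.coe_inv]
        show h * (g⁻¹ * n * g * (n : G)⁻¹) * h⁻¹ = _
        group
      constructor
      · intro h9 m
        have hm' : g * h⁻¹ * m * h * g⁻¹ ∈ K := by
          have := hKn.conj_mem _ m.2 (g * h⁻¹)
          have e : g * h⁻¹ * m * h * g⁻¹ = g * h⁻¹ * m * (g * h⁻¹)⁻¹ := by group
          rw [e]
          exact this
        have h11 := h10 ⟨_, hm'⟩
        have h12 : f ⟨_, hm'⟩ = 1 := by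
          rw [← h8, h9, MonoidHom.one_apply]
        rw [h12, eq_comm, inv_eq_one] at h11
        have h13 : h * g⁻¹ * (g * h⁻¹ * m * h * g⁻¹) * g * h⁻¹ = m := by group
        rw [← h11]
        congr 1
        apply Subtype.ext
        show _ = (h * g * h⁻¹) * (h * g⁻¹ * (g * h⁻¹ * m * h * g⁻¹) * g * h⁻¹) * (h * g * h⁻¹)⁻¹ *
          (h * g⁻¹ * (g * h⁻¹ * m * h * g⁻¹) * g * h⁻¹)⁻¹
        rw [h13]
      · intro h9
        apply MonoidHom.ext
        intro n
        rw [MonoidHom.one_apply, h8, h10, inv_eq_one]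
        exact h9 ⟨h * g⁻¹ * n * g * h⁻¹, by
            have := hKn.conj_mem _ n.2 (h * g⁻¹)
            have e : h * g⁻¹ * n * g * h⁻¹ = h * g⁻¹ * n * (h * g⁻¹)⁻¹ := by group
            rw [e]
            exact this⟩
    have h14 : ∑ n : K, ((ψ ⟨h * c n * h⁻¹, hKn.conj_mem _ (hcK n) h⟩ : ℂˣ) : ℂ) =
        ∑ n : K, ((Units.coeHom ℂ).comp f) n := rfl
    rw [h14, h6]
    simp only [h7]
    split_ifs <;> simp
  simp only [h5] at h4
  rw [← Finset.sum_filter, Finset.sum_const, nsmul_eq_mul] at h4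
  have h6 : (finrank ℂ U : ℂ) * Fintype.card G = finrank ℂ V *
      (Finset.univ.filter fun h : G => ∀ n : K, ψ ⟨(h * g * h⁻¹) * n * (h * g * h⁻¹)⁻¹ * (n : G)⁻¹, comm_mem K _ n⟩ = 1).card := by
    rw [h4]
    field_simp
  have h7 : (finrank ℂ U : ℝ) * Fintype.card G = finrank ℂ V *
      (Finset.univ.filter fun h : G => ∀ n : K, ψ ⟨(h * g * h⁻¹) * n * (h * g * h⁻¹)⁻¹ * (n : G)⁻¹, comm_mem K _ n⟩ = 1).card := by
    exact_mod_cast h6
  rw [Nat.card_eq_fintype_card, Nat.card_eq_fintype_card, Fintype.card_subtype, ← h7]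
  exact mul_le_mul_of_nonneg_right h2 (Nat.cast_nonneg _)

end Schur

end Pool.Agent.H498.EQ
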