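import Pool.Agent.H498.EQ.Smo2
import Pool.Agent.H498.EQ.Cen

/-!
# The Brauer characters of the reductions of the smooth representations of `GL_d(O)`
-/

set_option autoImplicit false

namespace Pool.Agent.H498.EQ

open Matrix Module Pool.Agent.H498.BT

section Lift

variable {O k : Type} [CommRing O] [IsDomain O] [IsDiscreteValuationRing O] [Field k] [Finite k] {ϖ : O}
  (hϖ : Irreducible ϖ) (π₀ : O →+* k) (hπ₀ : Function.Surjective π₀) {d : ℕ}

include hϖ hπ₀ in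
lemma lift_preg (p : ℕ) [hp : Fact p.Prime] (g : GL (Fin d) k) (hg : ¬ p ∣ orderOf g) {N : ℕ} (hN : N ≠ 0) :
    ∃ (u : GL (Fin d) O) (m : ℕ), ¬ p ∣ m ∧ Cg ϖ N (u ^ m) ∧ GeneralLinearGroup.map π₀ u = g := by
  have := finite_quot' hϖ π₀ hπ₀ N
  obtain ⟨v, hv1, hv2⟩ := preg_lift (p := p) (nilSurj' hϖ π₀ hπ₀ hN) g hg
  obtain ⟨u, hu⟩ := gl_surj hϖ π₀ hπ₀ (d := d) hN v
  refine ⟨u, orderOf v, hv1, ?_, ?_⟩
  · rw [cg_iff, map_pow, hu, pow_orderOf_eq_one]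
  · rw [← hv2, ← hu]
    rfl

include hϖ hπ₀ in
lemma lift_unit (p : ℕ) [hp : Fact p.Prime] [CharP k p] (a : kˣ) {N : ℕ} (hN : N ≠ 0) :
    ∃ (u : Oˣ) (m : ℕ), ¬ p ∣ m ∧ Cg ϖ N ((sc u : GL (Fin d) O) ^ m) ∧
      GeneralLinearGroup.map π₀ (sc u : GL (Fin d) O) = sc a := by
  classical
  have := Fintype.ofFinite k
  have := finite_quot' hϖ π₀ hπ₀ N
  obtain ⟨x, hx⟩ := hπ₀ a
  obtain ⟨u0, hu0⟩ : IsUnit x := by
    by_contra h4
    have h5 : x ∈ IsLocalRing.maximalIdeal O := (IsLocalRing.mem_maximalIdeal _).2 h4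
    rw [hϖ.maximalIdeal_eq, Ideal.mem_span_singleton, ← ker_pi0 hϖ π₀ hπ₀, hx] at h5
    exact a.ne_zero h5
  set v : (O ⧸ Ideal.span {ϖ ^ N})ˣ := Units.map (Ideal.Quotient.mk (Ideal.span {ϖ ^ N})).toMonoidHom u0 with hv
  have hfv : Units.map (pr hϖ π₀ hπ₀ hN).toMonoidHom v = a := by
    apply Units.ext
    show π₀ (u0 : O) = a
    rw [hu0, hx]
  have hord : ¬ p ∣ orderOf a := by
    intro h
    have h1 : p ∣ Nat.card kˣ := h.trans (orderOf_dvd_natCard a)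
    have h2 : p ∣ Fintype.card k := by
      rw [← CharP.cast_eq_zero_iff k p]
      exact Nat.cast_card_eq_zero k
    rw [Nat.card_eq_fintype_card, Fintype.card_units] at h1
    have h3 : 0 < Fintype.card k := Fintype.card_pos
    have h4 : p ∣ 1 := by
      have h5 := Nat.dvd_sub h2 h1
      rwa [show Fintype.card k - (Fintype.card k - 1) = 1 by omega] at h5
    exact hp.out.one_lt.ne' (Nat.dvd_one.1 h4)
  obtain ⟨M, hM1, hM2⟩ := preg_pow (Units.map (pr hϖ π₀ hπ₀ hN).toMonoidHom) p hp.out v (by rw [hfv]; exact hord)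
  refine ⟨u0 ^ M, orderOf (v ^ M), hM2, ?_, ?_⟩
  · rw [cg_iff, map_pow]
    have e1 : GeneralLinearGroup.map (Ideal.Quotient.mk (Ideal.span {ϖ ^ N})) (sc (u0 ^ M) : GL (Fin d) O) = sc (v ^ M) := by
      apply Units.ext
      show ((sc (u0 ^ M) : GL (Fin d) O) : Matrix (Fin d) (Fin d) O).map (Ideal.Quotient.mk (Ideal.span {ϖ ^ N})) = _
      rw [sc_val, sc_val, hv, ← map_pow]
      ext i j
      rw [Matrix.map_apply, Matrix.smul_apply, Matrix.smul_apply, smul_eq_mul, smul_eq_mul, map_mul,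
        Matrix.one_apply, Matrix.one_apply]
      split_ifs <;> simp
    rw [e1]
    have e2 : (sc (v ^ M) : GL (Fin d) (O ⧸ Ideal.span {ϖ ^ N})) ^ orderOf (v ^ M) =
        sc ((v ^ M) ^ orderOf (v ^ M)) := (map_pow (Units.map (Matrix.scalar (Fin d)).toMonoidHom) (v ^ M) _).symm
    rw [e2, pow_orderOf_eq_one, sc_one]
  · apply Units.ext
    show ((sc (u0 ^ M) : GL (Fin d) O) : Matrix (Fin d) (Fin d) O).map π₀ = _
    rw [sc_val, sc_val]
    have e3 : π₀ ((u0 ^ M : Oˣ) : O) = (a : k) := by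
      have := congrArg (fun z : kˣ => (z : k)) (hM1.trans hfv)
      exact this
    rw [← e3]
    ext i j
    rw [Matrix.map_apply, Matrix.smul_apply, Matrix.smul_apply, smul_eq_mul, smul_eq_mul, map_mul,
      Matrix.one_apply, Matrix.one_apply]
    split_ifs <;> simp

end Lift

section Theta

variable {O k : Type} [CommRing O] [IsDomain O] [IsDiscreteValuationRing O] [Field k] [Finite k] {ϖ : O}
  (hϖ : Irreducible ϖ) (π₀ : O →+* k) (hπ₀ : Function.Surjective π₀) {d : ℕ}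
  {V : Type} [AddCommGroup V] [Module ℂ V] [FiniteDimensional ℂ V] (ρ : Representation ℂ (GL (Fin d) O) V)
  (hirr : ρ.IsIrreducible) (hsm : Smooth ϖ ρ) (p : ℕ) [hp : Fact p.Prime] [CharP k p]
  (θ : GL (Fin d) k → ℂ) (hθ : IsRed ϖ π₀ p θ ρ)

include hsm in
omit [Finite k] [Field k] [IsDomain O] [IsDiscreteValuationRing O] [FiniteDimensional ℂ V] hp in
lemma smooth_pos : ∃ N : ℕ, 0 < N ∧ ∀ g, Cg ϖ N g → ρ g = LinearMap.id := by
  obtain ⟨N, hN⟩ := hsm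
  exact ⟨N + 1, Nat.succ_pos _, fun g hg => hN g (Cg_mono (Nat.le_succ N) hg)⟩

include hϖ hπ₀ hirr hsm hθ in
lemma theta_ratio (r : ℕ) (hr : ∀ r' < r, ¬ HasLevel ϖ r' ρ) (g : GL (Fin d) k) (hg : ¬ p ∣ orderOf g)
    (hgs : ¬ ∃ c : k, (g : Matrix (Fin d) (Fin d) k) = c • 1) :
    ‖θ g‖ * (Nat.card k : ℝ) ^ (r / 4) ≤ finrank ℂ V := by
  obtain ⟨N, hN0, hN⟩ := smooth_pos ρ hsm
  obtain ⟨u, m, hm, hum, hu⟩ := lift_preg hϖ π₀ hπ₀ p g hg hN0.ne'
  rw [← hu, hθ N m u hN0 hN hm hum]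
  apply ratio_smooth hϖ π₀ hπ₀ ρ hirr p r hr N m u hN0 hN hm hum
  rw [hu]
  exact hgs

include hϖ hπ₀ hirr hsm hθ in
lemma theta_le (g : GL (Fin d) k) (hg : ¬ p ∣ orderOf g) : ‖θ g‖ ≤ finrank ℂ V := by
  obtain ⟨N, hN0, hN⟩ := smooth_pos ρ hsm
  obtain ⟨u, m, hm, hum, hu⟩ := lift_preg hϖ π₀ hπ₀ p g hg hN0.ne'
  have hm0 : 0 < m := Nat.pos_of_ne_zero (by rintro rfl; exact hm (dvd_zero p))
  rw [← hu, hθ N m u hN0 hN hm hum]
  apply norm_trace_le _ m hm0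
  rw [← map_pow]
  exact hN _ hum

include hsm hθ in
omit [IsDomain O] [IsDiscreteValuationRing O] [Finite k] in
lemma theta_one : θ 1 = finrank ℂ V := by
  obtain ⟨N, hN0, hN⟩ := smooth_pos ρ hsm
  have h1 := hθ N 1 1 hN0 hN (by
    intro h
    exact hp.out.one_lt.ne' (Nat.dvd_one.1 h)) ⟨0, by simp⟩
  rw [map_one, map_one] at h1
  rw [h1]
  exact LinearMap.trace_one ℂ V

include hϖ hπ₀ hirr hsm hθ in
lemma theta_scale (a : kˣ) : ∃ c : ℂ, ‖c‖ = 1 ∧ ∀ g : GL (Fin d) k, ¬ p ∣ orderOf g → θ (sc a * g) = c * θ g := by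
  have hV := nontriv_of_irr ρ hirr
  obtain ⟨N, hN0, hN⟩ := smooth_pos ρ hsm
  obtain ⟨u, m, hm, hum, hu⟩ := lift_unit (d := d) hϖ π₀ hπ₀ p a hN0.ne'
  have hm0 : 0 < m := Nat.pos_of_ne_zero (by rintro rfl; exact hm (dvd_zero p))
  obtain ⟨c, hc⟩ := schur ρ hirr (ρ (sc u)) (fun g => by
    have h1 : ρ (sc u) * ρ g = ρ g * ρ (sc u) := by rw [← map_mul, ← map_mul, sc_comm]
    exact h1)
  refine ⟨c, ?_, ?_⟩
  · have h1 := hN _ hum
    rw [map_pow, hc] at h1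
    have e1 : (LinearMap.id : V →ₗ[ℂ] V) = 1 := rfl
    rw [e1, smul_pow, one_pow] at h1
    obtain ⟨v, hv⟩ := exists_ne (0 : V)
    have h2 := LinearMap.congr_fun h1 v
    rw [LinearMap.smul_apply, Module.End.one_apply] at h2
    have h3 : c ^ m = 1 := by
      have h4 : (c ^ m - 1) • v = 0 := by
        rw [sub_smul, h2, one_smul, sub_self]
      rcases smul_eq_zero.1 h4 with h5 | h5
      · exact sub_eq_zero.1 h5
      · exact absurd h5 hv
    have h7 : ‖c‖ ^ m = 1 := by rw [← norm_pow, h3, norm_one]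
    exact (pow_eq_one_iff_of_nonneg (norm_nonneg _) hm0.ne').1 h7
  · intro g hg
    obtain ⟨y, m', hm', hym, hy⟩ := lift_preg hϖ π₀ hπ₀ p g hg hN0.ne'
    have h1 := hθ N m' y hN0 hN hm' hym
    have hmul : ¬ p ∣ m * m' := fun h => (hp.out.dvd_mul.1 h).elim hm hm'
    have hcg : Cg ϖ N ((sc u * y) ^ (m * m')) := by
      rw [cg_iff] at hum hym ⊢
      rw [(show Commute (sc u) y from sc_comm u y).mul_pow, map_mul, pow_mul, map_pow, hum, one_pow, one_mul, mul_comm m, pow_mul,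
        map_pow, hym, one_pow]
    have h2 := hθ N (m * m') (sc u * y) hN0 hN hmul hcg
    rw [map_mul, hu, hy] at h2
    rw [hy] at h1
    rw [h2, h1, map_mul, hc]
    have e1 : (LinearMap.id : V →ₗ[ℂ] V) = 1 := rfl
    rw [e1, smul_mul_assoc, one_mul, map_smul, smul_eq_mul]

end Theta

end Pool.Agent.H498.EQ
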