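import Pool.Agent.H498.EQ.Eig
import Pool.Agent.H498.EQ.Thet

/-!
# Multiplicities of Serre weights and central characters
-/

set_option autoImplicit false

namespace Pool.Agent.H498.EQ

open Matrix Module Pool.Agent.N28.BM Pool.Agent.H498.BT

section Core

variable {k F : Type} [Field k] [Finite k] [Field F] [IsAlgClosed F] {p : ℕ} [hp : Fact p.Prime] [CharP F p]
  [CharP k p] {n : ℕ} (t : Fˣ →* ℂˣ) (D : SerreWeights k F (n + 1) t)

/-- The scalar matrices act by the same character on the weight `w` and on the representation with the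
multiplicities `m`, in terms of Brauer characters. -/
def SameChar (m : D.W → ℕ) (w : D.W) : Prop :=
  ∀ a : kˣ, D.br w (sc a) * ∑ w', (m w' : ℂ) * D.br w' 1 = D.br w 1 * ∑ w', (m w' : ℂ) * D.br w' (sc a)

lemma dual_bound (hBr : LinearIndependent ℂ
    (fun (w : D.W) (g : {g : GL (Fin (n + 1)) k // ¬ p ∣ orderOf g}) => D.br w g)) :
    ∃ C0 : ℝ, 0 < C0 ∧ ∀ (E : D.W → ℂ) (B : ℝ), (∀ g : GL (Fin (n + 1)) k, ¬ p ∣ orderOf g →
      ‖∑ w, E w * D.br w g‖ ≤ B) → ∀ w, ‖E w‖ ≤ C0 * B := by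
  classical
  obtain ⟨x, hx⟩ := exists_points _ hBr
  set M : Matrix D.W D.W ℂ := Matrix.of fun w w' => D.br w (x w') with hM
  refine ⟨1 + ∑ w', ∑ w, ‖M⁻¹ w' w‖, by positivity, ?_⟩
  intro E B hE w
  have hunit : IsUnit M.det := isUnit_iff_ne_zero.2 hx
  obtain ⟨v, hv⟩ : ∃ v, v = E ᵥ* M := ⟨_, rfl⟩
  have h1 : E = v ᵥ* M⁻¹ := by
    rw [hv, Matrix.vecMul_vecMul, Matrix.mul_nonsing_inv _ hunit, Matrix.vecMul_one]
  have h2 : ∀ w', ‖v w'‖ ≤ B := by
    intro w'
    rw [hv]
    exact hE (x w') (x w').2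
  have hB : 0 ≤ B := le_trans (norm_nonneg _) (h2 w)
  have h3 : E w = ∑ w', v w' * M⁻¹ w' w := by
    conv_lhs => rw [h1]
    rfl
  rw [h3]
  refine (norm_sum_le _ _).trans ?_
  calc ∑ w', ‖v w' * M⁻¹ w' w‖ ≤ ∑ w', B * ‖M⁻¹ w' w‖ := by
        refine Finset.sum_le_sum fun w' _ => ?_
        rw [norm_mul]
        exact mul_le_mul_of_nonneg_right (h2 w') (norm_nonneg _)
    _ = (∑ w', ‖M⁻¹ w' w‖) * B := by rw [← Finset.mul_sum, mul_comm]
    _ ≤ (1 + ∑ w', ∑ w, ‖M⁻¹ w' w‖) * B := by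
        apply mul_le_mul_of_nonneg_right _ hB
        have h4 : ∑ w', ‖M⁻¹ w' w‖ ≤ ∑ w', ∑ w, ‖M⁻¹ w' w‖ := by
          refine Finset.sum_le_sum fun w' _ => ?_
          exact Finset.single_le_sum (f := fun w => ‖M⁻¹ w' w‖) (fun _ _ => norm_nonneg _) (Finset.mem_univ w)
        linarith

lemma sc_inj {a b : kˣ} (h : (sc a : GL (Fin (n + 1)) k) = sc b) : a = b := by
  have h1 := congrArg (fun Q : GL (Fin (n + 1)) k => Q.val 0 0) h
  simp only [sc_val, Matrix.smul_apply, Matrix.one_apply_eq, smul_eq_mul, mul_one] at h1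
  exact Units.ext h1

lemma sc_pow (a : kˣ) (N : ℕ) : (sc a : GL (Fin (n + 1)) k) ^ N = sc (a ^ N) := by
  induction N with
  | zero => rw [pow_zero, pow_zero, sc_one]
  | succ N ih => rw [pow_succ, pow_succ, sc_mul, ih]

lemma sc_reg (a : kˣ) : ¬ p ∣ orderOf (sc a : GL (Fin (n + 1)) k) := by
  classical
  have := Fintype.ofFinite k
  intro h0
  have h : p ∣ orderOf a := by
    refine h0.trans (orderOf_dvd_of_pow_eq_one ?_)
    rw [sc_pow, pow_orderOf_eq_one, sc_one]
  have h1 : p ∣ Nat.card kˣ := h.trans (orderOf_dvd_natCard a)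
  have h2 : p ∣ Fintype.card k := by
    rw [← CharP.cast_eq_zero_iff k p]
    exact Nat.cast_card_eq_zero k
  rw [Nat.card_eq_fintype_card, Fintype.card_units] at h1
  have h3 : 0 < Fintype.card k := Fintype.card_pos
  have h4 : p ∣ 1 := by
    have h5 := Nat.dvd_sub h2 h1
    rwa [show Fintype.card k - (Fintype.card k - 1) = 1 by omega] at h5
  exact hp.out.one_lt.ne' (Nat.dvd_one.1 h4)

lemma sc_mul_reg (a : kˣ) (g : GL (Fin (n + 1)) k) (hg : ¬ p ∣ orderOf g) : ¬ p ∣ orderOf (sc a * g) := by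
  intro h
  have h1 := h.trans ((show Commute (sc a) g from sc_comm a g).orderOf_mul_dvd_mul_orderOf)
  exact (hp.out.dvd_mul.1 h1).elim (sc_reg a) hg

variable (hirr : ∀ w, IrrRep (D.rep w))
  (hBr : LinearIndependent ℂ (fun (w : D.W) (g : {g : GL (Fin (n + 1)) k // ¬ p ∣ orderOf g}) => D.br w g))

include hirr in
omit [Finite k] [CharP F p] [CharP k p] hp in
lemma exists_omega (w : D.W) : ∃ om : kˣ →* ℂˣ, ∀ (a : kˣ) (g : GL (Fin (n + 1)) k),
    D.br w (sc a * g) = ((om a : ℂˣ) : ℂ) * D.br w g := by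
  choose c hc1 hc2 using fun a : kˣ => br_central t D hirr w (sc a) (sc_comm a)
  have h0 : D.br w 1 ≠ 0 := by
    rw [br_one]
    exact_mod_cast (hirr w).1.ne'
  refine ⟨{ toFun := fun a => t (c a), map_one' := ?_, map_mul' := ?_ }, fun a g => hc2 a g⟩
  · have h1 := hc2 1 1
    rw [sc_one, mul_one] at h1
    apply Units.ext
    rw [Units.val_one]
    exact mul_right_cancel₀ h0 (by rw [← h1, one_mul])
  · intro a b
    apply Units.ext
    apply mul_right_cancel₀ h0
    rw [← hc2, sc_mul, mul_assoc, hc2, hc2, Units.val_mul, mul_assoc]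

variable (r : D.W → ℕ) (hr : ∀ g : GL (Fin (n + 1)) k, ¬ p ∣ orderOf g → ∑ w, (r w : ℂ) * D.br w g =
    open scoped Classical in if g = 1 then (Nat.card (GL (Fin (n + 1)) k) : ℂ) else 0)
  (m : D.W → ℕ) (hsc : ∀ a : kˣ, ∃ c : ℂ, ∀ g : GL (Fin (n + 1)) k, ¬ p ∣ orderOf g →
    ∑ w, (m w : ℂ) * D.br w (sc a * g) = c * ∑ w, (m w : ℂ) * D.br w g)
  (h1 : ∑ w, (m w : ℂ) * D.br w 1 ≠ 0)

include hsc h1 in
omit [CharP F p] [IsAlgClosed F] in
lemma exists_omega_f : ∃ om : kˣ →* ℂˣ, ∀ (a : kˣ) (g : GL (Fin (n + 1)) k), ¬ p ∣ orderOf g →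
    ∑ w, (m w : ℂ) * D.br w (sc a * g) = ((om a : ℂˣ) : ℂ) * ∑ w, (m w : ℂ) * D.br w g := by
  choose c hc using hsc
  have hreg1 : ¬ p ∣ orderOf (1 : GL (Fin (n + 1)) k) := by
    rw [orderOf_one]
    intro h
    exact hp.out.one_lt.ne' (Nat.dvd_one.1 h)
  let c' : kˣ →* ℂ :=
    { toFun := c
      map_one' := by
        have h2 := hc 1 1 hreg1
        rw [sc_one, mul_one] at h2
        exact mul_right_cancel₀ h1 (by rw [← h2, one_mul])
      map_mul' := by
        intro a b
        apply mul_right_cancel₀ h1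
        rw [← hc _ _ hreg1, sc_mul, mul_assoc, hc a _ (sc_mul_reg b 1 hreg1), hc b _ hreg1, mul_assoc] }
  exact ⟨c'.toHomUnits, fun a g hg => hc a g hg⟩

include hirr hBr hr hsc h1 in
omit [IsAlgClosed F] [CharP F p] in
/-- **the multiplicities of the weights, up to the contribution of the non-scalar elements** -/
theorem core' [IsAlgClosed F] [Fintype k] [DecidablePred (SameChar t D m)] :
    (∀ w, ¬ SameChar t D m w → m w = 0) ∧
    ∀ g : GL (Fin (n + 1)) k, ¬ p ∣ orderOf g →
      ∑ w, ((m w : ℂ) - if SameChar t D m w then ((Fintype.card k : ℂ) - 1) * r w *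
        (∑ w', (m w' : ℂ) * D.br w' 1) / Nat.card (GL (Fin (n + 1)) k) else 0) * D.br w g =
      open scoped Classical in if (∃ c : k, (g : Matrix (Fin (n + 1)) (Fin (n + 1)) k) = c • 1) then 0 else
        ∑ w, (m w : ℂ) * D.br w g := by
  classical
  obtain ⟨of, hof⟩ := exists_omega_f t D m hsc h1
  choose om hom using exists_omega t D hirr
  have hreg1 : ¬ p ∣ orderOf (1 : GL (Fin (n + 1)) k) := by
    rw [orderOf_one]
    intro h
    exact hp.out.one_lt.ne' (Nat.dvd_one.1 h)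
  have hbr1 : ∀ w, D.br w 1 ≠ 0 := by
    intro w
    rw [br_one]
    exact_mod_cast (hirr w).1.ne'
  have hsame : ∀ w, SameChar t D m w ↔ of = om w := by
    intro w
    constructor
    · intro h
      ext a
      have h2 := h a
      have h3 := hom w a 1
      have h4 := hof a 1 hreg1
      simp only [mul_one] at h3 h4
      rw [h3, h4] at h2
      have h5 : D.br w 1 * ∑ w', (m w' : ℂ) * D.br w' 1 ≠ 0 := mul_ne_zero (hbr1 w) h1
      apply mul_right_cancel₀ h5
      linear_combination -h2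
    · intro h a
      have h3 := hom w a 1
      have h4 := hof a 1 hreg1
      simp only [mul_one] at h3 h4
      rw [h3, h4, h]
      ring
  refine ⟨?_, ?_⟩
  · intro w hw
    rw [hsame] at hw
    obtain ⟨a, ha⟩ : ∃ a, of a ≠ om w a := by
      by_contra hcon
      push Not at hcon
      exact hw (MonoidHom.ext hcon)
    have h2 := (Fintype.linearIndependent_iff.1 hBr) (fun w' => (m w' : ℂ) * (((om w' a : ℂˣ) : ℂ) - ((of a : ℂˣ) : ℂ))) (by
      funext g
      rw [Finset.sum_apply, Pi.zero_apply]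
      have h3 := hof a g.1 g.2
      simp only [hom] at h3
      rw [← sub_eq_zero, Finset.mul_sum, ← Finset.sum_sub_distrib] at h3
      rw [← h3]
      refine Finset.sum_congr rfl fun w' _ => ?_
      rw [Pi.smul_apply, smul_eq_mul]
      ring) w
    rcases mul_eq_zero.1 h2 with h3 | h3
    · exact_mod_cast h3
    · exact absurd (Units.ext (sub_eq_zero.1 h3)).symm ha
  · intro g hg
    have hG : (Nat.card (GL (Fin (n + 1)) k) : ℂ) ≠ 0 := by exact_mod_cast Nat.card_pos.ne'
    -- the main term as a sum over the scalars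
    have hmain : ∀ w, (if SameChar t D m w then ((Fintype.card k : ℂ) - 1) * r w *
        (∑ w', (m w' : ℂ) * D.br w' 1) / Nat.card (GL (Fin (n + 1)) k) else 0) =
        (r w : ℂ) * (∑ w', (m w' : ℂ) * D.br w' 1) / Nat.card (GL (Fin (n + 1)) k) *
          ∑ a : kˣ, ((of a : ℂˣ) : ℂ) * ((om w a⁻¹ : ℂˣ) : ℂ) := by
      intro w
      have h2 := sum_hom_units ((Units.coeHom ℂ).comp (of * (om w)⁻¹))
      have h3 : ∀ a : kˣ, ((Units.coeHom ℂ).comp (of * (om w)⁻¹)) a = ((of a : ℂˣ) : ℂ) * ((om w a⁻¹ : ℂˣ) : ℂ) := by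
        intro a
        rw [MonoidHom.comp_apply, MonoidHom.mul_apply, MonoidHom.inv_apply, Units.coeHom_apply, Units.val_mul, map_inv]
      rw [Finset.sum_congr rfl (fun a _ => (h3 a).symm), h2]
      have h4 : ((Units.coeHom ℂ).comp (of * (om w)⁻¹) = 1) ↔ SameChar t D m w := by
        rw [hsame]
        constructor
        · intro h
          ext a
          have h5 := DFunLike.congr_fun h a
          rw [h3, MonoidHom.one_apply, map_inv] at h5
          rw [← mul_one (((om w a : ℂˣ) : ℂ)), ← h5]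
          rw [mul_left_comm, Units.mul_inv, mul_one]
        · intro h
          ext a
          rw [h3, h, map_inv, Units.mul_inv, MonoidHom.one_apply]
      have h6 : (Fintype.card kˣ : ℂ) = (Fintype.card k : ℂ) - 1 := by
        rw [Fintype.card_units, Nat.cast_sub Fintype.card_pos, Nat.cast_one]
      by_cases hS : SameChar t D m w
      · rw [if_pos hS, if_pos (h4.2 hS), h6]
        ring
      · rw [if_neg hS, if_neg (fun h => hS (h4.1 h)), Nat.cast_zero, mul_zero]
    have hsum : ∑ w, (r w : ℂ) * (∑ w', (m w' : ℂ) * D.br w' 1) / Nat.card (GL (Fin (n + 1)) k) *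
          (∑ a : kˣ, ((of a : ℂˣ) : ℂ) * ((om w a⁻¹ : ℂˣ) : ℂ)) * D.br w g =
        ∑ a : kˣ, (∑ w', (m w' : ℂ) * D.br w' (sc a)) * (if sc a⁻¹ * g = 1 then 1 else 0) := by
      have e1 : ∀ a : kˣ, (∑ w', (m w' : ℂ) * D.br w' (sc a)) * (if sc a⁻¹ * g = 1 then (1 : ℂ) else 0) =
          ∑ w, (r w : ℂ) * (∑ w', (m w' : ℂ) * D.br w' 1) / Nat.card (GL (Fin (n + 1)) k) *
            (((of a : ℂˣ) : ℂ) * ((om w a⁻¹ : ℂˣ) : ℂ)) * D.br w g := by
        intro a
        have h4 := hof a 1 hreg1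
        simp only [mul_one] at h4
        rw [h4]
        have h5 := hr (sc a⁻¹ * g) (sc_mul_reg a⁻¹ g hg)
        have h6 : (if sc a⁻¹ * g = 1 then (1 : ℂ) else 0) =
            (∑ w, (r w : ℂ) * D.br w (sc a⁻¹ * g)) / Nat.card (GL (Fin (n + 1)) k) := by
          rw [h5]
          by_cases h7 : sc a⁻¹ * g = 1
          · rw [if_pos h7, if_pos h7, div_self hG]
          · rw [if_neg h7, if_neg h7, zero_div]
        rw [h6, Finset.sum_div, Finset.mul_sum]
        refine Finset.sum_congr rfl fun w _ => ?_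
        rw [hom]
        ring
      rw [Finset.sum_congr rfl (fun a _ => e1 a), Finset.sum_comm]
      refine Finset.sum_congr rfl fun w _ => ?_
      rw [Finset.mul_sum, Finset.sum_mul]
    have hE : ∀ w, ((m w : ℂ) - if SameChar t D m w then ((Fintype.card k : ℂ) - 1) * r w *
        (∑ w', (m w' : ℂ) * D.br w' 1) / Nat.card (GL (Fin (n + 1)) k) else 0) * D.br w g =
        (m w : ℂ) * D.br w g - (r w : ℂ) * (∑ w', (m w' : ℂ) * D.br w' 1) / Nat.card (GL (Fin (n + 1)) k) *
          (∑ a : kˣ, ((of a : ℂˣ) : ℂ) * ((om w a⁻¹ : ℂˣ) : ℂ)) * D.br w g := by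
      intro w
      rw [hmain, sub_mul]
    rw [Finset.sum_congr rfl (fun w _ => hE w), Finset.sum_sub_distrib, hsum]
    by_cases hS : ∃ c : k, (g : Matrix (Fin (n + 1)) (Fin (n + 1)) k) = c • 1
    · rw [if_pos hS, sub_eq_zero]
      obtain ⟨c, hc⟩ := hS
      have hc0 : c ≠ 0 := by
        rintro rfl
        rw [zero_smul] at hc
        have h3 := g.mul_inv
        rw [hc, zero_mul] at h3
        have := congrFun (congrFun h3 0) 0
        simp at this
      have hgb : g = sc (Units.mk0 c hc0) := by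
        apply Units.ext
        rw [sc_val, hc]
        rfl
      rw [Finset.sum_eq_single (Units.mk0 c hc0)]
      · rw [hgb, ← sc_mul, inv_mul_cancel, sc_one, if_pos rfl, mul_one]
      · intro a _ ha
        rw [if_neg, mul_zero]
        intro h
        apply ha
        rw [hgb, ← sc_mul, ← sc_one] at h
        exact (inv_mul_eq_one.1 (sc_inj h))
      · intro h
        exact absurd (Finset.mem_univ _) h
    · rw [if_neg hS]
      have hS' : ∀ a : kˣ, sc a⁻¹ * g = 1 → (g : Matrix (Fin (n + 1)) (Fin (n + 1)) k) = (a : k) • 1 := by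
        intro a h
        have h2 : g = sc a := by
          have h3 : sc a * (sc a⁻¹ * g) = sc a := by rw [h, mul_one]
          rw [← mul_assoc, ← sc_mul, mul_inv_cancel, sc_one, one_mul] at h3
          exact h3
        rw [h2, sc_val]
      have h0 : ∑ a : kˣ, (∑ w', (m w' : ℂ) * D.br w' (sc a)) * (if sc a⁻¹ * g = 1 then (1 : ℂ) else 0) = 0 := by
        refine Finset.sum_eq_zero fun a _ => ?_
        rw [if_neg, mul_zero]
        intro h
        apply hS
        exact ⟨(a : k), hS' a h⟩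
      rw [h0, sub_zero]

end Core

end Pool.Agent.H498.EQ
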