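import Pool.Agent.H498.EQ.Cen

/-!
# The eigenvalues of the non-scalar elements of order prime to `p`
-/

set_option autoImplicit false

namespace Pool.Agent.H498.EQ

open Matrix Polynomial Pool.Agent.N28.BM Pool.Agent.H498.BT

lemma exists_frob (p m b : ℕ) (hp : p.Prime) (hm : ¬ p ∣ m) : ∃ N, b ≤ N ∧ ∃ j, p ^ N = m * j + 1 := by
  have hcop : Nat.Coprime p m := (Nat.Prime.coprime_iff_not_dvd hp).2 hm
  obtain ⟨N, hNb, hN⟩ : ∃ N, b ≤ N ∧ p ^ N ≡ 1 [MOD m] := by
    refine ⟨m.totient * (b + 1), ?_, ?_⟩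
    · have hm0 : 0 < m := Nat.pos_of_ne_zero (by rintro rfl; exact hm (dvd_zero p))
      have := Nat.totient_pos.2 hm0
      nlinarith
    · rw [pow_mul]
      have := (Nat.ModEq.pow_totient hcop).pow (b + 1)
      rwa [one_pow] at this
  obtain ⟨j, hj⟩ := (Nat.modEq_iff_dvd' (Nat.one_le_pow _ _ hp.pos)).1 hN.symm
  refine ⟨N, hNb, j, ?_⟩
  have := Nat.one_le_pow N p hp.pos
  omega

section Sep

variable {k F : Type} [Field k] [Finite k] [Field F] (ι : k →+* F) {p : ℕ} [hp : Fact p.Prime] [CharP F p]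

lemma exists_ne_eigen {d : ℕ} (g : GL (Fin d) k) (hg : ¬ p ∣ orderOf g) (x : Fin d → Fˣ) (hx : IsEigen ι g x)
    (hgs : ¬ ∃ c : k, (g : Matrix (Fin d) (Fin d) k) = c • 1) : ∃ i j, x i ≠ x j := by
  by_contra hcon
  push Not at hcon
  apply hgs
  cases d with
  | zero => exact ⟨0, by ext a; exact a.elim0⟩
  | succ n =>
    obtain ⟨N, hN, j, hj⟩ := exists_frob p (orderOf g) (n + 1) hp.out hg
    have hp1 := hp.out.one_lt
    set A : Matrix (Fin (n + 1)) (Fin (n + 1)) F := (g : Matrix (Fin (n + 1)) (Fin (n + 1)) k).map ι with hA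
    have hchar : A.charpoly = (X - C ((x 0 : Fˣ) : F)) ^ (n + 1) := by
      unfold IsEigen at hx
      rw [hA, Matrix.charpoly_map, hx]
      rw [Finset.prod_congr rfl (fun i _ => by rw [hcon i 0]), Finset.prod_const, Finset.card_univ, Fintype.card_fin]
    have hCH : (A - Matrix.scalar (Fin (n + 1)) ((x 0 : Fˣ) : F)) ^ (n + 1) = 0 := by
      have h1 := Matrix.aeval_self_charpoly A
      rw [hchar, map_pow, map_sub, aeval_X, aeval_C] at h1
      exact h1
    have hle : n + 1 ≤ p ^ N := by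
      have h2 : N < p ^ N := Nat.lt_pow_self hp1
      omega
    have h3 : (A - Matrix.scalar (Fin (n + 1)) ((x 0 : Fˣ) : F)) ^ (p ^ N) = 0 := pow_eq_zero_of_le hle hCH
    have hcomm : Commute A (Matrix.scalar (Fin (n + 1)) ((x 0 : Fˣ) : F)) :=
      (Matrix.scalar_commute _ (fun r' => Commute.all _ _) _).symm
    rw [sub_pow_char_pow_of_commute _ _ hcomm, ← map_pow, sub_eq_zero] at h3
    have h4 : A ^ (p ^ N) = A := by
      have h5 : A ^ orderOf g = 1 := by
        have h6 := congrArg (fun Q : GL (Fin (n + 1)) k => Q.val.map ι) (pow_orderOf_eq_one g)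
        simp only [Units.val_pow_eq_pow_val, Units.val_one] at h6
        rw [hA, ← Matrix.map_pow]
        rw [h6]
        exact Matrix.map_one _ (map_zero _) (map_one _)
      rw [hj, pow_succ, pow_mul, h5, one_pow, one_mul]
    rw [h4, Matrix.scalar_apply, ← Matrix.smul_one_eq_diagonal] at h3
    refine ⟨(g : Matrix (Fin (n + 1)) (Fin (n + 1)) k) 0 0, ?_⟩
    have h7 : ∀ i j, ι ((g : Matrix (Fin (n + 1)) (Fin (n + 1)) k) i j) =
        (((x 0 : Fˣ) : F) ^ (p ^ N) • (1 : Matrix (Fin (n + 1)) (Fin (n + 1)) F)) i j := by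
      intro i j
      rw [← h3, hA, Matrix.map_apply]
    ext i j
    apply ι.injective
    rw [h7, Matrix.smul_apply, Matrix.smul_apply, smul_eq_mul, smul_eq_mul, map_mul, h7, Matrix.smul_apply,
      Matrix.one_apply_eq, smul_eq_mul, mul_one, Matrix.one_apply, Matrix.one_apply]
    split_ifs <;> simp

/-- roots of unity are separated -/
lemma exists_sep (L : ℕ) (hL : 0 < L) : ∃ δ : ℝ, 0 < δ ∧ ∀ z z' : ℂ, z ^ L = 1 → z' ^ L = 1 → z ≠ z' → δ ≤ ‖z - z'‖ := by
  classical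
  have hfin : ({z : ℂ | z ^ L = 1}).Finite := by
    have h1 : {z : ℂ | z ^ L = 1} ⊆ ((X ^ L - 1 : ℂ[X]).rootSet ℂ) := by
      intro z hz
      rw [Polynomial.mem_rootSet]
      refine ⟨(Polynomial.monic_X_pow_sub_C 1 hL.ne').ne_zero, ?_⟩
      simp only [map_sub, map_pow, aeval_X, map_one]
      rw [Set.mem_setOf_eq] at hz
      rw [hz, sub_self]
    exact (Polynomial.rootSet_finite _ _).subset h1
  set T := (hfin.toFinset ×ˢ hfin.toFinset).filter (fun z => z.1 ≠ z.2) with hT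
  rcases T.eq_empty_or_nonempty with hE | hE
  · refine ⟨1, one_pos, ?_⟩
    intro z z' hz hz' hne
    have : (z, z') ∈ T := by
      rw [hT, Finset.mem_filter, Finset.mem_product]
      exact ⟨⟨hfin.mem_toFinset.2 hz, hfin.mem_toFinset.2 hz'⟩, hne⟩
    rw [hE] at this
    exact absurd this (Finset.notMem_empty _)
  · obtain ⟨w, hw, hmin⟩ := T.exists_min_image (fun z => ‖z.1 - z.2‖) hE
    refine ⟨‖w.1 - w.2‖, ?_, ?_⟩
    · rw [norm_pos_iff, sub_ne_zero]
      exact (Finset.mem_filter.1 hw).2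
    · intro z z' hz hz' hne
      exact hmin (z, z') (by
        rw [hT, Finset.mem_filter, Finset.mem_product]
        exact ⟨⟨hfin.mem_toFinset.2 hz, hfin.mem_toFinset.2 hz'⟩, hne⟩)

variable {S : Type} [Fintype S] [DecidableEq S] {f n : ℕ} (κ : S → ZMod f) (t : Fˣ →* ℂˣ)
  (ht : Function.Injective t)

omit [Fintype S] [DecidableEq S] hp [CharP F p] in
lemma pnt_pow (g : GL (Fin (n + 1)) k) (x : Fin (n + 1) → Fˣ) (hx : IsEigen ι g x) (σ : S) (i : Fin (n + 1)) :
    ((pnt κ p t x σ i : ℂˣ) : ℂ) ^ Nat.card (GL (Fin (n + 1)) k) = 1 := by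
  have h1 : (x i : F) ^ Nat.card (GL (Fin (n + 1)) k) = 1 := by
    unfold IsEigen at hx
    rw [← Matrix.charpoly_map] at hx
    refine root_pow _ (fun i => ((x i : Fˣ) : F)) hx _ ?_ i
    have h6 := congrArg (fun Q : GL (Fin (n + 1)) k => Q.val.map ι) (pow_card_eq_one' (x := g))
    simp only [Units.val_pow_eq_pow_val, Units.val_one] at h6
    rw [← Matrix.map_pow, h6]
    exact Matrix.map_one _ (map_zero _) (map_one _)
  have h2 : (x i) ^ Nat.card (GL (Fin (n + 1)) k) = 1 := by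
    apply Units.ext
    rw [Units.val_pow_eq_pow_val, h1, Units.val_one]
  rw [← Units.val_pow_eq_pow_val]
  unfold pnt
  rw [← pow_mul, mul_comm, pow_mul, ← map_pow, h2, map_one, one_pow, Units.val_one]

omit [Fintype S] [DecidableEq S] hp [CharP F p] in
lemma pnt_norm (g : GL (Fin (n + 1)) k) (x : Fin (n + 1) → Fˣ) (hx : IsEigen ι g x) (σ : S) (i : Fin (n + 1)) :
    ‖((pnt κ p t x σ i : ℂˣ) : ℂ)‖ = 1 := by
  have h1 := pnt_pow (p := p) ι κ t g x hx σ i
  have h2 : ‖((pnt κ p t x σ i : ℂˣ) : ℂ)‖ ^ Nat.card (GL (Fin (n + 1)) k) = 1 := by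
    rw [← norm_pow, h1, norm_one]
  exact (pow_eq_one_iff_of_nonneg (norm_nonneg _) Nat.card_pos.ne').1 h2

include ht in
omit [Fintype S] [DecidableEq S] in
/-- two lifted eigenvalues are separated -/
lemma pnt_sep : ∃ δ : ℝ, 0 < δ ∧ ∀ (g : GL (Fin (n + 1)) k) (x : Fin (n + 1) → Fˣ), IsEigen ι g x →
    ¬ p ∣ orderOf g → (¬ ∃ c : k, (g : Matrix (Fin (n + 1)) (Fin (n + 1)) k) = c • 1) →
    ∃ i j, i ≠ j ∧ ∀ σ : S, δ ≤ ‖((pnt κ p t x σ i : ℂˣ) : ℂ) - pnt κ p t x σ j‖ := by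
  obtain ⟨δ, hδ, hsep⟩ := exists_sep (Nat.card (GL (Fin (n + 1)) k)) Nat.card_pos
  refine ⟨δ, hδ, ?_⟩
  intro g x hx hg hgs
  obtain ⟨i, j, hij⟩ := exists_ne_eigen ι g hg x hx hgs
  refine ⟨i, j, fun h => hij (by rw [h]), fun σ => ?_⟩
  apply hsep _ _ (pnt_pow ι κ t g x hx σ i) (pnt_pow ι κ t g x hx σ j)
  intro h
  apply hij
  have h1 : pnt κ p t x σ i = pnt κ p t x σ j := Units.ext h
  unfold pnt at h1
  rw [← map_pow, ← map_pow] at h1
  have h2 := congrArg (fun z : Fˣ => (z : F)) (ht h1)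
  simp only [Units.val_pow_eq_pow_val] at h2
  apply Units.ext
  exact iterateFrobenius_inj F p _ h2

end Sep

end Pool.Agent.H498.EQ
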