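import Pool.Agent.H498.EQ.Core

/-!
# Equidistribution of Serre weights
-/

set_option autoImplicit false

namespace Pool.Agent.H498.EQ

open Matrix Module Pool.Agent.N28.BM Pool.Agent.H498.BT

/-- `θ` is the Brauer character of the reduction of an irreducible smooth representation of `GL_d(O)` of dimension
`δ`, no twist of which by a character of `Oˣ` is trivial on the `g ≡ 1 mod ϖ ^ l'` for an `l' < l`. -/
def IsType {O k : Type} [CommRing O] [Field k] (ϖ : O) (π₀ : O →+* k) (p : ℕ) {d : ℕ} (θ : GL (Fin d) k → ℂ)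
    (δ l : ℕ) : Prop :=
  ∃ (V : Type) (_ : AddCommGroup V) (_ : Module ℂ V) (_ : FiniteDimensional ℂ V)
    (ρ : Representation ℂ (GL (Fin d) O) V), ρ.IsIrreducible ∧ Smooth ϖ ρ ∧ finrank ℂ V = δ ∧
      IsRed ϖ π₀ p θ ρ ∧ ∀ l' < l, ¬ HasLevel ϖ l' ρ

section Pair

variable {k F : Type} [Field k] [Fintype k] [Field F] [IsAlgClosed F] (ι : k →+* F) {p f : ℕ}
  [hp : Fact p.Prime] [CharP F p] [CharP k p] {S : Type} [Fintype S] [DecidableEq S] {n : ℕ} (κ : S → ZMod f)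
  (t : Fˣ →* ℂˣ) (ht : Function.Injective t) (s : Wt S (n + 1) → P S (n + 1)) (hs : IsWeyl s)
  (D : SerreWeights k F (n + 1) t)
  {O : Type} [CommRing O] [IsDomain O] [IsDiscreteValuationRing O] {ϖ : O} (hϖ : Irreducible ϖ)
  (π₀ : O →+* k) (hπ₀ : Function.Surjective π₀)

include hs in
omit [Fintype k] [IsAlgClosed F] [CharP F p] [CharP k p] hp in
lemma evx_pnt_one (h : Wt S (n + 1)) : evx (pnt κ p t fun _ => 1) (s h) = (wdim h : ℂ) := by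
  rw [← evx_one s hs h]
  congr 2
  funext σ i
  unfold pnt
  rw [map_one, one_pow]

variable {θ : GL (Fin (n + 1)) k → ℂ} {δ l : ℕ} (hθ : IsType ϖ π₀ p θ δ l) {mult : Wt S (n + 1) → D.W → ℕ}
  (hmult : IsMult ι (p := p) κ t s D θ mult) (h : Wt S (n + 1)) (hh : Dom h)

include hs hθ hmult hh in
omit [Fintype k] [CharP F p] [IsAlgClosed F] [IsDomain O] [IsDiscreteValuationRing O] in
lemma pair_one : ∑ w, (mult h w : ℂ) * D.br w 1 = ((wdim h * δ : ℝ) : ℂ) := by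
  obtain ⟨V, _, _, _, ρ, hirr, hsm, hδ, hred, hl⟩ := hθ
  have h1 : IsEigen ι (1 : GL (Fin (n + 1)) k) (fun _ => 1) := by
    unfold IsEigen
    rw [Units.val_one, Matrix.charpoly_one]
    simp
  rw [hmult h hh 1 (fun _ => 1) h1, evx_pnt_one κ t s hs h, theta_one π₀ ρ hsm p θ hred, hδ]
  push_cast
  rfl

include hs hθ hmult hh hϖ hπ₀ in
omit [CharP F p] in
lemma pair_scale (a : kˣ) : ∃ c : ℂ, ∀ g : GL (Fin (n + 1)) k, ¬ p ∣ orderOf g →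
    ∑ w, (mult h w : ℂ) * D.br w (sc a * g) = c * ∑ w, (mult h w : ℂ) * D.br w g := by
  obtain ⟨V, _, _, _, ρ, hirr, hsm, hδ, hred, hl⟩ := hθ
  obtain ⟨c, _, hc⟩ := theta_scale hϖ π₀ hπ₀ ρ hirr hsm p θ hred a
  refine ⟨(∏ σ, ((((t (Units.map ι.toMonoidHom a)) ^ (p ^ (κ σ).val) : ℂˣ) : ℂ)) ^ (∑ i, (h σ i - rho n i))) * c, ?_⟩
  intro g hg
  obtain ⟨x, hx⟩ := list_eigen ι g
  rw [hmult h hh g x hx, hmult h hh _ _ (eigen_scale ι a g x hx), hc g hg]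
  have h1 : (pnt κ p t fun i => Units.map ι.toMonoidHom a * x i) =
      fun (σ : S) i => (t (Units.map ι.toMonoidHom a)) ^ (p ^ (κ σ).val) * pnt κ p t x σ i := by
    funext σ i
    unfold pnt
    rw [map_mul, mul_pow]
  rw [h1, evx_scale s hs]
  ring

include ht hs in
lemma pair_bound (hϖ : Irreducible ϖ) (hπ₀ : Function.Surjective π₀) : ∃ C1 : ℝ, 0 < C1 ∧
    ∀ (θ : GL (Fin (n + 1)) k → ℂ) (δ l : ℕ), IsType ϖ π₀ p θ δ l → ∀ mult : Wt S (n + 1) → D.W → ℕ,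
      IsMult ι (p := p) κ t s D θ mult → ∀ h : Wt S (n + 1), Dom h → ∀ σ₀ : S, ∀ g : GL (Fin (n + 1)) k,
        ¬ p ∣ orderOf g → (¬ ∃ c : k, (g : Matrix (Fin (n + 1)) (Fin (n + 1)) k) = c • 1) →
        ‖∑ w, (mult h w : ℂ) * D.br w g‖ * (((h σ₀ 0 - h σ₀ (Fin.last n) : ℤ) : ℝ) * (Nat.card k : ℝ) ^ (l / 4)) ≤
          C1 * (wdim h * δ) := by
  obtain ⟨ε, hε, hsep⟩ := pnt_sep (S := S) (f := f) (n := n) ι (p := p) κ t ht
  have hW0 : 0 < (wgt false (rho n)) ^ Fintype.card S := pow_pos (wgt_nonneg _ _ (rho_anti n)) _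
  refine ⟨2 * (wgt false (rho n)) ^ Fintype.card S / ε, by positivity, ?_⟩
  intro θ δ l hθ mult hmult h hh σ₀ g hg hgs
  obtain ⟨V, _, _, _, ρ, hirr, hsm, hδ, hred, hl⟩ := hθ
  obtain ⟨x, hx⟩ := list_eigen ι g
  obtain ⟨i, j, hij, hd⟩ := hsep g x hx hg hgs
  have h1 := evx_le' s hs (pnt κ p t x) (pnt_norm ι κ t g x hx) h hh σ₀ i j hij
  have h2 := theta_ratio hϖ π₀ hπ₀ ρ hirr hsm p θ hred l hl g hg hgs
  rw [wdim_mul] at h1
  have hgap : (0 : ℝ) ≤ ((h σ₀ 0 - h σ₀ (Fin.last n) : ℤ) : ℝ) := by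
    have := (hh σ₀).antitone (Fin.zero_le (Fin.last n))
    exact_mod_cast sub_nonneg.2 this
  rw [hmult h hh g x hx, norm_mul]
  rw [hδ] at h2
  have hE : (0 : ℝ) ≤ ‖evx (pnt κ p t x) (s h)‖ := norm_nonneg _
  have h3 : ‖evx (pnt κ p t x) (s h)‖ * ((h σ₀ 0 - h σ₀ (Fin.last n) : ℤ) : ℝ) ≤
      2 * (wgt false (rho n)) ^ Fintype.card S / ε * wdim h := by
    rw [div_mul_eq_mul_div, le_div_iff₀ hε]
    calc ‖evx (pnt κ p t x) (s h)‖ * ((h σ₀ 0 - h σ₀ (Fin.last n) : ℤ) : ℝ) * ε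
        ≤ ‖evx (pnt κ p t x) (s h)‖ * ((h σ₀ 0 - h σ₀ (Fin.last n) : ℤ) : ℝ) *
          ‖((pnt κ p t x σ₀ i : ℂˣ) : ℂ) - pnt κ p t x σ₀ j‖ :=
          mul_le_mul_of_nonneg_left (hd σ₀) (mul_nonneg hE hgap)
      _ = ‖evx (pnt κ p t x) (s h)‖ * ‖((pnt κ p t x σ₀ i : ℂˣ) : ℂ) - pnt κ p t x σ₀ j‖ *
          ((h σ₀ 0 - h σ₀ (Fin.last n) : ℤ) : ℝ) := by ring
      _ ≤ 2 * (wdim h * (wgt false (rho n)) ^ Fintype.card S) := h1
      _ = _ := by ring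
  calc ‖evx (pnt κ p t x) (s h)‖ * ‖θ g‖ * (((h σ₀ 0 - h σ₀ (Fin.last n) : ℤ) : ℝ) * (Nat.card k : ℝ) ^ (l / 4))
      = (‖evx (pnt κ p t x) (s h)‖ * ((h σ₀ 0 - h σ₀ (Fin.last n) : ℤ) : ℝ)) * (‖θ g‖ * (Nat.card k : ℝ) ^ (l / 4)) := by
        ring
    _ ≤ (2 * (wgt false (rho n)) ^ Fintype.card S / ε * wdim h) * δ := by
        apply mul_le_mul h3 h2 (by positivity)
        have := wdim_pos h hh
        positivity
    _ = _ := by ring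

end Pair

end Pool.Agent.H498.EQ
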