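import Pool.Agent.H498.EQ.Fin

/-!
# Equidistribution of Serre weights: the main theorem
-/

set_option autoImplicit false

namespace Pool.Agent.H498.EQ

open Matrix Module Pool.Agent.N28.BM Pool.Agent.H498.BT

section Main

variable {k F : Type} [Field k] [Fintype k] [Field F] [IsAlgClosed F] (ι : k →+* F) {p f : ℕ}
  [hp : Fact p.Prime] [CharP F p] [CharP k p] {S : Type} [Fintype S] [DecidableEq S] {n : ℕ} (κ : S → ZMod f)
  (t : Fˣ →* ℂˣ) (ht : Function.Injective t) (s : Wt S (n + 1) → P S (n + 1)) (hs : IsWeyl s)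
  (D : SerreWeights k F (n + 1) t)
  (hirr : ∀ w, IrrRep (D.rep w)) (hiso : ∀ w w', w ≠ w' → ¬ IsoRep (D.rep w) (D.rep w'))
  {O : Type} [CommRing O] [IsDomain O] [IsDiscreteValuationRing O] {ϖ : O} (hϖ : Irreducible ϖ)
  (π₀ : O →+* k) (hπ₀ : Function.Surjective π₀)
  (r : D.W → ℕ) (hr0 : ∀ w, 0 < r w) (hr : ∀ g : GL (Fin (n + 1)) k, ¬ p ∣ orderOf g → ∑ w, (r w : ℂ) * D.br w g =
    open scoped Classical in if g = 1 then (Nat.card (GL (Fin (n + 1)) k) : ℂ) else 0)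

lemma delta_pos {O k : Type} [CommRing O] [Field k] {ϖ : O} {π₀ : O →+* k} {p : ℕ} {d : ℕ} {θ : GL (Fin d) k → ℂ}
    {δ l : ℕ} (hθ : IsType ϖ π₀ p θ δ l) : 0 < δ := by
  obtain ⟨V, _, _, _, ρ, hirr, hsm, hδ, hred, hl⟩ := hθ
  have := nontriv_of_irr ρ hirr
  rw [← hδ]
  exact finrank_pos

/-- The main term. -/
noncomputable def mainTerm (D : SerreWeights k F (n + 1) t) (r : D.W → ℕ) (m : D.W → ℕ) (A : ℝ) (w : D.W) : ℝ :=
  open scoped Classical in
  if SameChar t D m w then ((Fintype.card k : ℝ) - 1) * r w * A / Nat.card (GL (Fin (n + 1)) k) else 0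

include ht hs hirr hiso hϖ hπ₀ hr in
theorem main_bound : ∃ C : ℝ, 0 < C ∧
    ∀ (θ : GL (Fin (n + 1)) k → ℂ) (δ l : ℕ), IsType ϖ π₀ p θ δ l → ∀ mult : Wt S (n + 1) → D.W → ℕ,
      IsMult ι (p := p) κ t s D θ mult → ∀ h : Wt S (n + 1), Dom h → ∀ w : D.W,
        (¬ SameChar t D (mult h) w → mult h w = 0) ∧ ∀ σ₀ : S,
        |(mult h w : ℝ) - mainTerm t D r (mult h) (wdim h * δ) w| *
          (((h σ₀ 0 - h σ₀ (Fin.last n) : ℤ) : ℝ) * (Nat.card k : ℝ) ^ (l / 4)) ≤ C * (wdim h * δ) := by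
  classical
  have hBr := brauer p t ht D.dim D.rep hirr hiso D.br D.br_eq
  obtain ⟨C0, hC0, hdual⟩ := dual_bound t D hBr
  obtain ⟨C1, hC1, hb⟩ := pair_bound ι κ t ht s hs D π₀ hϖ hπ₀
  refine ⟨C0 * C1, by positivity, ?_⟩
  intro θ δ l hθ mult hmult h hh w
  have hA := pair_one ι κ t s hs D π₀ hθ hmult h hh
  have hδ := delta_pos hθ
  have hwd := wdim_pos h hh
  have hA0 : 0 < wdim h * (δ : ℝ) := mul_pos hwd (by exact_mod_cast hδ)
  have hAne : ∑ w, (mult h w : ℂ) * D.br w 1 ≠ 0 := by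
    rw [hA]
    exact_mod_cast hA0.ne'
  obtain ⟨hcore1, hcore2⟩ := core' t D hirr hBr r hr (mult h)
    (pair_scale ι κ t s hs D hϖ π₀ hπ₀ hθ hmult h hh) hAne
  refine ⟨hcore1 w, fun σ₀ => ?_⟩
  have hgap : (0 : ℝ) ≤ ((h σ₀ 0 - h σ₀ (Fin.last n) : ℤ) : ℝ) := by
    have := (hh σ₀).antitone (Fin.zero_le (Fin.last n))
    exact_mod_cast sub_nonneg.2 this
  obtain ⟨K, hK⟩ : ∃ K : ℝ, K = ((h σ₀ 0 - h σ₀ (Fin.last n) : ℤ) : ℝ) * (Nat.card k : ℝ) ^ (l / 4) := ⟨_, rfl⟩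
  have hK0 : 0 ≤ K := by rw [hK]; positivity
  rw [← hK]
  have hE : ∀ w, ((((mult h w : ℝ) - mainTerm t D r (mult h) (wdim h * δ) w) * K : ℝ) : ℂ) =
      (K : ℂ) * ((mult h w : ℂ) - if SameChar t D (mult h) w then ((Fintype.card k : ℂ) - 1) * r w *
        (∑ w', (mult h w' : ℂ) * D.br w' 1) / Nat.card (GL (Fin (n + 1)) k) else 0) := by
    intro w
    rw [hA]
    unfold mainTerm
    split_ifs
    · push_cast
      ring
    · push_cast
      ring
  have h2 := hdual (fun w => ((((mult h w : ℝ) - mainTerm t D r (mult h) (wdim h * δ) w) * K : ℝ) : ℂ))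
    (C1 * (wdim h * δ)) (by
      intro g hg
      have h3 := hcore2 g hg
      have h4 : ∑ w, ((((mult h w : ℝ) - mainTerm t D r (mult h) (wdim h * δ) w) * K : ℝ) : ℂ) * D.br w g =
          (K : ℂ) * (if (∃ c : k, (g : Matrix (Fin (n + 1)) (Fin (n + 1)) k) = c • 1) then 0 else
            ∑ w, (mult h w : ℂ) * D.br w g) := by
        rw [← h3, Finset.mul_sum]
        refine Finset.sum_congr rfl fun w _ => ?_
        rw [hE, mul_assoc]
      rw [h4, norm_mul]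
      split_ifs with hS
      · rw [norm_zero, mul_zero]
        positivity
      · have h5 := hb θ δ l hθ mult hmult h hh σ₀ g hg hS
        rw [← hK] at h5
        rw [Complex.norm_real, Real.norm_of_nonneg hK0, mul_comm]
        exact h5) w
  rw [Complex.norm_real, norm_mul, Real.norm_of_nonneg hK0, Real.norm_eq_abs] at h2
  rw [mul_assoc]
  exact h2

/-- sum over the weights with the same central character -/
noncomputable def wsum (D : SerreWeights k F (n + 1) t) (r : D.W → ℕ) (m : D.W → ℕ) (z : D.W → ℤ) : ℤ :=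
  open scoped Classical in ∑ w, if SameChar t D m w then (r w : ℤ) * z w else 0

include ht hs hirr hiso hϖ hπ₀ hr in
theorem main_sign (hn : n ≠ 0) [Nonempty S] (z : D.W → ℤ) : ∃ B : ℕ,
    ∀ (θ : GL (Fin (n + 1)) k → ℂ) (δ l : ℕ), IsType ϖ π₀ p θ δ l → ∀ mult : Wt S (n + 1) → D.W → ℕ,
      IsMult ι (p := p) κ t s D θ mult → ∀ h : Wt S (n + 1), Dom h →
        ((∃ σ, (B : ℤ) ≤ h σ 0 - h σ (Fin.last n)) ∨ B ≤ l) →
        (0 < wsum t D r (mult h) z → 0 < ∑ w, (mult h w : ℤ) * z w) ∧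
        (wsum t D r (mult h) z < 0 → ∑ w, (mult h w : ℤ) * z w < 0) := by
  classical
  obtain ⟨C, hC, hb⟩ := main_bound ι κ t ht s hs D hirr hiso hϖ π₀ hπ₀ r hr
  set G : ℝ := (Nat.card (GL (Fin (n + 1)) k) : ℝ) with hG
  have hG0 : 0 < G := by rw [hG]; exact_mod_cast Nat.card_pos
  set X : ℝ := (∑ w, |(z w : ℝ)|) * C * G with hX
  set B0 : ℕ := ⌈X⌉₊ + 1 with hB0
  have hXB : X < B0 := by
    rw [hB0]
    push_cast
    exact lt_of_le_of_lt (Nat.le_ceil X) (lt_add_one _)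
  have hq2 : (2 : ℝ) ≤ Nat.card k := by
    rw [Nat.card_eq_fintype_card]
    exact_mod_cast Fintype.one_lt_card
  refine ⟨4 * B0, ?_⟩
  intro θ δ l hθ mult hmult h hh hfar
  have hδ := delta_pos hθ
  have hwd := wdim_pos h hh
  set A : ℝ := wdim h * (δ : ℝ) with hA
  have hA0 : 0 < A := mul_pos hwd (by exact_mod_cast hδ)
  have hgap : ∀ σ : S, (1 : ℝ) ≤ ((h σ 0 - h σ (Fin.last n) : ℤ) : ℝ) := by
    intro σ
    have h1 : (0 : Fin (n + 1)) < Fin.last n := Fin.pos_iff_ne_zero.2 (fun h0 => hn (by simpa using congrArg Fin.val h0))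
    have h2 := hh σ h1
    have h3 : (1 : ℤ) ≤ h σ 0 - h σ (Fin.last n) := by omega
    exact_mod_cast h3
  have hl1 : (1 : ℝ) ≤ (Nat.card k : ℝ) ^ (l / 4) := one_le_pow₀ (by linarith)
  obtain ⟨σ₀, hσ₀⟩ : ∃ σ₀ : S, X < ((h σ₀ 0 - h σ₀ (Fin.last n) : ℤ) : ℝ) * (Nat.card k : ℝ) ^ (l / 4) := by
    rcases hfar with ⟨σ, hσ⟩ | hl
    · refine ⟨σ, ?_⟩
      have h1 : ((4 * B0 : ℕ) : ℝ) ≤ ((h σ 0 - h σ (Fin.last n) : ℤ) : ℝ) := by exact_mod_cast hσ
      have h2 : X < ((h σ 0 - h σ (Fin.last n) : ℤ) : ℝ) := by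
        push_cast at h1 ⊢
        have : (0 : ℝ) ≤ B0 := by positivity
        linarith
      have h3 := hgap σ
      nlinarith
    · obtain ⟨σ⟩ := (inferInstance : Nonempty S)
      refine ⟨σ, ?_⟩
      have h1 : B0 ≤ l / 4 := by omega
      have h2 : (B0 : ℝ) ≤ (Nat.card k : ℝ) ^ (l / 4) := by
        calc (B0 : ℝ) ≤ (2 : ℝ) ^ B0 := by exact_mod_cast (Nat.lt_two_pow_self).le
          _ ≤ (Nat.card k : ℝ) ^ B0 := pow_le_pow_left₀ (by norm_num) hq2 _
          _ ≤ _ := pow_le_pow_right₀ (by linarith) h1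
      have h3 := hgap σ
      nlinarith
  obtain ⟨K, hK⟩ : ∃ K : ℝ, K = ((h σ₀ 0 - h σ₀ (Fin.last n) : ℤ) : ℝ) * (Nat.card k : ℝ) ^ (l / 4) := ⟨_, rfl⟩
  rw [← hK] at hσ₀
  have hX0 : 0 ≤ X := by positivity
  have hKpos : 0 < K := lt_of_le_of_lt hX0 hσ₀
  -- the error
  have herr : |∑ w, (mult h w : ℝ) * z w - ∑ w, mainTerm t D r (mult h) A w * z w| * K ≤ (∑ w, |(z w : ℝ)|) * (C * A) := by
    rw [← Finset.sum_sub_distrib, ← abs_of_pos hKpos, ← abs_mul, Finset.sum_mul]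
    refine (Finset.abs_sum_le_sum_abs _ _).trans ?_
    rw [Finset.sum_mul]
    refine Finset.sum_le_sum fun w _ => ?_
    rw [← sub_mul, abs_mul, abs_mul, mul_comm |(mult h w : ℝ) - _|, mul_assoc]
    apply mul_le_mul_of_nonneg_left _ (abs_nonneg _)
    have h2 := (hb θ δ l hθ mult hmult h hh w).2 σ₀
    rw [← hK] at h2
    rw [abs_of_pos hKpos]
    exact h2
  have hmain : ∑ w, mainTerm t D r (mult h) A w * z w =
      ((Fintype.card k : ℝ) - 1) * A / G * (wsum t D r (mult h) z : ℝ) := by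
    unfold wsum mainTerm
    push_cast
    rw [Finset.mul_sum]
    refine Finset.sum_congr rfl fun w _ => ?_
    split_ifs
    · push_cast
      ring
    · simp
  have hsmall : (∑ w, |(z w : ℝ)|) * (C * A) < A / G * K := by
    rw [div_mul_eq_mul_div, lt_div_iff₀ hG0]
    calc (∑ w, |(z w : ℝ)|) * (C * A) * G = A * X := by rw [hX]; ring
      _ < A * K := mul_lt_mul_of_pos_left hσ₀ hA0
  have herr2 : |∑ w, (mult h w : ℝ) * z w - ((Fintype.card k : ℝ) - 1) * A / G * (wsum t D r (mult h) z : ℝ)| < A / G := by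
    rw [hmain] at herr
    exact lt_of_mul_lt_mul_right (herr.trans_lt hsmall) hKpos.le
  have hAG : 0 < A / G := div_pos hA0 hG0
  have hq1 : (1 : ℝ) ≤ (Fintype.card k : ℝ) - 1 := by
    rw [← Nat.card_eq_fintype_card]
    linarith
  rw [abs_lt] at herr2
  constructor
  · intro hpos
    have h1 : (1 : ℝ) ≤ (wsum t D r (mult h) z : ℝ) := by exact_mod_cast hpos
    have h2 : A / G ≤ ((Fintype.card k : ℝ) - 1) * A / G * (wsum t D r (mult h) z : ℝ) := by
      have h3 : ((Fintype.card k : ℝ) - 1) * A / G * (wsum t D r (mult h) z : ℝ) =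
          A / G * (((Fintype.card k : ℝ) - 1) * (wsum t D r (mult h) z : ℝ)) := by ring
      rw [h3]
      nlinarith [mul_le_mul hq1 h1 (by norm_num) (by linarith)]
    have h4 : (0 : ℝ) < ∑ w, (mult h w : ℝ) * z w := by linarith [herr2.1]
    exact_mod_cast h4
  · intro hneg
    have h1 : (wsum t D r (mult h) z : ℝ) ≤ -1 := by exact_mod_cast (by omega : wsum t D r (mult h) z ≤ -1)
    have h2 : ((Fintype.card k : ℝ) - 1) * A / G * (wsum t D r (mult h) z : ℝ) ≤ - (A / G) := by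
      have h3 : ((Fintype.card k : ℝ) - 1) * A / G * (wsum t D r (mult h) z : ℝ) =
          A / G * (((Fintype.card k : ℝ) - 1) * (wsum t D r (mult h) z : ℝ)) := by ring
      rw [h3]
      have h5 : ((Fintype.card k : ℝ) - 1) * (wsum t D r (mult h) z : ℝ) ≤ -1 := by nlinarith
      nlinarith
    have h4 : ∑ w, (mult h w : ℝ) * z w < (0 : ℝ) := by linarith [herr2.2]
    exact_mod_cast h4

end Main

end Pool.Agent.H498.EQ
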