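import Pool.Agent.H498.EQ.Fin2

/-!
# Equidistribution of Serre weights: consequences
-/

set_option autoImplicit false

namespace Pool.Agent.H498.EQ

open Matrix Module Pool.Agent.N28.BM Pool.Agent.H498.BT

section Main

variable {k F : Type} [Field k] [Fintype k] [Field F] [IsAlgClosed F] (ι : k →+* F) {p f : ℕ}
  [hp : Fact p.Prime] [CharP F p] [CharP k p] {S : Type} [Fintype S] [DecidableEq S] {n : ℕ} (κ : S → ZMod f)
  (t : Fˣ →* ℂˣ) (ht : Function.Injective t) (s : Wt S (n + 1) → P S (n + 1)) (hs : IsWeyl s)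
  (D : SerreWeights k F (n + 1) t)
  (hirr : ∀ w, IrrRep (D.rep w)) (hiso : ∀ w w', w ≠ w' → ¬ IsoRep (D.rep w) (D.rep w'))
  {O : Type} [CommRing O] [IsDomain O] [IsDiscreteValuationRing O] {ϖ : O} (hϖ : Irreducible ϖ)
  (π₀ : O →+* k) (hπ₀ : Function.Surjective π₀)
  (r : D.W → ℕ) (hr0 : ∀ w, 0 < r w) (hr : ∀ g : GL (Fin (n + 1)) k, ¬ p ∣ orderOf g → ∑ w, (r w : ℂ) * D.br w g =
    open scoped Classical in if g = 1 then (Nat.card (GL (Fin (n + 1)) k) : ℂ) else 0)

include ht hs hirr hiso hϖ hπ₀ hr hr0 in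
theorem main_occ (hn : n ≠ 0) [Nonempty S] : ∃ B : ℕ,
    ∀ (θ : GL (Fin (n + 1)) k → ℂ) (δ l : ℕ), IsType ϖ π₀ p θ δ l → ∀ mult : Wt S (n + 1) → D.W → ℕ,
      IsMult ι (p := p) κ t s D θ mult → ∀ h : Wt S (n + 1), Dom h →
        ((∃ σ, (B : ℤ) ≤ h σ 0 - h σ (Fin.last n)) ∨ B ≤ l) →
        ∀ w, 0 < mult h w ↔ SameChar t D (mult h) w := by
  classical
  choose B hB using fun w : D.W => main_sign ι κ t ht s hs D hirr hiso hϖ π₀ hπ₀ r hr hn (Pi.single w 1)
  obtain ⟨C, _, hb⟩ := main_bound ι κ t ht s hs D hirr hiso hϖ π₀ hπ₀ r hr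
  refine ⟨Finset.univ.sup B, ?_⟩
  intro θ δ l hθ mult hmult h hh hfar w
  constructor
  · intro hpos
    by_contra hS
    have := (hb θ δ l hθ mult hmult h hh w).1 hS
    omega
  · intro hS
    have hle : B w ≤ Finset.univ.sup B := Finset.le_sup (Finset.mem_univ w)
    have h1 := (hB w θ δ l hθ mult hmult h hh (by
      rcases hfar with ⟨σ, hσ⟩ | hl
      · left
        refine ⟨σ, le_trans ?_ hσ⟩
        exact_mod_cast hle
      · right
        exact hle.trans hl)).1 (by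
      unfold wsum
      rw [Finset.sum_eq_single w]
      · rw [if_pos hS, Pi.single_eq_same, mul_one]
        exact_mod_cast hr0 w
      · intro w' _ hw'
        rw [Pi.single_eq_of_ne hw', mul_zero, ite_self]
      · intro hw'
        exact absurd (Finset.mem_univ _) hw')
    rw [Finset.sum_eq_single w] at h1
    · rw [Pi.single_eq_same, mul_one] at h1
      exact_mod_cast h1
    · intro w' _ hw'
      rw [Pi.single_eq_of_ne hw', mul_zero]
    · intro hw'
      exact absurd (Finset.mem_univ _) hw'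

variable {θ : GL (Fin (n + 1)) k → ℂ} {δ l : ℕ} (hθ : IsType ϖ π₀ p θ δ l) {mult : Wt S (n + 1) → D.W → ℕ}
  (hmult : IsMult ι (p := p) κ t s D θ mult)

include hs hmult in
omit [CharP F p] [CharP k p] hp in
lemma pair_sc (h h' : Wt S (n + 1)) (hh : Dom h) (hh' : Dom h')
    (hd : ∀ σ, ((Fintype.card k : ℤ) - 1) ∣ (∑ i, h' σ i) - ∑ i, h σ i) (a : kˣ) :
    (∑ w, (mult h' w : ℂ) * D.br w (sc a)) * (wdim h : ℂ) = (∑ w, (mult h w : ℂ) * D.br w (sc a)) * (wdim h' : ℂ) := by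
  have h1 : IsEigen ι (1 : GL (Fin (n + 1)) k) (fun _ => 1) := by
    unfold IsEigen
    rw [Units.val_one, Matrix.charpoly_one]
    simp
  have h2 := eigen_scale ι a 1 (fun _ => 1) h1
  rw [mul_one] at h2
  have h3 : (pnt κ p t fun _ : Fin (n + 1) => Units.map ι.toMonoidHom a * 1) =
      fun (σ : S) (i : Fin (n + 1)) => (t (Units.map ι.toMonoidHom a)) ^ (p ^ (κ σ).val) * 1 := by
    funext σ i
    unfold pnt
    rw [mul_one, mul_one]
  rw [hmult h hh _ _ h2, hmult h' hh' _ _ h2, h3, evx_scale s hs _ (fun _ _ => 1) h,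
    evx_scale s hs _ (fun _ _ => 1) h', evx_one s hs, evx_one s hs]
  have h4 : ∀ σ, ((((t (Units.map ι.toMonoidHom a)) ^ (p ^ (κ σ).val) : ℂˣ) : ℂ)) ^ (∑ i, (h' σ i - rho n i)) =
      ((((t (Units.map ι.toMonoidHom a)) ^ (p ^ (κ σ).val) : ℂˣ) : ℂ)) ^ (∑ i, (h σ i - rho n i)) := by
    intro σ
    obtain ⟨c, hc⟩ := hd σ
    have h5 : (∑ i, (h' σ i - rho n i)) = ((Fintype.card k : ℤ) - 1) * c + ∑ i, (h σ i - rho n i) := by
      rw [Finset.sum_sub_distrib, Finset.sum_sub_distrib, ← hc]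
      ring
    rw [h5, zpow_add₀ (Units.ne_zero _), _root_.zpow_mul]
    have h6 : (Units.map ι.toMonoidHom a) ^ (Fintype.card k - 1) = 1 := by
      classical
      rw [← map_pow, ← Fintype.card_units, pow_card_eq_one, map_one]
    have h7 : ((((t (Units.map ι.toMonoidHom a)) ^ (p ^ (κ σ).val) : ℂˣ) : ℂ)) ^ ((Fintype.card k : ℤ) - 1) = 1 := by
      have h8 : ((Fintype.card k : ℤ) - 1) = ((Fintype.card k - 1 : ℕ) : ℤ) := by
        rw [Nat.cast_sub Fintype.card_pos, Nat.cast_one]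
      rw [h8, zpow_natCast, ← Units.val_pow_eq_pow_val, ← pow_mul, mul_comm, pow_mul, ← map_pow, h6,
        map_one, one_pow, Units.val_one]
    rw [h7, _root_.one_zpow, one_mul]
  rw [Finset.prod_congr rfl (fun σ _ => h4 σ)]
  ring

include hs hmult in
omit [CharP F p] [CharP k p] hp in
lemma same_shift (h h' : Wt S (n + 1)) (hh : Dom h) (hh' : Dom h')
    (hd : ∀ σ, ((Fintype.card k : ℤ) - 1) ∣ (∑ i, h' σ i) - ∑ i, h σ i) (w : D.W) :
    SameChar t D (mult h') w ↔ SameChar t D (mult h) w := by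
  have h1 : (wdim h : ℂ) ≠ 0 := by exact_mod_cast (wdim_pos h hh).ne'
  have h2 : (wdim h' : ℂ) ≠ 0 := by exact_mod_cast (wdim_pos h' hh').ne'
  have h3 := pair_sc ι κ t s hs D hmult h h' hh hh' hd 1
  rw [sc_one] at h3
  unfold SameChar
  apply forall_congr'
  intro a
  have h4 := pair_sc ι κ t s hs D hmult h h' hh hh' hd a
  constructor
  · intro h5
    apply mul_right_cancel₀ h2
    linear_combination (wdim h : ℂ) * h5 - D.br w (sc a) * h3 + D.br w 1 * h4
  · intro h5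
    apply mul_right_cancel₀ h1
    linear_combination (wdim h' : ℂ) * h5 + D.br w (sc a) * h3 - D.br w 1 * h4

include ht hs hirr hiso hϖ hπ₀ hr hθ hmult in
/-- effectivity -/
theorem main_eff (hn : n ≠ 0) [Nonempty S] (z : D.W → ℤ)
    (hz : ∀ h, Dom h → 0 ≤ ∑ w, (mult h w : ℤ) * z w) (h : Wt S (n + 1)) (hh : Dom h) :
    0 ≤ wsum t D r (mult h) z := by
  classical
  obtain ⟨B, hB⟩ := main_sign ι κ t ht s hs D hirr hiso hϖ π₀ hπ₀ r hr hn z
  by_contra hcon
  obtain ⟨σ₀⟩ := (inferInstance : Nonempty S)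
  have hq : (2 : ℤ) ≤ Fintype.card k := by exact_mod_cast Fintype.one_lt_card (α := k)
  set h' : Wt S (n + 1) := fun σ i => h σ i + if σ = σ₀ ∧ i = 0 then (B : ℤ) * ((Fintype.card k : ℤ) - 1) else 0 with hh'
  have hadd : (0 : ℤ) ≤ (B : ℤ) * ((Fintype.card k : ℤ) - 1) := by
    apply mul_nonneg (by positivity) (by linarith)
  have hdom : Dom h' := by
    intro σ i j hij
    have h1 := hh σ hij
    have hj : j ≠ 0 := fun h0 => by
      rw [h0] at hij
      exact absurd hij (Fin.not_lt_zero i)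
    simp only [hh']
    rw [if_neg (fun h0 : σ = σ₀ ∧ j = 0 => hj h0.2)]
    split_ifs <;> linarith
  have hlast : (Fin.last n) ≠ 0 := fun h0 => hn (by simpa using congrArg Fin.val h0)
  have hdiv : ∀ σ, ((Fintype.card k : ℤ) - 1) ∣ (∑ i, h' σ i) - ∑ i, h σ i := by
    intro σ
    rw [← Finset.sum_sub_distrib]
    apply Finset.dvd_sum
    intro i _
    simp only [hh', add_sub_cancel_left]
    split_ifs
    · exact dvd_mul_left _ _
    · exact dvd_zero _
  have hsum : wsum t D r (mult h') z = wsum t D r (mult h) z := by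
    unfold wsum
    refine Finset.sum_congr rfl fun w _ => ?_
    simp only [same_shift ι κ t s hs D hmult h h' hh hdom hdiv w]
  have h2 := (hB θ δ l hθ mult hmult h' hdom (Or.inl ⟨σ₀, by
    have h3 : h σ₀ (Fin.last n) ≤ h σ₀ 0 := (hh σ₀).antitone (Fin.zero_le (Fin.last n))
    have e0 : h' σ₀ 0 = h σ₀ 0 + (B : ℤ) * ((Fintype.card k : ℤ) - 1) := by simp [hh']
    have e1 : h' σ₀ (Fin.last n) = h σ₀ (Fin.last n) := by simp [hh', hlast]
    rw [e0, e1]
    nlinarith⟩)).2 (by rw [hsum]; omega)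
  have h4 := hz h' hdom
  omega

end Main

end Pool.Agent.H498.EQ
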