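import Pool.Agent.H498.EQ.Fin3
import Pool.Graph.R_pool_sql_team_seeded_63374d34.N28.BM.Avg

/-!
# Equidistribution of Serre weights: the vanishing of the main term
-/

set_option autoImplicit false

namespace Pool.Agent.H498.EQ

open Matrix Module Pool.Agent.N28.BM Pool.Agent.H498.BT

section Main

variable {k F : Type} [Field k] [Fintype k] [Field F] [IsAlgClosed F] (ι : k →+* F) {p f : ℕ}
  [hp : Fact p.Prime] [CharP F p] [CharP k p] {S : Type} [Fintype S] [DecidableEq S] {n : ℕ} (κ : S → ZMod f)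
  (t : Fˣ →* ℂˣ) (ht : Function.Injective t) (s : Wt S (n + 1) → P S (n + 1)) (hs : IsWeyl s)
  (D : SerreWeights k F (n + 1) t)

omit [IsAlgClosed F] [CharP k p] in
lemma eq_one_of_eigen (g : GL (Fin (n + 1)) k) (hg : ¬ p ∣ orderOf g) (hx : IsEigen ι g (fun _ => 1)) : g = 1 := by
  have h1 : ∃ c : k, (g : Matrix (Fin (n + 1)) (Fin (n + 1)) k) = c • 1 := by
    by_contra hcon
    obtain ⟨i, j, hij⟩ := exists_ne_eigen ι g hg _ hx hcon
    exact hij rfl
  obtain ⟨c, hc⟩ := h1
  have h2 : c = 1 := by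
    unfold IsEigen at hx
    rw [← Matrix.charpoly_map] at hx
    have h3 := congrArg (fun Q : Polynomial F => Q.eval (ι c)) hx
    simp only [Matrix.eval_charpoly, Polynomial.eval_prod, Polynomial.eval_sub, Polynomial.eval_X,
      Polynomial.eval_C, Units.val_one] at h3
    have h4 : Matrix.scalar (Fin (n + 1)) (ι c) - (g : Matrix (Fin (n + 1)) (Fin (n + 1)) k).map ι = 0 := by
      rw [hc, Matrix.scalar_apply, ← Matrix.smul_one_eq_diagonal]
      ext i j
      rw [Matrix.sub_apply, Matrix.map_apply, Matrix.smul_apply, Matrix.smul_apply, smul_eq_mul, smul_eq_mul,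
        map_mul, Matrix.one_apply, Matrix.one_apply, Matrix.zero_apply]
      split_ifs <;> simp
    rw [h4, Matrix.det_zero, Finset.prod_const, Finset.card_univ, Fintype.card_fin] at h3
    have h5 : ι c - 1 = 0 := pow_eq_zero_iff (by omega) |>.1 h3.symm
    apply ι.injective
    rw [map_one]
    exact sub_eq_zero.1 h5
  apply Units.ext
  rw [hc, h2, one_smul, Units.val_one]

include ht in
omit [IsAlgClosed F] [CharP k p] [Fintype S] [DecidableEq S] in
lemma geo_zero (g : GL (Fin (n + 1)) k) (x : Fin (n + 1) → Fˣ) (hx : IsEigen ι g x) (σ : S) (i : Fin (n + 1))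
    (hi : x i ≠ 1) : MvPolynomial.aeval (fun i => ((pnt κ p t x σ i : ℂˣ) : ℂ) ^ 1)
        (geo n (ordGL k (n + 1))) = 0 := by
  unfold geo
  rw [map_prod]
  apply Finset.prod_eq_zero (Finset.mem_univ i)
  simp only [map_sum, map_pow, MvPolynomial.aeval_X, pow_one]
  set y : ℂ := ((pnt κ p t x σ i : ℂˣ) : ℂ) with hy
  have hy1 : y ≠ 1 := by
    intro hc
    have h3 : pnt κ p t x σ i = 1 := Units.ext hc
    unfold pnt at h3
    rw [← map_pow] at h3
    have h4 : (x i) ^ (p ^ (κ σ).val) = 1 := ht (by rw [h3, map_one])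
    apply hi
    apply Units.ext
    have h5 : ((x i : Fˣ) : F) ^ (p ^ (κ σ).val) = 1 := by
      rw [← Units.val_pow_eq_pow_val, h4, Units.val_one]
    have h6 : (((x i : Fˣ) : F) - 1) ^ (p ^ (κ σ).val) = 0 := by
      rw [sub_pow_char_pow, h5, one_pow, sub_self]
    rw [Units.val_one]
    exact sub_eq_zero.mp (pow_eq_zero_iff (pow_ne_zero _ hp.out.ne_zero) |>.mp h6)
  have hyE : y ^ (ordGL k (n + 1)) = 1 := by
    rw [hy, ← Units.val_pow_eq_pow_val]
    unfold pnt
    rw [← pow_mul, mul_comm, pow_mul, ← map_pow, eigen_pow ι g x hx i, map_one, one_pow,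
      Units.val_one]
  rw [Fin.sum_univ_eq_sum_range (fun j => y ^ j)]
  have h3 := geom_sum_mul y (ordGL k (n + 1))
  rw [hyE, sub_self] at h3
  exact (mul_eq_zero.mp h3).resolve_right (sub_ne_zero.mpr hy1)

variable {O : Type} [CommRing O] [IsDomain O] [IsDiscreteValuationRing O] {ϖ : O}
  (π₀ : O →+* k)
  (hBr : LinearIndependent ℂ (fun (w : D.W) (g : {g : GL (Fin (n + 1)) k // ¬ p ∣ orderOf g}) => D.br w g))
  (r : D.W → ℕ) (hr : ∀ g : GL (Fin (n + 1)) k, ¬ p ∣ orderOf g → ∑ w, (r w : ℂ) * D.br w g =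
    open scoped Classical in if g = 1 then (Nat.card (GL (Fin (n + 1)) k) : ℂ) else 0)
  {θ : GL (Fin (n + 1)) k → ℂ} {δ l : ℕ} (hθ : IsType ϖ π₀ p θ δ l) {mult : Wt S (n + 1) → D.W → ℕ}
  (hmult : IsMult ι (p := p) κ t s D θ mult)

include ht hs hBr hr hθ hmult in
/-- the sum of the multiplicities over a cube -/
lemma cube_mult (σ : S) (h : Wt S (n + 1)) (hh : Dom h) (hg : Gap (ordGL k (n + 1)) σ h) (w : D.W) :
    ((∑ a : Fin (n + 1) → Fin (ordGL k (n + 1)), mult (h + cube σ a) w : ℕ) : ℂ) * Nat.card (GL (Fin (n + 1)) k) =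
      ((ordGL k (n + 1) : ℂ) ^ (n + 1) * wdim h * δ) * r w := by
  classical
  have hδ1 : θ 1 = δ := by
    obtain ⟨V, _, _, _, ρ, hirr, hsm, hδ, hred, hl⟩ := hθ
    rw [theta_one π₀ ρ hsm p θ hred, hδ]
  have hsum : ∀ g : GL (Fin (n + 1)) k, ¬ p ∣ orderOf g →
      ∑ w, ((∑ a : Fin (n + 1) → Fin (ordGL k (n + 1)), mult (h + cube σ a) w : ℕ) : ℂ) * D.br w g =
        if g = 1 then (ordGL k (n + 1) : ℂ) ^ (n + 1) * wdim h * δ else 0 := by
    intro g hgr
    obtain ⟨x, hx⟩ := list_eigen ι g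
    have h1 : ∑ w, ((∑ a : Fin (n + 1) → Fin (ordGL k (n + 1)), mult (h + cube σ a) w : ℕ) : ℂ) * D.br w g =
        evx (pnt κ p t x) (LF s (AddMonoidAlgebra.single h 1 * th σ 1 (geo n (ordGL k (n + 1))))) * θ g := by
      rw [LF_cube, map_sum, Finset.sum_mul]
      simp only [Nat.cast_sum, Finset.sum_mul]
      rw [Finset.sum_comm]
      refine Finset.sum_congr rfl fun a _ => ?_
      exact hmult _ (dom_cube h hh σ _ hg a) g x hx
    rw [h1, LF_mul s hs h _ (fun π => dc_th π σ 1 _ (geo_sym _)), map_mul, evx_th]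
    by_cases hx1 : ∀ i, x i = 1
    · have hx2 : x = fun _ => 1 := funext hx1
      rw [hx2] at hx ⊢
      have hg1 := eq_one_of_eigen ι g hgr hx
      rw [if_pos hg1, hg1, hδ1]
      have h2 : (pnt κ p t fun _ : Fin (n + 1) => (1 : Fˣ)) = fun (_ : S) (_ : Fin (n + 1)) => (1 : ℂˣ) := by
        funext σ i
        unfold pnt
        rw [map_one, one_pow]
      rw [h2, evx_one s hs]
      unfold geo
      rw [map_prod]
      simp only [map_sum, map_pow, MvPolynomial.aeval_X, Units.val_one, one_pow, Finset.sum_const,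
        Finset.card_univ, Fintype.card_fin, Finset.prod_const, nsmul_eq_mul, mul_one]
      ring
    · push Not at hx1
      obtain ⟨i, hi⟩ := hx1
      rw [geo_zero ι κ t ht g x hx σ i hi, mul_zero, zero_mul, if_neg]
      rintro rfl
      apply hi
      unfold IsEigen at hx
      have h3 := root_pow ((1 : Matrix (Fin (n + 1)) (Fin (n + 1)) F)) (fun i => ((x i : Fˣ) : F)) (by
        rw [← hx, Units.val_one, Matrix.charpoly_one, Matrix.charpoly_one]
        simp) 1 (by rw [pow_one]) i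
      apply Units.ext
      rw [Units.val_one, ← h3, pow_one]
  have h2 := (Fintype.linearIndependent_iff.1 hBr) (fun w =>
    ((∑ a : Fin (n + 1) → Fin (ordGL k (n + 1)), mult (h + cube σ a) w : ℕ) : ℂ) * Nat.card (GL (Fin (n + 1)) k) -
      ((ordGL k (n + 1) : ℂ) ^ (n + 1) * wdim h * δ) * r w) (by
    funext g
    rw [Finset.sum_apply, Pi.zero_apply]
    have h3 := hsum g.1 g.2
    have h4 := hr g.1 g.2
    have e1 : ∀ w, ((((∑ a : Fin (n + 1) → Fin (ordGL k (n + 1)), mult (h + cube σ a) w : ℕ) : ℂ) *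
        Nat.card (GL (Fin (n + 1)) k) - ((ordGL k (n + 1) : ℂ) ^ (n + 1) * wdim h * δ) * r w) •
        (fun (w : D.W) (g : {g : GL (Fin (n + 1)) k // ¬ p ∣ orderOf g}) => D.br w g) w) g =
        Nat.card (GL (Fin (n + 1)) k) * (((∑ a : Fin (n + 1) → Fin (ordGL k (n + 1)), mult (h + cube σ a) w : ℕ) : ℂ) *
          D.br w g) - ((ordGL k (n + 1) : ℂ) ^ (n + 1) * wdim h * δ) * ((r w : ℂ) * D.br w g) := by
      intro w
      rw [Pi.smul_apply, smul_eq_mul]
      ring
    rw [Finset.sum_congr rfl (fun w _ => e1 w), Finset.sum_sub_distrib, ← Finset.mul_sum, ← Finset.mul_sum, h3, h4]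
    split_ifs
    · ring
    · ring) w
  exact sub_eq_zero.1 h2

omit [Fintype k] [CharP F p] [CharP k p] hp [Fintype S] [DecidableEq S] in
lemma same_trans (hirr : ∀ w, IrrRep (D.rep w)) (m m' : D.W → ℕ) (hm : ∑ w, (m w : ℂ) * D.br w 1 ≠ 0) (w w0 : D.W)
    (h1 : SameChar t D m w) (h2 : SameChar t D m w0) (h3 : SameChar t D m' w0) : SameChar t D m' w := by
  intro a
  have e1 := h1 a
  have e2 := h2 a
  have e3 := h3 a
  have hb : D.br w0 1 ≠ 0 := by
    rw [br_one]
    exact_mod_cast (hirr w0).1.ne'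
  apply mul_right_cancel₀ (mul_ne_zero hm hb)
  linear_combination (∑ w', (m' w' : ℂ) * D.br w' 1) * D.br w0 1 * e1 -
    D.br w 1 * (∑ w', (m' w' : ℂ) * D.br w' 1) * e2 + D.br w 1 * (∑ w', (m w' : ℂ) * D.br w' 1) * e3

include ht hs hBr hr hθ hmult in
lemma deep_zero (hirr : ∀ w, IrrRep (D.rep w))
    (hinc : ∀ h, Dom h → ∀ w, ¬ SameChar t D (mult h) w → mult h w = 0) (z : D.W → ℤ)
    (hz : ∀ h, Dom h → 0 ≤ ∑ w, (mult h w : ℤ) * z w) (h : Wt S (n + 1)) (hh : Dom h) (σ : S)
    (hg : Gap (ordGL k (n + 1)) σ h) (hw : wsum t D r (mult h) z = 0) : ∑ w, (mult h w : ℤ) * z w = 0 := by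
  classical
  have hne : ∀ h, Dom h → ∑ w, (mult h w : ℂ) * D.br w 1 ≠ 0 := by
    intro h hh
    rw [pair_one ι κ t s hs D π₀ hθ hmult h hh]
    have hA0 : 0 < wdim h * (δ : ℝ) := mul_pos (wdim_pos h hh) (by exact_mod_cast delta_pos hθ)
    exact_mod_cast hA0.ne'
  set z' : D.W → ℤ := fun w => if SameChar t D (mult h) w then z w else 0 with hz'
  have hnn : ∀ a : Fin (n + 1) → Fin (ordGL k (n + 1)), 0 ≤ ∑ w, (mult (h + cube σ a) w : ℤ) * z' w := by
    intro a
    have hdom := dom_cube h hh σ _ hg a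
    by_cases hex : ∃ w0, mult (h + cube σ a) w0 ≠ 0 ∧ SameChar t D (mult h) w0
    · obtain ⟨w0, hw0, hw1⟩ := hex
      have hw2 : SameChar t D (mult (h + cube σ a)) w0 := by
        by_contra hcon
        exact hw0 (hinc _ hdom _ hcon)
      have e1 : ∑ w, (mult (h + cube σ a) w : ℤ) * z' w = ∑ w, (mult (h + cube σ a) w : ℤ) * z w := by
        refine Finset.sum_congr rfl fun w _ => ?_
        simp only [hz']
        split_ifs with hS
        · rfl
        · have h0 : mult (h + cube σ a) w = 0 := by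
            by_contra hcon
            have hS' : SameChar t D (mult (h + cube σ a)) w := by
              by_contra hcon'
              exact hcon (hinc _ hdom _ hcon')
            exact hS (same_trans t D hirr _ _ (hne _ hdom) w w0 hS' hw2 hw1)
          rw [h0]
          simp
      rw [e1]
      exact hz _ hdom
    · push Not at hex
      apply le_of_eq
      symm
      refine Finset.sum_eq_zero fun w _ => ?_
      simp only [hz']
      split_ifs with hS
      · have h0 : mult (h + cube σ a) w = 0 := by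
          by_contra hcon
          exact hex w hcon hS
        rw [h0]
        simp
      · rw [mul_zero]
  have htot : ∑ a : Fin (n + 1) → Fin (ordGL k (n + 1)), ∑ w, (mult (h + cube σ a) w : ℤ) * z' w = 0 := by
    have hG : (Nat.card (GL (Fin (n + 1)) k) : ℂ) ≠ 0 := by exact_mod_cast Nat.card_pos.ne'
    have e1 : ((∑ a : Fin (n + 1) → Fin (ordGL k (n + 1)), ∑ w, (mult (h + cube σ a) w : ℤ) * z' w : ℤ) : ℂ) *
        Nat.card (GL (Fin (n + 1)) k) = 0 := by
      rw [Finset.sum_comm]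
      have e2 : ∀ w, ∑ a : Fin (n + 1) → Fin (ordGL k (n + 1)), (mult (h + cube σ a) w : ℤ) * z' w =
          ((∑ a : Fin (n + 1) → Fin (ordGL k (n + 1)), mult (h + cube σ a) w : ℕ) : ℤ) * z' w := by
        intro w
        rw [← Finset.sum_mul]
        push_cast
        rfl
      rw [Finset.sum_congr rfl (fun w _ => e2 w)]
      rw [Int.cast_sum, Finset.sum_mul]
      have e3 : ∀ w, ((((∑ a : Fin (n + 1) → Fin (ordGL k (n + 1)), mult (h + cube σ a) w : ℕ) : ℤ) * z' w : ℤ) : ℂ) *
          Nat.card (GL (Fin (n + 1)) k) = ((ordGL k (n + 1) : ℂ) ^ (n + 1) * wdim h * δ) *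
            (((r w : ℤ) * z' w : ℤ) : ℂ) := by
        intro w
        have e4 := cube_mult ι κ t ht s hs D π₀ hBr r hr hθ hmult σ h hh hg w
        rw [Int.cast_mul, Int.cast_natCast, mul_right_comm, e4]
        push_cast
        ring
      rw [Finset.sum_congr rfl (fun w _ => e3 w), ← Finset.mul_sum, ← Int.cast_sum]
      have e5 : ∑ w, (r w : ℤ) * z' w = wsum t D r (mult h) z := by
        unfold wsum
        refine Finset.sum_congr rfl fun w _ => ?_
        simp only [hz']
        split_ifs <;> simp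
      rw [e5, hw, Int.cast_zero, mul_zero]
    rcases mul_eq_zero.1 e1 with e2 | e2
    · exact_mod_cast e2
    · exact absurd e2 hG
  have hpos : 0 < ordGL k (n + 1) := Nat.card_pos
  have h0 := (Finset.sum_eq_zero_iff_of_nonneg (fun a _ => hnn a)).1 htot (fun _ => ⟨0, hpos⟩) (Finset.mem_univ _)
  have hc0 : (h + cube σ (fun _ : Fin (n + 1) => (⟨0, hpos⟩ : Fin (ordGL k (n + 1))))) = h := by
    funext τ i
    unfold cube
    by_cases hτ : τ = σ
    · subst hτ
      simp
    · simp [Pi.single_eq_of_ne hτ]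
  rw [hc0] at h0
  rw [← h0]
  refine Finset.sum_congr rfl fun w _ => ?_
  simp only [hz']
  split_ifs with hS
  · rfl
  · rw [hinc h hh w hS]
    simp

omit [Field F] [IsAlgClosed F] [CharP F p] [CharP k p] hp in
lemma card_dvd : ((Fintype.card k : ℤ) - 1) ∣ (ordGL k (n + 1) : ℤ) := by
  classical
  have h1 : Nat.card kˣ ∣ Nat.card (GL (Fin (n + 1)) k) :=
    Subgroup.card_dvd_of_injective (Units.map (Matrix.scalar (Fin (n + 1))).toMonoidHom : kˣ →* GL (Fin (n + 1)) k)
      (fun a b h => sc_inj h)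
  rw [Nat.card_eq_fintype_card, Fintype.card_units] at h1
  have h2 : ((Fintype.card k : ℤ) - 1) = ((Fintype.card k - 1 : ℕ) : ℤ) := by
    rw [Nat.cast_sub Fintype.card_pos, Nat.cast_one]
  rw [h2]
  unfold ordGL
  exact_mod_cast h1

include ht hs hBr hr hθ hmult in
/-- if the main term vanishes then all values vanish -/
theorem all_zero (hirr : ∀ w, IrrRep (D.rep w))
    (hinc : ∀ h, Dom h → ∀ w, ¬ SameChar t D (mult h) w → mult h w = 0) (z : D.W → ℤ)
    (hz : ∀ h, Dom h → 0 ≤ ∑ w, (mult h w : ℤ) * z w) (h : Wt S (n + 1)) (hh : Dom h) (σ₀ : S)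
    (hw : wsum t D r (mult h) z = 0) : ∑ w, (mult h w : ℤ) * z w = 0 := by
  classical
  set v : Wt S (n + 1) := fun σ i => if σ = σ₀ then rho n i else 0 with hv
  have hval : ∀ (j : ℕ) σ i, (h + (j * ordGL k (n + 1)) • v) σ i = h σ i + (j * ordGL k (n + 1) : ℕ) * v σ i := by
    intro j σ i
    rw [Pi.add_apply, Pi.add_apply, Pi.smul_apply, Pi.smul_apply, nsmul_eq_mul]
  have hdom : ∀ j : ℕ, Dom (h + (j * ordGL k (n + 1)) • v) := by
    intro j σ i i' hii
    rw [hval, hval]
    have h1 := hh σ hii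
    have h2 : v σ i' ≤ v σ i := by
      simp only [hv]
      split_ifs
      · unfold rho
        have : (i : ℕ) < i' := hii
        omega
      · exact le_rfl
    have h3 : ((j * ordGL k (n + 1) : ℕ) : ℤ) * v σ i' ≤ ((j * ordGL k (n + 1) : ℕ) : ℤ) * v σ i :=
      mul_le_mul_of_nonneg_left h2 (by positivity)
    linarith
  have hdiv : ∀ j : ℕ, ∀ σ, ((Fintype.card k : ℤ) - 1) ∣ (∑ i, (h + (j * ordGL k (n + 1)) • v) σ i) - ∑ i, h σ i := by
    intro j σ
    rw [← Finset.sum_sub_distrib]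
    apply Finset.dvd_sum
    intro i _
    rw [hval, add_sub_cancel_left]
    push_cast
    exact ((card_dvd (k := k) (n := n)).mul_left _).mul_right _
  have hwj : ∀ j : ℕ, wsum t D r (mult (h + (j * ordGL k (n + 1)) • v)) z = 0 := by
    intro j
    rw [← hw]
    unfold wsum
    refine Finset.sum_congr rfl fun w _ => ?_
    simp only [same_shift ι κ t s hs D hmult h _ hh (hdom j) (hdiv j) w]
  have hzero : ∀ j : ℕ, j ≠ 0 → ∑ w, (mult (h + (j * ordGL k (n + 1)) • v) w : ℤ) * z w = 0 := by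
    intro j hj
    apply deep_zero ι κ t ht s hs D π₀ hBr r hr hθ hmult hirr hinc z hz _ (hdom j) σ₀ _ (hwj j)
    intro i
    rw [hval, hval]
    have h1 := hh σ₀ (Fin.castSucc_lt_succ (i := i))
    have h2 : v σ₀ i.castSucc = v σ₀ i.succ + 1 := by
      simp only [hv, if_true]
      unfold rho
      simp
      ring
    rw [h2]
    have h3 : 1 ≤ j := Nat.one_le_iff_ne_zero.2 hj
    have h4 : ordGL k (n + 1) ≤ j * ordGL k (n + 1) := Nat.le_mul_of_pos_left _ h3
    have h5 : (ordGL k (n + 1) : ℤ) ≤ ((j * ordGL k (n + 1) : ℕ) : ℤ) := by exact_mod_cast h4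
    rw [mul_add, mul_one]
    linarith
  have hrec : ∀ w, ∑ j ∈ Finset.range (ordW S (n + 1) + 1), cf (ordW S (n + 1)) j *
      (mult (h + (j * ordGL k (n + 1)) • v) w : ℤ) = 0 := by
    apply Fintype.linearIndependent_iff.mp D.indep
    funext g
    obtain ⟨x, hx⟩ := list_eigen ι g
    rw [Finset.sum_apply, Pi.zero_apply]
    have h1 := ev_rec ι κ t s hs g x hx h v
    have h2 := congrArg (fun y => y * θ g) h1
    simp only [zero_mul, Finset.sum_mul] at h2
    rw [← h2]
    simp only [Pi.smul_apply, Finset.sum_smul]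
    rw [Finset.sum_comm]
    refine Finset.sum_congr rfl fun j _ => ?_
    rw [smul_mul_assoc, ← hmult _ (hdom j) g x hx, Finset.smul_sum]
    refine Finset.sum_congr rfl fun w _ => ?_
    rw [zsmul_eq_mul, zsmul_eq_mul]
    push_cast
    ring
  have htot : ∑ j ∈ Finset.range (ordW S (n + 1) + 1), cf (ordW S (n + 1)) j *
      ∑ w, (mult (h + (j * ordGL k (n + 1)) • v) w : ℤ) * z w = 0 := by
    simp only [Finset.mul_sum]
    rw [Finset.sum_comm]
    refine Finset.sum_eq_zero fun w _ => ?_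
    have h1 := congrArg (fun y => y * z w) (hrec w)
    simp only [zero_mul, Finset.sum_mul] at h1
    rw [← h1]
    refine Finset.sum_congr rfl fun j _ => ?_
    ring
  rw [Finset.sum_eq_single 0] at htot
  · rw [Nat.zero_mul, zero_smul, add_zero] at htot
    have hcf : cf (ordW S (n + 1)) 0 ≠ 0 := by
      unfold cf
      simp
    exact (mul_eq_zero.1 htot).resolve_left hcf
  · intro j _ hj
    rw [hzero j hj, mul_zero]
  · intro h0
    exact absurd (Finset.mem_range.2 (Nat.succ_pos _)) h0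

end Main

end Pool.Agent.H498.EQ
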