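import Pool.Agent.H498.EQ.Fin4

/-!
# Equidistribution of Serre weights: the dichotomy
-/

set_option autoImplicit false

namespace Pool.Agent.H498.EQ

open Matrix Module Pool.Agent.N28.BM Pool.Agent.H498.BT

section Main

variable {k F : Type} [Field k] [Fintype k] [Field F] [IsAlgClosed F] (ι : k →+* F) {p f : ℕ}
  [hp : Fact p.Prime] [CharP F p] [CharP k p] {S : Type} [Fintype S] [DecidableEq S] {n : ℕ} (κ : S → ZMod f)
  (t : Fˣ →* ℂˣ) (ht : Function.Injective t) (s : Wt S (n + 1) → P S (n + 1)) (hs : IsWeyl s)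
  (D : SerreWeights k F (n + 1) t)
  (hirr : ∀ w, IrrRep (D.rep w)) (hiso : ∀ w w', w ≠ w' → ¬ IsoRep (D.rep w) (D.rep w'))
  {O : Type} [CommRing O] [IsDomain O] [IsDiscreteValuationRing O] {ϖ : O} (hϖ : Irreducible ϖ)
  (π₀ : O →+* k) (hπ₀ : Function.Surjective π₀)
  (r : D.W → ℕ) (hr0 : ∀ w, 0 < r w) (hr : ∀ g : GL (Fin (n + 1)) k, ¬ p ∣ orderOf g → ∑ w, (r w : ℂ) * D.br w g =
    open scoped Classical in if g = 1 then (Nat.card (GL (Fin (n + 1)) k) : ℂ) else 0)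

/-- The scalar matrices act by the same character on the representations with the multiplicities `m` and `m'`. -/
def SamePair (m m' : D.W → ℕ) : Prop :=
  ∀ a : kˣ, (∑ w, (m w : ℂ) * D.br w (sc a)) * ∑ w, (m' w : ℂ) * D.br w 1 =
    (∑ w, (m w : ℂ) * D.br w 1) * ∑ w, (m' w : ℂ) * D.br w (sc a)

/-- The Hodge type or the inertial type is large. -/
def Far (B l : ℕ) (h : Wt S (n + 1)) : Prop := (∃ σ, (B : ℤ) ≤ h σ 0 - h σ (Fin.last n)) ∨ B ≤ l

omit [Fintype k] [IsAlgClosed F] [CharP F p] [CharP k p] hp [Fintype S] [DecidableEq S] in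
lemma same_of_pair (m m' : D.W → ℕ) (hm : ∑ w, (m w : ℂ) * D.br w 1 ≠ 0) (hm' : ∑ w, (m' w : ℂ) * D.br w 1 ≠ 0)
    (h : SamePair t D m m') (w : D.W) : SameChar t D m w ↔ SameChar t D m' w := by
  unfold SameChar
  apply forall_congr'
  intro a
  have h1 := h a
  constructor
  · intro h2
    apply mul_right_cancel₀ hm
    linear_combination (∑ w, (m' w : ℂ) * D.br w 1) * h2 + D.br w 1 * h1
  · intro h2
    apply mul_right_cancel₀ hm'
    linear_combination (∑ w, (m w : ℂ) * D.br w 1) * h2 - D.br w 1 * h1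

include ht hs hirr hiso hϖ hπ₀ hr in
theorem main_dich (hn : n ≠ 0) [Nonempty S] (z : D.W → ℤ) : ∃ B : ℕ,
    ∀ (θ : GL (Fin (n + 1)) k → ℂ) (δ l : ℕ), IsType ϖ π₀ p θ δ l → ∀ mult : Wt S (n + 1) → D.W → ℕ,
      IsMult ι (p := p) κ t s D θ mult → (∀ h, Dom h → 0 ≤ ∑ w, (mult h w : ℤ) * z w) →
    ∀ (θ' : GL (Fin (n + 1)) k → ℂ) (δ' l' : ℕ), IsType ϖ π₀ p θ' δ' l' → ∀ mult' : Wt S (n + 1) → D.W → ℕ,
      IsMult ι (p := p) κ t s D θ' mult' → 
    ∀ h h' : Wt S (n + 1), Dom h → Dom h' → SamePair t D (mult h) (mult' h') →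
      0 ≤ wsum t D r (mult h) z ∧
      (0 < ∑ w, (mult h w : ℤ) * z w → Far B l' h' → 0 < ∑ w, (mult' h' w : ℤ) * z w) := by
  classical
  have hBr := brauer p t ht D.dim D.rep hirr hiso D.br D.br_eq
  obtain ⟨B, hB⟩ := main_sign ι κ t ht s hs D hirr hiso hϖ π₀ hπ₀ r hr hn z
  obtain ⟨C, _, hb⟩ := main_bound ι κ t ht s hs D hirr hiso hϖ π₀ hπ₀ r hr
  obtain ⟨σ₀⟩ := (inferInstance : Nonempty S)
  refine ⟨B, ?_⟩
  intro θ δ l hθ mult hmult hz θ' δ' l' hθ' mult' hmult' h h' hh hh' hpair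
  have heff := main_eff ι κ t ht s hs D hirr hiso hϖ π₀ hπ₀ r hr hθ hmult hn z hz h hh
  refine ⟨heff, ?_⟩
  intro hpos hfar
  have hne : ∑ w, (mult h w : ℂ) * D.br w 1 ≠ 0 := by
    rw [pair_one ι κ t s hs D π₀ hθ hmult h hh]
    have hA0 : 0 < wdim h * (δ : ℝ) := mul_pos (wdim_pos h hh) (by exact_mod_cast delta_pos hθ)
    exact_mod_cast hA0.ne'
  have hne' : ∑ w, (mult' h' w : ℂ) * D.br w 1 ≠ 0 := by
    rw [pair_one ι κ t s hs D π₀ hθ' hmult' h' hh']
    have hA0 : 0 < wdim h' * (δ' : ℝ) := mul_pos (wdim_pos h' hh') (by exact_mod_cast delta_pos hθ')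
    exact_mod_cast hA0.ne'
  have hA : 0 < wsum t D r (mult h) z := by
    rcases heff.lt_or_eq with h1 | h1
    · exact h1
    · exfalso
      have h2 := all_zero ι κ t ht s hs D π₀ hBr r hr hθ hmult hirr
        (fun h hh w => (hb θ δ l hθ mult hmult h hh w).1) z hz h hh σ₀ h1.symm
      omega
  have hA' : wsum t D r (mult' h') z = wsum t D r (mult h) z := by
    unfold wsum
    refine Finset.sum_congr rfl fun w _ => ?_
    simp only [same_of_pair t D _ _ hne hne' hpair w]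
  exact (hB θ' δ' l' hθ' mult' hmult' h' hh' hfar).1 (by rw [hA']; exact hA)

end Main

end Pool.Agent.H498.EQ
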