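import Mathlib

/-!
# Double commutators of matrices
-/

set_option autoImplicit false

namespace Pool.Agent.H498.EQ

open Matrix

section LA

variable {k : Type} [Field k] {n : Type} [Fintype n] [DecidableEq n]

/-- the commutator -/
def cm {R : Type} [CommRing R] (A B : Matrix n n R) : Matrix n n R := A * B - B * A

lemma central_scalar (A : Matrix n n k) (h : ∀ Z, A * Z = Z * A) : ∃ c : k, A = c • (1 : Matrix n n k) := by
  have h1 : A ∈ Set.range (Matrix.scalar n) := by
    rw [Matrix.mem_range_scalar_iff_commute_single']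
    intro i j
    exact (h _).symm
  obtain ⟨c, hc⟩ := h1
  refine ⟨c, ?_⟩
  rw [← hc, Matrix.scalar_apply, ← Matrix.smul_one_eq_diagonal]

lemma cm_pow (y : Matrix n n k) (h : ∀ Z, cm y (cm y Z) = 0) (m : ℕ) (Z : Matrix n n k) :
    cm (y ^ (m + 1)) Z = ((m + 1 : ℕ) : k) • (y ^ m * cm y Z) := by
  induction m with
  | zero => simp
  | succ m ih =>
    have h1 : cm (y ^ (m + 1 + 1)) Z = y * cm (y ^ (m + 1)) Z + cm y Z * y ^ (m + 1) := by
      unfold cm
      rw [pow_succ' y (m + 1)]
      noncomm_ring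
    have h2 : ∀ N : ℕ, cm y Z * y ^ N = y ^ N * cm y Z := by
      intro N
      have h3 : Commute (cm y Z) y := by
        have := h Z
        unfold cm at this
        rw [sub_eq_zero] at this
        exact this.symm
      exact h3.pow_right N
    rw [h1, ih, h2, mul_smul_comm, ← mul_assoc, ← pow_succ', ← add_one_smul_aux]
where
  add_one_smul_aux {M : Matrix n n k} {m : ℕ} : ((m + 1 : ℕ) : k) • M + M = ((m + 1 + 1 : ℕ) : k) • M := by
    rw [Nat.cast_succ (m + 1), add_smul, one_smul]

/-- If `[y, [y, Z]] = 0` for all `Z` and the order of `y` is prime to `p`, then `y` is scalar. -/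
lemma scalar_of_sq (p : ℕ) [hp : Fact p.Prime] [CharP k p] (y : Matrix n n k) (m : ℕ) (hm : ¬ p ∣ m) (hym : y ^ m = 1)
    (h : ∀ Z, cm y (cm y Z) = 0) : ∃ c : k, y = c • (1 : Matrix n n k) := by
  apply central_scalar
  intro Z
  have h1 : ∀ Z, Commute (y ^ p) Z := by
    intro Z
    obtain ⟨p', hp'⟩ : ∃ p', p = p' + 1 := ⟨p - 1, by have := hp.out.pos; omega⟩
    have h2 := cm_pow y h p' Z
    rw [← hp', CharP.cast_eq_zero, zero_smul] at h2
    unfold cm at h2
    exact sub_eq_zero.1 h2
  have hcop : Nat.Coprime p m := (Nat.Prime.coprime_iff_not_dvd hp.out).2 hm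
  obtain ⟨a, b, hab⟩ : ∃ a b : ℕ, p * a = 1 + m * b := inv_mod hcop hm hp.out.pos
  have h3 : y = (y ^ p) ^ a := by
    rw [← pow_mul, hab, pow_add, pow_one, pow_mul, hym, one_pow, mul_one]
  rw [h3]
  exact ((h1 Z).pow_left a).eq
where
  inv_mod {p m : ℕ} (h : Nat.Coprime p m) (hm : ¬ p ∣ m) (hp0 : 0 < p) :
      ∃ a b : ℕ, p * a = 1 + m * b := by
    have hm0 : m ≠ 0 := by rintro rfl; exact hm (dvd_zero p)
    rcases Nat.lt_or_ge 1 m with h1 | h1
    · obtain ⟨a, _, ha⟩ := Nat.exists_mul_mod_eq_one_of_coprime h h1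
      refine ⟨a, p * a / m, ?_⟩
      have := Nat.div_add_mod (p * a) m
      omega
    · have : m = 1 := by omega
      subst this
      exact ⟨1, p - 1, by omega⟩

/-- If `[β, [y, Z]] = 0` for all `Z` then `β` or `y` is scalar (the order of `y` is prime to `p`). -/
theorem scalar_of_cm (p : ℕ) [hp : Fact p.Prime] [CharP k p] (β y : Matrix n n k) (m : ℕ) (hm : ¬ p ∣ m) (hym : y ^ m = 1)
    (hy : ¬ ∃ c : k, y = c • (1 : Matrix n n k)) (h : ∀ Z, cm β (cm y Z) = 0) :
    ∃ c : k, β = c • (1 : Matrix n n k) := by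
  classical
  have hE : ∀ X Z, cm y X * cm β Z + cm β X * cm y Z = 0 := by
    intro X Z
    have h1 := h (X * Z)
    have h2 := h X
    have h3 := h Z
    have h4 : cm β (cm y (X * Z)) = cm β (cm y X) * Z + cm y X * cm β Z + cm β X * cm y Z + X * cm β (cm y Z) := by
      unfold cm
      noncomm_ring
    rw [h1, h2, h3, zero_mul, mul_zero, zero_add, add_zero] at h4
    exact h4.symm
  have hF : ∀ X Z V, cm y X * Z * cm β V + cm β X * Z * cm y V = 0 := by
    intro X Z V
    have h1 := hE X (Z * V)
    have h2 := hE X Z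
    have h3 : cm β (Z * V) = cm β Z * V + Z * cm β V := by unfold cm; noncomm_ring
    have h4 : cm y (Z * V) = cm y Z * V + Z * cm y V := by unfold cm; noncomm_ring
    rw [h3, h4] at h1
    have h5 : cm y X * Z * cm β V + cm β X * Z * cm y V =
        (cm y X * (cm β Z * V + Z * cm β V) + cm β X * (cm y Z * V + Z * cm y V)) -
          (cm y X * cm β Z + cm β X * cm y Z) * V := by noncomm_ring
    rw [h5, h1, h2, zero_mul, sub_zero]
  have hT : ∀ X V i j a b, cm y X i j * cm β V a b + cm β X i j * cm y V a b = 0 := by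
    intro X V i j a b
    have h1 := congrFun (congrFun (hF X (Matrix.single j a 1) V) i) b
    rw [Matrix.add_apply, Matrix.zero_apply] at h1
    have h2 : ∀ A B : Matrix n n k, (A * (Matrix.single j a (1 : k) : Matrix n n k) * B) i b = A i j * B a b := by
      intro A B
      rw [Matrix.mul_apply, Finset.sum_eq_single a]
      · rw [Matrix.mul_single_apply_same, mul_one]
      · intro c _ hc
        rw [Matrix.mul_single_apply_of_ne _ _ _ _ _ hc, zero_mul]
      · intro h; exact absurd (Finset.mem_univ _) h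
    rwa [h2, h2] at h1
  have hne : ∃ X, cm y X ≠ 0 := by
    by_contra hcon
    push Not at hcon
    apply hy
    apply central_scalar
    intro Z
    have := hcon Z
    unfold cm at this
    exact sub_eq_zero.1 this
  obtain ⟨X, hX⟩ := hne
  obtain ⟨i, j, hij⟩ : ∃ i j, cm y X i j ≠ 0 := by
    by_contra hcon
    push Not at hcon
    exact hX (Matrix.ext hcon)
  set c := -(cm β X i j / cm y X i j) with hc
  have h1 : ∀ V, cm β V = c • cm y V := by
    intro V
    ext a b
    have h2 := hT X V i j a b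
    rw [Matrix.smul_apply, smul_eq_mul, hc]
    field_simp
    linear_combination h2
  have h2 : ∃ μ : k, β - c • y = μ • (1 : Matrix n n k) := by
    apply central_scalar
    intro Z
    have h3 := h1 Z
    unfold cm at h3
    rw [sub_mul, mul_sub, smul_mul_assoc, mul_smul_comm, sub_eq_sub_iff_sub_eq_sub, h3, smul_sub]
  obtain ⟨μ, hμ⟩ := h2
  by_cases hc0 : c = 0
  · refine ⟨μ, ?_⟩
    rw [← hμ, hc0, zero_smul, sub_zero]
  · exfalso
    apply hy
    apply scalar_of_sq p y m hm hym
    intro Z
    have h4 := h Z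
    rw [h1] at h4
    exact (smul_eq_zero.1 h4).resolve_left hc0

/-- The double commutators span the matrices of trace zero. -/
theorem span_cm (p : ℕ) [hp : Fact p.Prime] [CharP k p] (y : Matrix n n k) (m : ℕ) (hm : ¬ p ∣ m) (hym : y ^ m = 1)
    (hy : ¬ ∃ c : k, y = c • (1 : Matrix n n k)) (X : Matrix n n k) (hX : X.trace = 0) :
    X ∈ Submodule.span k {Y | ∃ Z V, Y = cm (cm y Z) V} := by
  classical
  by_contra hcon
  obtain ⟨f, hf1, hf2⟩ := Submodule.exists_dual_map_eq_bot_of_notMem hcon inferInstance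
  have hf3 : ∀ Z V, f (cm (cm y Z) V) = 0 := by
    intro Z V
    have h1 : f (cm (cm y Z) V) ∈ (Submodule.span k {Y | ∃ Z V, Y = cm (cm y Z) V}).map f :=
      ⟨_, Submodule.subset_span ⟨Z, V, rfl⟩, rfl⟩
    rw [hf2] at h1
    exact (Submodule.mem_bot k).1 h1
  set β : Matrix n n k := Matrix.of fun j i => f (Matrix.single i j 1) with hβ
  have hfβ : ∀ Y, f Y = (β * Y).trace := by
    intro Y
    conv_lhs => rw [Matrix.matrix_eq_sum_single Y]
    rw [map_sum, Matrix.trace]
    simp only [Matrix.diag_apply, Matrix.mul_apply]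
    rw [Finset.sum_comm]
    refine Finset.sum_congr rfl fun i _ => ?_
    rw [map_sum]
    refine Finset.sum_congr rfl fun j _ => ?_
    have h1 : Matrix.single i j (Y i j) = Y i j • Matrix.single i j (1 : k) := by
      rw [Matrix.smul_single, smul_eq_mul, mul_one]
    rw [h1, map_smul, smul_eq_mul, hβ, Matrix.of_apply, mul_comm]
  have h2 : ∀ Z, cm β (cm y Z) = 0 := by
    intro Z
    have h3 : ∀ V, (cm β (cm y Z) * V).trace = 0 := by
      intro V
      have h4 := hf3 Z V
      rw [hfβ] at h4
      have h5 : (β * cm (cm y Z) V).trace = (cm β (cm y Z) * V).trace := by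
        have e1 : β * cm (cm y Z) V = β * cm y Z * V - β * V * cm y Z := by
          show β * (cm y Z * V - V * cm y Z) = _
          noncomm_ring
        have e2 : cm β (cm y Z) * V = β * cm y Z * V - cm y Z * (β * V) := by
          show (β * cm y Z - cm y Z * β) * V = _
          noncomm_ring
        rw [e1, e2, Matrix.trace_sub, Matrix.trace_sub, Matrix.trace_mul_comm (β * V)]
      rwa [← h5]
    ext i j
    have h6 := h3 (Matrix.single j i 1)
    rw [Matrix.trace_mul_single] at h6
    simpa using h6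
  obtain ⟨c, hc⟩ := scalar_of_cm p β y m hm hym hy h2
  apply hf1
  rw [hfβ, hc, smul_mul_assoc, one_mul, Matrix.trace_smul, hX, smul_zero]

end LA

end Pool.Agent.H498.EQ
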