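import Pool.Agent.H498.EQ.LA
import Pool.Agent.H498.EQ.Cli

/-!
# Character ratios for the irreducible representations of `GL_d(O / ϖ ^ r)`
-/

set_option autoImplicit false

namespace Pool.Agent.H498.EQ

open Matrix

/-- `R` behaves like `O / ϖ ^ r`, with the residue field `k`. -/
structure Chain {R k : Type} [CommRing R] [Field k] (π : R →+* k) (ϖ : R) (r : ℕ) : Prop where
  surj : Function.Surjective π
  ker : ∀ x, π x = 0 ↔ ∃ y, x = ϖ * y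
  ann : ∀ i ≤ r, ∀ x, ϖ ^ i * x = 0 ↔ ∃ y, x = ϖ ^ (r - i) * y
  div : ∀ i, 1 ≤ i → ∀ x, (∃ y, x = ϖ ^ i * y) ∨ ∃ c, x * c = ϖ ^ (i - 1)
  reps : ∀ i ≤ r, ∃ (I : Type) (_ : Finite I) (a : I → R), Nat.card I = Nat.card k ^ i ∧
    ∀ x y, (∃ z, a x - a y = ϖ ^ i * z) → x = y

section Chain

variable {R k : Type} [CommRing R] [Field k] {π : R →+* k} {ϖ : R} {r : ℕ} (hC : Chain π ϖ r)

include hC in
lemma Chain.zero (i : ℕ) (hi : r ≤ i) (x : R) : ϖ ^ i * x = 0 := by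
  have h1 : ϖ ^ r * 1 = 0 := (hC.ann r le_rfl 1).2 ⟨1, by simp⟩
  rw [mul_one] at h1
  obtain ⟨j, rfl⟩ := Nat.exists_eq_add_of_le hi
  rw [pow_add, h1, zero_mul, zero_mul]

variable {d : ℕ}

include hC in
lemma Chain.zeroM (i : ℕ) (hi : r ≤ i) (X : Matrix (Fin d) (Fin d) R) : ϖ ^ i • X = 0 := by
  ext a b
  rw [Matrix.smul_apply, smul_eq_mul, hC.zero i hi, Matrix.zero_apply]

include hC in
lemma Chain.annM (i : ℕ) (hi : i ≤ r) (X : Matrix (Fin d) (Fin d) R) (h : ϖ ^ i • X = 0) :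
    ∃ Y : Matrix (Fin d) (Fin d) R, X = ϖ ^ (r - i) • Y := by
  have h1 : ∀ a b, ∃ y, X a b = ϖ ^ (r - i) * y := by
    intro a b
    apply (hC.ann i hi _).1
    have := congrFun (congrFun h a) b
    simpa using this
  choose Y hY using h1
  exact ⟨Matrix.of Y, by ext a b; rw [hY]; rfl⟩

include hC in
lemma Chain.kerM (X : Matrix (Fin d) (Fin d) R) (h : X.map π = 0) : ∃ Y : Matrix (Fin d) (Fin d) R, X = ϖ • Y := by
  have h1 : ∀ a b, ∃ y, X a b = ϖ * y := by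
    intro a b
    apply (hC.ker _).1
    exact congrFun (congrFun h a) b
  choose Y hY using h1
  exact ⟨Matrix.of Y, by ext a b; rw [hY]; rfl⟩

include hC in
lemma Chain.surjM (X : Matrix (Fin d) (Fin d) k) : ∃ Y : Matrix (Fin d) (Fin d) R, Y.map π = X := by
  choose f hf using fun (ab : Fin d × Fin d) => hC.surj (X ab.1 ab.2)
  exact ⟨Matrix.of fun a b => f (a, b), by ext a b; simp [hf]⟩

/-- the congruence subgroup `g ≡ 1 mod ϖ ^ (r - l)` -/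
def KL (ϖ : R) (l d : ℕ) : Subgroup (GL (Fin d) R) where
  carrier := {g | ϖ ^ l • (g : Matrix (Fin d) (Fin d) R) = ϖ ^ l • 1}
  mul_mem' := by
    intro a b ha hb
    show ϖ ^ l • ((a * b : GL (Fin d) R) : Matrix (Fin d) (Fin d) R) = ϖ ^ l • 1
    have ha' : ϖ ^ l • (a : Matrix (Fin d) (Fin d) R) = ϖ ^ l • 1 := ha
    have hb' : ϖ ^ l • (b : Matrix (Fin d) (Fin d) R) = ϖ ^ l • 1 := hb
    rw [Units.val_mul, ← smul_mul_assoc, ha', smul_mul_assoc, one_mul, hb']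
  one_mem' := rfl
  inv_mem' := by
    intro a ha
    have ha' : ϖ ^ l • (a : Matrix (Fin d) (Fin d) R) = ϖ ^ l • 1 := ha
    show ϖ ^ l • ((a⁻¹ : GL (Fin d) R) : Matrix (Fin d) (Fin d) R) = ϖ ^ l • 1
    have h1 := congrArg (fun M => M * ((a⁻¹ : GL (Fin d) R) : Matrix (Fin d) (Fin d) R)) ha'
    simp only [smul_mul_assoc] at h1
    rw [← Units.val_mul, mul_inv_cancel, Units.val_one, one_mul] at h1
    exact h1.symm

lemma mem_KL (l : ℕ) (g : GL (Fin d) R) : g ∈ KL ϖ l d ↔ ϖ ^ l • (g : Matrix (Fin d) (Fin d) R) = ϖ ^ l • 1 := Iff.rfl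

instance (l : ℕ) : (KL ϖ l d).Normal where
  conj_mem := by
    intro a ha g
    rw [mem_KL] at ha ⊢
    rw [Units.val_mul, Units.val_mul, ← smul_mul_assoc, ← mul_smul_comm, ha, mul_smul_comm, mul_one,
      smul_mul_assoc, ← Units.val_mul, mul_inv_cancel, Units.val_one]

include hC in
lemma Chain.sub_mul {l : ℕ} (hl : 2 * l ≤ r) (A B : Matrix (Fin d) (Fin d) R) (hA : ϖ ^ l • A = 0)
    (hB : ϖ ^ l • B = 0) : A * B = 0 := by
  obtain ⟨A', rfl⟩ := hC.annM l (by omega) A hA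
  obtain ⟨B', rfl⟩ := hC.annM l (by omega) B hB
  rw [smul_mul_assoc, mul_smul_comm, smul_smul, ← pow_add]
  exact hC.zeroM _ (by omega) _

include hC in
lemma KL_comm {l : ℕ} (hl : 2 * l ≤ r) : ∀ a ∈ KL ϖ l d, ∀ b ∈ KL ϖ l d, a * b = b * a := by
  intro a ha b hb
  have h1 : ϖ ^ l • ((a : Matrix (Fin d) (Fin d) R) - 1) = 0 := by
    rw [smul_sub, (mem_KL l a).1 ha, sub_self]
  have h2 : ϖ ^ l • ((b : Matrix (Fin d) (Fin d) R) - 1) = 0 := by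
    rw [smul_sub, (mem_KL l b).1 hb, sub_self]
  have h3 := hC.sub_mul hl _ _ h1 h2
  have h4 := hC.sub_mul hl _ _ h2 h1
  apply Units.ext
  rw [Units.val_mul, Units.val_mul]
  have h5 : (a : Matrix (Fin d) (Fin d) R) * b - b * a = (a - 1) * (b - 1) - (b - 1) * (a - 1) := by noncomm_ring
  rw [h3, h4, sub_zero] at h5
  exact sub_eq_zero.1 h5

include hC in
lemma Chain.mulM {a b : ℕ} (hab : r ≤ a + b) (X Y : Matrix (Fin d) (Fin d) R) :
    (ϖ ^ a • X) * (ϖ ^ b • Y) = 0 := by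
  rw [smul_mul_assoc, mul_smul_comm, smul_smul, ← pow_add]
  exact hC.zeroM _ hab _

lemma nc1 (A : Matrix (Fin d) (Fin d) R) (h : A * A = 0) : (1 + A) * (1 - A) = 1 := by
  have h2 : (1 + A) * (1 - A) = 1 - A * A := by noncomm_ring
  rw [h2, h, sub_zero]

lemma nc2 (A : Matrix (Fin d) (Fin d) R) (h : A * A = 0) : (1 - A) * (1 + A) = 1 := by
  have h2 : (1 - A) * (1 + A) = 1 - A * A := by noncomm_ring
  rw [h2, h, sub_zero]

lemma nc3 (A B : Matrix (Fin d) (Fin d) R) (h : A * B = 0) : (1 + A) * (1 + B) = 1 + (A + B) := by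
  have h2 : (1 + A) * (1 + B) = 1 + (A + B) + A * B := by noncomm_ring
  rw [h2, h, add_zero]

/-- the element `1 + ϖ ^ (r - l) X` -/
def uK {l : ℕ} (hC : Chain π ϖ r) (hl : 2 * l ≤ r) (X : Matrix (Fin d) (Fin d) R) : KL ϖ l d :=
  ⟨⟨1 + ϖ ^ (r - l) • X, 1 - ϖ ^ (r - l) • X, nc1 _ (hC.mulM (by omega) X X),
    nc2 _ (hC.mulM (by omega) X X)⟩, by
    rw [mem_KL]
    show ϖ ^ l • (1 + ϖ ^ (r - l) • X) = ϖ ^ l • 1
    have h0 : ϖ ^ l • ϖ ^ (r - l) • X = 0 := by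
      rw [smul_smul, ← pow_add]
      exact hC.zeroM _ (by omega) _
    rw [smul_add, h0, add_zero]⟩

lemma uK_val {l : ℕ} (hl : 2 * l ≤ r) (X : Matrix (Fin d) (Fin d) R) :
    (((uK hC hl X : KL ϖ l d) : GL (Fin d) R) : Matrix (Fin d) (Fin d) R) = 1 + ϖ ^ (r - l) • X := rfl

/-- the additive character -/
def lam {l : ℕ} (hC : Chain π ϖ r) (hl : 2 * l ≤ r) (ψ : KL ϖ l d →* ℂˣ) (X : Matrix (Fin d) (Fin d) R) : ℂˣ :=
  ψ (uK hC hl X)

lemma lam_congr {l : ℕ} (hl : 2 * l ≤ r) (ψ : KL ϖ l d →* ℂˣ) (X Y : Matrix (Fin d) (Fin d) R)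
    (h : ϖ ^ (r - l) • X = ϖ ^ (r - l) • Y) : lam hC hl ψ X = lam hC hl ψ Y := by
  unfold lam
  congr 1
  apply Subtype.ext
  apply Units.ext
  rw [uK_val, uK_val, h]

lemma lam_add {l : ℕ} (hl : 2 * l ≤ r) (ψ : KL ϖ l d →* ℂˣ) (X Y : Matrix (Fin d) (Fin d) R) :
    lam hC hl ψ (X + Y) = lam hC hl ψ X * lam hC hl ψ Y := by
  unfold lam
  rw [← map_mul]
  congr 1
  apply Subtype.ext
  apply Units.ext
  rw [Subgroup.coe_mul, Units.val_mul, uK_val, uK_val, uK_val]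
  rw [nc3 _ _ (hC.mulM (by omega) X Y), smul_add]

lemma lam_zero {l : ℕ} (hl : 2 * l ≤ r) (ψ : KL ϖ l d →* ℂˣ) : lam hC hl ψ (0 : Matrix (Fin d) (Fin d) R) = 1 := by
  have h1 := lam_add hC hl ψ 0 0
  rw [add_zero] at h1
  exact (mul_eq_left.1 h1.symm)

lemma lam_neg {l : ℕ} (hl : 2 * l ≤ r) (ψ : KL ϖ l d →* ℂˣ) (X : Matrix (Fin d) (Fin d) R) :
    lam hC hl ψ (-X) = (lam hC hl ψ X)⁻¹ := by
  rw [eq_inv_iff_mul_eq_one, ← lam_add, neg_add_cancel, lam_zero]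

/-- the conjugates which fix `ψ` -/
lemma lam_cm {l : ℕ} (hl : 2 * l ≤ r) (ψ : KL ϖ l d →* ℂˣ) (y : GL (Fin d) R)
    (h : ∀ n : KL ϖ l d, ψ ⟨y * n * y⁻¹ * (n : GL (Fin d) R)⁻¹, comm_mem (KL ϖ l d) _ n⟩ = 1)
    (Z : Matrix (Fin d) (Fin d) R) : lam hC hl ψ (cm (y : Matrix (Fin d) (Fin d) R) Z) = 1 := by
  rw [← h (uK hC hl (Z * y))]
  unfold lam
  congr 1
  apply Subtype.ext
  apply Units.ext
  rw [uK_val]
  show _ = (y : Matrix (Fin d) (Fin d) R) * (1 + ϖ ^ (r - l) • (Z * y)) * ((y⁻¹ : GL (Fin d) R) : Matrix (Fin d) (Fin d) R) *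
    (1 - ϖ ^ (r - l) • (Z * y))
  have e1 : (y : Matrix (Fin d) (Fin d) R) * ((y⁻¹ : GL (Fin d) R) : Matrix (Fin d) (Fin d) R) = 1 := by
    rw [← Units.val_mul, mul_inv_cancel, Units.val_one]
  have e2 : (y : Matrix (Fin d) (Fin d) R) * (1 + ϖ ^ (r - l) • (Z * y)) * ((y⁻¹ : GL (Fin d) R) : Matrix (Fin d) (Fin d) R) =
      1 + ϖ ^ (r - l) • (y * Z) := by
    rw [mul_add, mul_one, add_mul, e1, mul_smul_comm, smul_mul_assoc, mul_assoc, mul_assoc, e1, mul_one]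
  rw [e2]
  have h1 : (ϖ ^ (r - l) • ((y : Matrix (Fin d) (Fin d) R) * Z)) * (ϖ ^ (r - l) • (Z * y)) = 0 := by
    rw [smul_mul_assoc, mul_smul_comm, smul_smul, ← pow_add]
    exact hC.zeroM _ (by omega) _
  rw [add_mul, one_mul, mul_sub, mul_one, h1, sub_zero]
  unfold cm
  rw [smul_sub]
  abel

end Chain

end Pool.Agent.H498.EQ
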