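import Pool.Agent.H498.EQ.Lev

/-!
# Character ratios for the irreducible representations of `GL_d(O / ϖ ^ r)`, continued
-/

set_option autoImplicit false

namespace Pool.Agent.H498.EQ

open Matrix

section Phi

variable {R k : Type} [CommRing R] [Field k] {π : R →+* k} {ϖ : R} {r : ℕ} (hC : Chain π ϖ r) {d : ℕ}

lemma phi_congr {l : ℕ} (hl : 2 * l ≤ r) (hl1 : 1 ≤ l) (ψ : KL ϖ l d →* ℂˣ) (X Y : Matrix (Fin d) (Fin d) R)
    (h : X.map π = Y.map π) : lam hC hl ψ (ϖ ^ (l - 1) • X) = lam hC hl ψ (ϖ ^ (l - 1) • Y) := by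
  apply lam_congr
  have h1 : (X - Y).map π = 0 := by
    ext a b
    have := congrFun (congrFun h a) b
    simp only [Matrix.map_apply] at this
    simp [this]
  obtain ⟨Z, hZ⟩ := hC.kerM _ h1
  have h2 : X = Y + ϖ • Z := by rw [← hZ]; abel
  rw [h2, smul_smul, smul_smul, smul_add, smul_smul, ← pow_add, ← pow_succ]
  rw [hC.zeroM (r - l + (l - 1) + 1) (by omega), add_zero]

lemma phi_span (p : ℕ) [hp : Fact p.Prime] [CharP k p] {l : ℕ} (hl : 2 * l ≤ r) (hl1 : 1 ≤ l)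
    (ψ : KL ϖ l d →* ℂˣ) (y : Matrix (Fin d) (Fin d) R) (m : ℕ) (hm : ¬ p ∣ m) (hym : (y.map π) ^ m = 1)
    (hy : ¬ ∃ c : k, y.map π = c • (1 : Matrix (Fin d) (Fin d) k))
    (h : ∀ Z0 Z1, lam hC hl ψ (ϖ ^ (l - 1) • cm (cm Z0 y) Z1) = 1)
    (X : Matrix (Fin d) (Fin d) R) (hX : π X.trace = 0) : lam hC hl ψ (ϖ ^ (l - 1) • X) = 1 := by
  have hmem := span_cm p (y.map π) m hm hym hy (X.map π) (by rw [← hX]; simp [Matrix.trace])
  have key : ∀ W ∈ Submodule.span k {Y | ∃ Z V, Y = cm (cm (y.map π) Z) V},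
      ∀ c : k, ∀ X' : Matrix (Fin d) (Fin d) R, X'.map π = c • W → lam hC hl ψ (ϖ ^ (l - 1) • X') = 1 := by
    intro W hW
    induction hW using Submodule.span_induction with
    | mem W hW =>
      obtain ⟨Z, V, rfl⟩ := hW
      intro c X' hX'
      obtain ⟨Z', hZ'⟩ := hC.surjM Z
      obtain ⟨V', hV'⟩ := hC.surjM (c • V)
      rw [← h Z' (-V')]
      apply phi_congr hC hl hl1
      rw [hX']
      have e : (cm (cm Z' y) (-V')).map π = cm (cm (Z'.map π) (y.map π)) (-(V'.map π)) := by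
        unfold cm
        simp only [Matrix.map_sub, Matrix.map_mul, map_sub, Matrix.map_neg, map_neg, implies_true]
      rw [e, hZ', hV']
      have e1 : cm Z (y.map π) = - cm (y.map π) Z := by unfold cm; abel
      rw [e1]
      generalize cm (y.map π) Z = A
      unfold cm
      rw [neg_mul_neg, neg_mul_neg, mul_smul_comm, smul_mul_assoc, smul_sub]
    | zero =>
      intro c X' hX'
      rw [← lam_zero hC hl ψ, ← smul_zero (ϖ ^ (l - 1))]
      apply phi_congr hC hl hl1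
      rw [hX']
      ext a b
      simp
    | add W1 W2 _ _ h1 h2 =>
      intro c X' hX'
      obtain ⟨X1, hX1⟩ := hC.surjM (c • W1)
      have h3 := h1 c X1 hX1
      have h4 := h2 c (X' - X1) (by
        rw [Matrix.map_sub _ (map_sub π), hX', hX1, smul_add, add_sub_cancel_left])
      rw [show X' = X1 + (X' - X1) by abel, smul_add, lam_add, h3, h4, mul_one]
    | smul a W _ h1 =>
      intro c X' hX'
      rw [smul_smul] at hX'
      exact h1 _ X' hX'
  exact key _ hmem 1 X (one_smul k _).symm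

lemma det_one_add {x : R} (hx : x * x = 0) (X : Matrix (Fin d) (Fin d) R) :
    (1 + x • X).det = 1 + x * X.trace := by
  rw [Matrix.det_one_add_smul, pow_two, hx, mul_zero, add_zero, mul_comm]

/-- `u ↦ diag (1, …, u, …, 1)` -/
def dg (i0 : Fin d) : Rˣ →* GL (Fin d) R :=
  (Units.map (Matrix.diagonalRingHom (Fin d) R).toMonoidHom).comp
    (MulEquiv.piUnits.symm.toMonoidHom.comp (MonoidHom.mulSingle (fun _ : Fin d => Rˣ) i0))

lemma dg_val (i0 : Fin d) (u : Rˣ) : ((dg i0 u : GL (Fin d) R) : Matrix (Fin d) (Fin d) R) =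
    1 + ((u : R) - 1) • Matrix.single i0 i0 (1 : R) := by
  ext a b
  show (Matrix.diagonal (fun i => (((Pi.mulSingle i0 u : Fin d → Rˣ) i : Rˣ) : R))) a b = _
  rw [Matrix.add_apply, Matrix.smul_apply, Matrix.one_apply, Matrix.single_apply, Matrix.diagonal_apply]
  by_cases hab : a = b
  · subst hab
    by_cases ha : i0 = a
    · subst ha
      simp
    · rw [Pi.mulSingle_eq_of_ne (Ne.symm ha)]
      simp [ha]
  · rw [if_neg hab, if_neg hab, if_neg (fun h => hab (h.1.symm.trans h.2))]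
    simp

lemma exists_chi' [Finite R] {l : ℕ} (hl : 2 * l ≤ r) (hl1 : 1 ≤ l) (ψ : KL ϖ l d →* ℂˣ) (i0 : Fin d)
    (h : ∀ X : Matrix (Fin d) (Fin d) R, π X.trace = 0 → lam hC hl ψ (ϖ ^ (l - 1) • X) = 1) :
    ∃ χ : Rˣ →* ℂˣ, ∀ g0 : GL (Fin d) R, ∀ X : Matrix (Fin d) (Fin d) R,
      (g0 : Matrix (Fin d) (Fin d) R) = 1 + ϖ ^ (r - 1) • X → ∀ hm : g0 ∈ KL ϖ l d,
        ψ ⟨g0, hm⟩ = χ (Matrix.GeneralLinearGroup.det g0) := by
  let U0 : Subgroup Rˣ :=
    { carrier := {u | ∃ a : R, (u : R) = 1 + ϖ ^ (r - 1) * a}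
      mul_mem' := by
        rintro u v ⟨a, ha⟩ ⟨b, hb⟩
        refine ⟨a + b + ϖ ^ (r - 1) * (a * b), ?_⟩
        rw [Units.val_mul, ha, hb]
        ring
      one_mem' := ⟨0, by simp⟩
      inv_mem' := by
        rintro u ⟨a, ha⟩
        refine ⟨-a * ((u⁻¹ : Rˣ) : R), ?_⟩
        have e1 : (u : R) * ((u⁻¹ : Rˣ) : R) = 1 := by simp
        have : ((u⁻¹ : Rˣ) : R) = 1 - ((u : R) - 1) * ((u⁻¹ : Rˣ) : R) := by
          rw [sub_mul, e1]; ring
        rw [this, ha]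
        have e2 : ((u⁻¹ : Rˣ) : R) = 1 - ϖ ^ (r - 1) * a * ((u⁻¹ : Rˣ) : R) := by
          rw [ha] at this
          linear_combination this
        linear_combination (- ϖ ^ (r - 1) * a) * e2 }
  have hmemU : ∀ u ∈ U0, dg i0 u ∈ KL ϖ l d := by
    rintro u ⟨a, ha⟩
    rw [mem_KL, dg_val, ha, add_sub_cancel_left, smul_add, smul_smul, ← mul_assoc, ← pow_add,
      hC.zero (l + (r - 1)) (by omega), zero_smul, add_zero]
  let α : U0 →* ℂˣ := ψ.comp (((dg i0).comp U0.subtype).codRestrict (KL ϖ l d) (fun u => hmemU _ u.2))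
  obtain ⟨χ, hχ⟩ := MonoidHom.domRestrict_surjective (M := ℂ) U0 α
  refine ⟨χ, ?_⟩
  intro g0 X hg0 hm
  have hdet : ((Matrix.GeneralLinearGroup.det g0 : Rˣ) : R) = 1 + ϖ ^ (r - 1) * X.trace := by
    show (g0 : Matrix (Fin d) (Fin d) R).det = _
    rw [hg0]
    apply det_one_add
    have := hC.zero (r - 1 + (r - 1)) (by omega) 1
    rwa [mul_one, pow_add] at this
  have hu : Matrix.GeneralLinearGroup.det g0 ∈ U0 := ⟨_, hdet⟩
  have h1 : χ (Matrix.GeneralLinearGroup.det g0) = α ⟨_, hu⟩ := by rw [← hχ]; rfl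
  rw [h1]
  have h2 : ψ ⟨g0, hm⟩ = lam hC hl ψ (ϖ ^ (l - 1) • X) := by
    unfold lam
    congr 1
    apply Subtype.ext
    apply Units.ext
    rw [uK_val, smul_smul, ← pow_add]
    show (g0 : Matrix (Fin d) (Fin d) R) = _
    rw [hg0, show r - l + (l - 1) = r - 1 by omega]
  have h3 : α ⟨_, hu⟩ = lam hC hl ψ (ϖ ^ (l - 1) • (X.trace • Matrix.single i0 i0 (1 : R))) := by
    unfold lam
    show ψ _ = ψ _
    congr 1
    apply Subtype.ext
    apply Units.ext
    rw [uK_val, smul_smul, ← pow_add]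
    show ((dg i0 (Matrix.GeneralLinearGroup.det g0) : GL (Fin d) R) : Matrix (Fin d) (Fin d) R) = _
    rw [dg_val, hdet, show r - l + (l - 1) = r - 1 by omega, add_sub_cancel_left, smul_smul]
  rw [h2, h3]
  have h4 := h (X - X.trace • Matrix.single i0 i0 (1 : R)) (by
    rw [Matrix.trace_sub, Matrix.trace_smul, Matrix.trace_single_eq_same, smul_eq_mul, mul_one, sub_self, map_zero])
  rw [smul_sub, sub_eq_add_neg, lam_add, lam_neg, mul_inv_eq_one] at h4
  exact h4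


/-- the set of the `ϖ ^ j`-translates -/
lemma phi_shift {l j : ℕ} (hl : 2 * l ≤ r) (hj : l ≤ 2 * j) (ψ : KL ϖ l d →* ℂˣ) (y : GL (Fin d) R)
    (u : GL (Fin d) R) (Z' : Matrix (Fin d) (Fin d) R) (hu : (u : Matrix (Fin d) (Fin d) R) = 1 + ϖ ^ j • Z')
    (Z : Matrix (Fin d) (Fin d) R) :
    lam hC hl ψ (cm ((u * y * u⁻¹ : GL (Fin d) R) : Matrix (Fin d) (Fin d) R) Z) =
      lam hC hl ψ (cm (y : Matrix (Fin d) (Fin d) R) Z) *
        lam hC hl ψ (ϖ ^ j • cm (cm Z' (y : Matrix (Fin d) (Fin d) R)) Z) := by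
  rw [← lam_add]
  apply lam_congr
  generalize hy' : ((u * y * u⁻¹ : GL (Fin d) R) : Matrix (Fin d) (Fin d) R) = y'
  have h1 : y' * (u : Matrix (Fin d) (Fin d) R) = (u : Matrix (Fin d) (Fin d) R) * (y : Matrix (Fin d) (Fin d) R) := by
    rw [← hy', ← Units.val_mul, ← Units.val_mul, inv_mul_cancel_right]
  rw [hu] at h1
  generalize (y : Matrix (Fin d) (Fin d) R) = y0 at *
  obtain ⟨W, hW⟩ : ∃ W, W = Z' * y0 - y' * Z' := ⟨_, rfl⟩
  have h2 : y' = y0 + ϖ ^ j • W := by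
    rw [mul_add, mul_one, add_mul, one_mul, mul_smul_comm, smul_mul_assoc] at h1
    rw [hW, smul_sub, ← add_sub_assoc, ← h1, add_sub_cancel_right]
  have h3 : ∀ A, cm (-A) Z = - cm A Z := fun A => by unfold cm; noncomm_ring
  have h4 : ∀ (a : R) A, cm (a • A) Z = a • cm A Z := fun a A => by
    unfold cm
    rw [smul_mul_assoc, mul_smul_comm, smul_sub]
  have h5 : ∀ A B, cm (A + B) Z = cm A Z + cm B Z := fun A B => by unfold cm; noncomm_ring
  have h6 : cm Z' y0 = W + ϖ ^ j • (W * Z') := by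
    have e1 : ϖ ^ j • (W * Z') = (y' - y0) * Z' := by
      rw [h2, add_sub_cancel_left, smul_mul_assoc]
    rw [e1, hW]
    unfold cm
    noncomm_ring
  have h7 : ϖ ^ (r - l) • ϖ ^ j • ϖ ^ j • cm (W * Z') Z = 0 := by
    rw [smul_smul, smul_smul, ← pow_add, ← pow_add]
    exact hC.zeroM _ (by omega) _
  rw [h6, h5, h4, h2, h5, h4, smul_add, smul_add, smul_add, smul_add, h7, add_zero]

end Phi

end Pool.Agent.H498.EQ
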