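import Pool.Agent.H498.EQ.Lev2

/-!
# The bound for the character ratios
-/

set_option autoImplicit false

namespace Pool.Agent.H498.EQ

open Matrix Module

lemma count_le {G M : Type} [Group G] [Finite G] [Finite M] [Nonempty M] (C : G → Prop) (u : M → G) (Q : ℕ)
    (h : ∀ g, Nat.card {z : M // C (u z * g)} * Q ≤ Nat.card M) : Nat.card {g // C g} * Q ≤ Nat.card G := by
  classical
  have := Fintype.ofFinite G
  have := Fintype.ofFinite M
  have h1 : ∀ g, Nat.card {z : M // C (u z * g)} = ∑ z : M, if C (u z * g) then 1 else 0 := by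
    intro g
    rw [Nat.card_eq_fintype_card, Fintype.card_subtype, Finset.card_filter]
  have h2 : Nat.card {g // C g} = ∑ g : G, if C g then 1 else 0 := by
    rw [Nat.card_eq_fintype_card, Fintype.card_subtype, Finset.card_filter]
  have h3 : ∑ g : G, Nat.card {z : M // C (u z * g)} = Nat.card M * Nat.card {g // C g} := by
    simp_rw [h1]
    rw [Finset.sum_comm]
    have : ∀ z : M, (∑ g : G, if C (u z * g) then 1 else 0) = Nat.card {g // C g} := by
      intro z
      rw [h2]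
      exact Equiv.sum_comp (Equiv.mulLeft (u z)) (fun g => if C g then 1 else 0)
    rw [Finset.sum_congr rfl (fun z _ => this z), Finset.sum_const, Finset.card_univ, smul_eq_mul,
      Nat.card_eq_fintype_card (α := M)]
  have h4 : (∑ g : G, Nat.card {z : M // C (u z * g)}) * Q ≤ Nat.card G * Nat.card M := by
    rw [Finset.sum_mul]
    refine (Finset.sum_le_sum (fun g _ => h g)).trans ?_
    rw [Finset.sum_const, Finset.card_univ, smul_eq_mul, Nat.card_eq_fintype_card (α := G)]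
  rw [h3] at h4
  have h5 : 0 < Nat.card M := Nat.card_pos
  have h6 : Nat.card M * (Nat.card {g // C g} * Q) ≤ Nat.card M * Nat.card G := by
    calc _ = Nat.card M * Nat.card {g // C g} * Q := by ring
      _ ≤ Nat.card G * Nat.card M := h4
      _ = _ := by ring
  exact Nat.le_of_mul_le_mul_left h6 h5

lemma scalar_of_chi {G : Type} [Group G] {V : Type} [AddCommGroup V] [Module ℂ V]
    (ρ : Representation ℂ G V) (hirr : ρ.IsIrreducible) (K0 : G → Prop)
    (hK0 : ∀ g0, K0 g0 → ∀ h, K0 (h⁻¹ * g0 * h)) (δ : G →* ℂˣ) (v : V) (hv0 : v ≠ 0)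
    (hv : ∀ g0, K0 g0 → ρ g0 v = ((δ g0 : ℂˣ) : ℂ) • v) :
    ∀ g0, K0 g0 → ρ g0 = ((δ g0 : ℂˣ) : ℂ) • LinearMap.id := by
  let W : Submodule ℂ V :=
    { carrier := {w | ∀ g0, K0 g0 → ρ g0 w = ((δ g0 : ℂˣ) : ℂ) • w}
      add_mem' := by
        intro a b ha hb g0 hg0
        rw [map_add, ha g0 hg0, hb g0 hg0, smul_add]
      zero_mem' := by
        intro g0 _
        rw [map_zero, smul_zero]
      smul_mem' := by
        intro c a ha g0 hg0
        rw [map_smul, ha g0 hg0, smul_comm] }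
  have hE : ∀ g, ∀ w ∈ W, ρ g w ∈ W := by
    intro g w hw g0 hg0
    have h1 := hw _ (hK0 g0 hg0 g)
    have h2 : g0 * g = g * (g⁻¹ * g0 * g) := by group
    have h3 : ρ g0 (ρ g w) = ρ g (ρ (g⁻¹ * g0 * g) w) := by
      rw [← Module.End.mul_apply, ← map_mul, h2, map_mul, Module.End.mul_apply]
    rw [h3, h1, map_smul]
    congr 2
    rw [map_mul, map_mul, mul_comm (δ g⁻¹), mul_assoc, ← map_mul, inv_mul_cancel, map_one, mul_one]
  have htop : W = ⊤ := by
    have h1 := hirr.eq_bot_or_eq_top (⟨W, hE⟩ : Subrepresentation ρ)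
    rcases h1 with h1 | h1
    · exfalso
      have h2 : W = ⊥ := congrArg Subrepresentation.toSubmodule h1
      have h3 : v ∈ W := hv
      rw [h2, Submodule.mem_bot] at h3
      exact hv0 h3
    · exact congrArg Subrepresentation.toSubmodule h1
  intro g0 hg0
  apply LinearMap.ext
  intro x
  have : x ∈ W := by rw [htop]; trivial
  simpa using this g0 hg0

section Ratio

variable {R k : Type} [CommRing R] [Field k] {π : R →+* k} {ϖ : R} {r : ℕ} (hC : Chain π ϖ r) {d : ℕ}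

include hC in
/-- **the character ratios of the primitive representations of level `r`** -/
theorem ratio_level (p : ℕ) [hp : Fact p.Prime] [CharP k p] [Finite R] (hr : 2 ≤ r)
    {V : Type} [AddCommGroup V] [Module ℂ V] [FiniteDimensional ℂ V] (ρ : Representation ℂ (GL (Fin d) R) V)
    (hirr : ρ.IsIrreducible)
    (hprim : ¬ ∃ χ : Rˣ →* ℂˣ, ∀ g0 : GL (Fin d) R,
      (∃ X, (g0 : Matrix (Fin d) (Fin d) R) = 1 + ϖ ^ (r - 1) • X) →
        ρ g0 = ((χ (Matrix.GeneralLinearGroup.det g0) : ℂˣ) : ℂ) • LinearMap.id)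
    (g : GL (Fin d) R) (m : ℕ) (hm : ¬ p ∣ m) (hgm : ((g : Matrix (Fin d) (Fin d) R).map π) ^ m = 1)
    (hg : ¬ ∃ c : k, (g : Matrix (Fin d) (Fin d) R).map π = c • (1 : Matrix (Fin d) (Fin d) k)) :
    ‖LinearMap.trace ℂ V (ρ g)‖ * (Nat.card k : ℝ) ^ (r / 4) ≤ finrank ℂ V := by
  classical
  have hd : Nonempty (Fin d) := by
    by_contra hcon
    rw [not_nonempty_iff] at hcon
    exact hg ⟨0, by ext a; exact isEmptyElim a⟩
  obtain ⟨i0⟩ := hd
  obtain ⟨l, hl⟩ : ∃ l, l = r / 2 := ⟨_, rfl⟩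
  obtain ⟨l', hl'⟩ : ∃ l', l' = r / 4 := ⟨_, rfl⟩
  have hll' : l' = l / 2 := by omega
  obtain ⟨j, hj⟩ : ∃ j, j = l - l' := ⟨_, rfl⟩
  have hlr : 2 * l ≤ r := by omega
  have hl1 : 1 ≤ l := by omega
  have hj1 : 1 ≤ j := by omega
  have hj2 : l ≤ 2 * j := by omega
  have := nontriv_of_irr ρ hirr
  obtain ⟨ψ, v, hv0, hv⟩ := exists_eigen_char ρ (KL ϖ l d) (KL_comm hC hlr)
  have hratio := ratio_le ρ (KL ϖ l d) (KL_comm hC hlr) ψ hirr v hv0 hv g
  obtain ⟨C, hCdef⟩ : ∃ C : GL (Fin d) R → Prop, C = fun h => ∀ n : KL ϖ l d,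
    ψ ⟨(h * g * h⁻¹) * n * (h * g * h⁻¹)⁻¹ * (n : GL (Fin d) R)⁻¹, comm_mem (KL ϖ l d) _ n⟩ = 1 := ⟨_, rfl⟩
  have hratio' : ‖LinearMap.trace ℂ V (ρ g)‖ * Nat.card (GL (Fin d) R) ≤ finrank ℂ V * Nat.card {h // C h} := by
    rw [hCdef]; exact hratio
  -- nondegeneracy
  have hne : ∀ h : GL (Fin d) R, ∃ Z0 Z1, lam hC hlr ψ (ϖ ^ (l - 1) •
      cm (cm Z0 ((h * g * h⁻¹ : GL (Fin d) R) : Matrix (Fin d) (Fin d) R)) Z1) ≠ 1 := by
    intro h
    by_contra hcon
    push Not at hcon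
    have hmap : ∀ a : GL (Fin d) R, (a : Matrix (Fin d) (Fin d) R).map π =
        ((Matrix.GeneralLinearGroup.map π a : GL (Fin d) k) : Matrix (Fin d) (Fin d) k) := fun a => rfl
    have e1 : ((h * g * h⁻¹ : GL (Fin d) R) : Matrix (Fin d) (Fin d) R).map π =
        ((Matrix.GeneralLinearGroup.map π h * Matrix.GeneralLinearGroup.map π g *
          (Matrix.GeneralLinearGroup.map π h)⁻¹ : GL (Fin d) k) : Matrix (Fin d) (Fin d) k) := by
      rw [hmap, map_mul, map_mul, map_inv]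
    have hgm' : (Matrix.GeneralLinearGroup.map π g : GL (Fin d) k) ^ m = 1 := by
      apply Units.ext
      rw [Units.val_pow_eq_pow_val, Units.val_one]
      exact hgm
    have h1 := phi_span hC p hlr hl1 ψ ((h * g * h⁻¹ : GL (Fin d) R) : Matrix (Fin d) (Fin d) R) m hm (by
      rw [e1, ← Units.val_pow_eq_pow_val, conj_pow, hgm', mul_one, mul_inv_cancel, Units.val_one]) (by
      rintro ⟨c, hc⟩
      apply hg
      refine ⟨c, ?_⟩
      rw [e1] at hc
      rw [hmap]
      have e2 : Matrix.GeneralLinearGroup.map π g = (Matrix.GeneralLinearGroup.map π h)⁻¹ *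
        (Matrix.GeneralLinearGroup.map π h * Matrix.GeneralLinearGroup.map π g *
          (Matrix.GeneralLinearGroup.map π h)⁻¹) * Matrix.GeneralLinearGroup.map π h := by group
      rw [e2, Units.val_mul, Units.val_mul, hc, mul_smul_comm, smul_mul_assoc, mul_one, ← Units.val_mul,
        inv_mul_cancel, Units.val_one]) hcon
    obtain ⟨χ, hχ⟩ := exists_chi' hC hlr hl1 ψ i0 h1
    apply hprim
    refine ⟨χ, ?_⟩
    apply scalar_of_chi ρ hirr (fun g0 => ∃ X, (g0 : Matrix (Fin d) (Fin d) R) = 1 + ϖ ^ (r - 1) • X) ?_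
      (χ.comp Matrix.GeneralLinearGroup.det) v hv0
    · rintro g0 ⟨X, hX⟩
      have hm0 : g0 ∈ KL ϖ l d := by
        rw [mem_KL, hX, smul_add, smul_smul, ← pow_add, hC.zeroM (l + (r - 1)) (by omega), add_zero]
      have h3 := hv ⟨g0, hm0⟩
      rw [hχ g0 X hX hm0] at h3
      exact h3
    · rintro g0 ⟨X, hX⟩ h'
      refine ⟨((h'⁻¹ : GL (Fin d) R) : Matrix (Fin d) (Fin d) R) * X * h', ?_⟩
      rw [Units.val_mul, Units.val_mul, hX, mul_add, add_mul, mul_one, ← Units.val_mul, inv_mul_cancel,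
        Units.val_one, mul_smul_comm, smul_mul_assoc]
  -- the number of the conjugates
  have hcount : Nat.card {h // C h} * Nat.card k ^ l' ≤ Nat.card (GL (Fin d) R) := by
    rcases Nat.eq_zero_or_pos l' with h0 | hpos
    · rw [h0, pow_zero, mul_one]
      exact Nat.card_le_card_of_injective _ Subtype.val_injective
    have hnil : ∀ Z' : Matrix (Fin d) (Fin d) R, IsNilpotent (ϖ ^ j • Z') := by
      intro Z'
      refine ⟨r, ?_⟩
      rw [smul_pow, ← pow_mul]
      exact hC.zeroM _ (Nat.le_mul_of_pos_left r hj1) _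
    let u : Matrix (Fin d) (Fin d) R → GL (Fin d) R := fun Z' => (hnil Z').isUnit_one_add.unit
    have hu : ∀ Z', (u Z' : Matrix (Fin d) (Fin d) R) = 1 + ϖ ^ j • Z' := fun Z' => IsUnit.unit_spec _
    have hK : ∀ h, C h → ∀ Z, lam hC hlr ψ (cm ((h * g * h⁻¹ : GL (Fin d) R) : Matrix (Fin d) (Fin d) R) Z) = 1 := by
      intro h hh Z
      rw [hCdef] at hh
      exact lam_cm hC hlr ψ _ hh Z
    apply count_le C u
    intro h
    obtain ⟨Z0, Z1, hZ⟩ := hne h
    obtain ⟨I, _, a, hI, ha⟩ := hC.reps l' (by omega)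
    rw [← hI, ← Nat.card_prod]
    apply Nat.card_le_card_of_injective (fun (x : {z // C (u z * h)} × I) => (x.1 : Matrix (Fin d) (Fin d) R) + a x.2 • Z0)
    rintro ⟨⟨z1, hz1⟩, i1⟩ ⟨⟨z2, hz2⟩, i2⟩ heq
    simp only at heq
    have h1 : ∀ z, C (u z * h) → ∀ Z, lam hC hlr ψ (ϖ ^ j • cm (cm z
        ((h * g * h⁻¹ : GL (Fin d) R) : Matrix (Fin d) (Fin d) R)) Z) =
        (lam hC hlr ψ (cm ((h * g * h⁻¹ : GL (Fin d) R) : Matrix (Fin d) (Fin d) R) Z))⁻¹ := by
      intro z hz Z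
      have h2 := hK _ hz Z
      rw [show u z * h * g * (u z * h)⁻¹ = u z * (h * g * h⁻¹) * (u z)⁻¹ by group] at h2
      rw [phi_shift hC hlr hj2 ψ (h * g * h⁻¹) (u z) z (hu z) Z] at h2
      rw [eq_inv_iff_mul_eq_one, mul_comm]
      exact h2
    have hi : i1 = i2 := by
      apply ha
      by_contra hcon
      have hcon' : ¬ ∃ z, (a i2 - a i1) = ϖ ^ l' * z := by
        rintro ⟨z, hz⟩
        apply hcon
        exact ⟨-z, by rw [mul_neg, ← hz]; ring⟩
      rcases hC.div l' hpos (a i2 - a i1) with h2 | ⟨c, hc⟩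
      · exact hcon' h2
      apply hZ
      have h3 : z1 = z2 + (a i2 - a i1) • Z0 := by
        rw [sub_smul, ← add_sub_assoc, ← heq, add_sub_cancel_right]
      have h4 := h1 z1 hz1 (c • Z1)
      rw [← h1 z2 hz2 (c • Z1), h3] at h4
      have h5 : ϖ ^ j • cm (cm (z2 + (a i2 - a i1) • Z0) ((h * g * h⁻¹ : GL (Fin d) R) : Matrix (Fin d) (Fin d) R)) (c • Z1) =
          ϖ ^ j • cm (cm z2 ((h * g * h⁻¹ : GL (Fin d) R) : Matrix (Fin d) (Fin d) R)) (c • Z1) +
          ϖ ^ (l - 1) • cm (cm Z0 ((h * g * h⁻¹ : GL (Fin d) R) : Matrix (Fin d) (Fin d) R)) Z1 := by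
        rw [show l - 1 = j + (l' - 1) by omega, pow_add, ← hc]
        generalize ((h * g * h⁻¹ : GL (Fin d) R) : Matrix (Fin d) (Fin d) R) = y
        rw [mul_smul, ← smul_add]
        congr 1
        generalize a i2 - a i1 = s
        have e1 : cm (z2 + s • Z0) y = cm z2 y + s • cm Z0 y := by
          unfold cm
          rw [add_mul, mul_add, smul_mul_assoc, mul_smul_comm, smul_sub]
          abel
        rw [e1]
        generalize cm z2 y = A
        generalize cm Z0 y = B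
        unfold cm
        rw [add_mul, mul_add, smul_mul_assoc, mul_smul_comm c B Z1, mul_smul_comm s (c • Z1) B,
          smul_mul_assoc c Z1 B, smul_smul, smul_smul, smul_sub]
        abel
      rw [h5, lam_add, mul_eq_left] at h4
      exact h4
    subst hi
    rw [add_left_inj] at heq
    subst heq
    rfl
  rw [← hl']
  have hG : (0 : ℝ) < Nat.card (GL (Fin d) R) := by exact_mod_cast Nat.card_pos
  have hcount' : (Nat.card {h // C h} : ℝ) * (Nat.card k : ℝ) ^ l' ≤ Nat.card (GL (Fin d) R) := by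
    exact_mod_cast hcount
  have hfin : (‖LinearMap.trace ℂ V (ρ g)‖ * (Nat.card k : ℝ) ^ l') * Nat.card (GL (Fin d) R) ≤
      (finrank ℂ V : ℝ) * Nat.card (GL (Fin d) R) := by
    calc (‖LinearMap.trace ℂ V (ρ g)‖ * (Nat.card k : ℝ) ^ l') * Nat.card (GL (Fin d) R)
        = (‖LinearMap.trace ℂ V (ρ g)‖ * Nat.card (GL (Fin d) R)) * (Nat.card k : ℝ) ^ l' := by ring
      _ ≤ (finrank ℂ V * Nat.card {h // C h}) * (Nat.card k : ℝ) ^ l' := by
          apply mul_le_mul_of_nonneg_right hratio' (by positivity)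
      _ = finrank ℂ V * (Nat.card {h // C h} * (Nat.card k : ℝ) ^ l') := by ring
      _ ≤ _ := mul_le_mul_of_nonneg_left hcount' (by positivity)
  exact le_of_mul_le_mul_right hfin hG

end Ratio

end Pool.Agent.H498.EQ
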