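import Pool.Agent.H498.EQ.Core

/-!
# Very ramified representations
-/

set_option autoImplicit false

namespace Pool.Agent.H498.EQ

open Matrix Module Polynomial Pool.Agent.N28.BM Pool.Agent.H498.BT

section LA

variable {K : Type} [Field K] {p : ℕ} [hp : Fact p.Prime] [CharP K p] {d : ℕ}

lemma scalar_of_nil (A : Matrix (Fin d) (Fin d) K) (m : ℕ) (hm : ¬ p ∣ m) (hA : A ^ m = 1) (a : K)
    (hnil : (A - a • 1) ^ d = 0) : ∃ c : K, A = c • (1 : Matrix (Fin d) (Fin d) K) := by
  cases d with
  | zero => exact ⟨0, by ext a; exact a.elim0⟩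
  | succ n =>
    obtain ⟨N, hN, j, hj⟩ := exists_frob p m (n + 1) hp.out hm
    have hp1 := hp.out.one_lt
    have hle : n + 1 ≤ p ^ N := by
      have h2 : N < p ^ N := Nat.lt_pow_self hp1
      omega
    have h3 : (A - a • 1) ^ (p ^ N) = 0 := pow_eq_zero_of_le hle hnil
    have hcomm : Commute A (a • 1) := by
      show A * (a • 1) = (a • 1) * A
      rw [mul_smul_comm, smul_mul_assoc, mul_one, one_mul]
    rw [sub_pow_char_pow_of_commute _ _ hcomm, _root_.smul_pow, one_pow, sub_eq_zero] at h3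
    have h4 : A ^ (p ^ N) = A := by
      rw [hj, pow_succ, pow_mul, hA, one_pow, one_mul]
    rw [h4] at h3
    exact ⟨_, h3⟩

/-- `β - c` is nilpotent and has a cyclic vector: `β` is conjugate to a Jordan block. -/
def OneBlock (β : Matrix (Fin d) (Fin d) K) : Prop :=
  ∃ (c : K) (v : Fin d → K), (β - c • 1) ^ d = 0 ∧
    Submodule.span K (Set.range fun i : ℕ => ((β - c • 1) ^ i) *ᵥ v) = ⊤

lemma comm_oneBlock (β : Matrix (Fin d) (Fin d) K) (hβ : OneBlock β) (A : Matrix (Fin d) (Fin d) K) (m : ℕ)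
    (hm : ¬ p ∣ m) (hA : A ^ m = 1) (hcomm : β * A = A * β) : ∃ c : K, A = c • (1 : Matrix (Fin d) (Fin d) K) := by
  obtain ⟨c, v, hnil, hcyc⟩ := hβ
  obtain ⟨N, hN⟩ : ∃ N, N = β - c • (1 : Matrix (Fin d) (Fin d) K) := ⟨_, rfl⟩
  rw [← hN] at hnil hcyc
  have hNA : Commute N A := by
    show N * A = A * N
    rw [hN, sub_mul, mul_sub, hcomm, smul_mul_assoc, mul_smul_comm, one_mul, mul_one]
  have hpoly : ∀ x ∈ Submodule.span K (Set.range fun i : ℕ => (N ^ i) *ᵥ v), ∃ P : K[X], x = (aeval N P) *ᵥ v := by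
    intro x hx
    induction hx using Submodule.span_induction with
    | mem x hx =>
      obtain ⟨i, rfl⟩ := hx
      exact ⟨X ^ i, by simp⟩
    | zero => exact ⟨0, by simp⟩
    | add x y _ _ hx hy =>
      obtain ⟨P, rfl⟩ := hx
      obtain ⟨Q, rfl⟩ := hy
      exact ⟨P + Q, by rw [map_add, Matrix.add_mulVec]⟩
    | smul a x _ hx =>
      obtain ⟨P, rfl⟩ := hx
      exact ⟨a • P, by rw [map_smul, Matrix.smul_mulVec]⟩
  obtain ⟨P, hP⟩ := hpoly (A *ᵥ v) (by rw [hcyc]; trivial)
  have hAP : A = aeval N P := by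
    have h1 : ∀ x ∈ Submodule.span K (Set.range fun i : ℕ => (N ^ i) *ᵥ v), A *ᵥ x = (aeval N P) *ᵥ x := by
      intro x hx
      induction hx using Submodule.span_induction with
      | mem x hx =>
        obtain ⟨i, rfl⟩ := hx
        have h2 : Commute (N ^ i) A := hNA.pow_left i
        have h3 : Commute (N ^ i) (aeval N P) := by
          have h4 : N ^ i = aeval N (X ^ i : K[X]) := by simp
          show N ^ i * aeval N P = aeval N P * N ^ i
          rw [h4, ← map_mul, ← map_mul, mul_comm]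
        show A *ᵥ (N ^ i *ᵥ v) = aeval N P *ᵥ (N ^ i *ᵥ v)
        rw [Matrix.mulVec_mulVec, Matrix.mulVec_mulVec, ← h2.eq, ← h3.eq, ← Matrix.mulVec_mulVec, ← Matrix.mulVec_mulVec, hP]
      | zero => rw [Matrix.mulVec_zero, Matrix.mulVec_zero]
      | add x y _ _ hx hy => rw [Matrix.mulVec_add, Matrix.mulVec_add, hx, hy]
      | smul a x _ hx => rw [Matrix.mulVec_smul, Matrix.mulVec_smul, hx]
    apply Matrix.toLin'.injective
    apply LinearMap.ext
    intro x
    rw [Matrix.toLin'_apply, Matrix.toLin'_apply]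
    exact h1 x (by rw [hcyc]; trivial)
  apply scalar_of_nil A m hm hA (P.coeff 0)
  have h5 : A - P.coeff 0 • 1 = N * aeval N P.divX := by
    have h6 := congrArg (aeval N) (Polynomial.divX_mul_X_add P)
    rw [map_add, map_mul, aeval_X, aeval_C, Algebra.algebraMap_eq_smul_one] at h6
    rw [hAP, ← h6, add_sub_cancel_right]
    have h7 : N = aeval N (X : K[X]) := by simp
    conv_lhs => rw [h7]
    conv_rhs => rw [h7]
    simp only [aeval_X]
    have h8 : Commute (aeval N P.divX) (aeval N (X : K[X])) := by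
      show aeval N P.divX * aeval N (X : K[X]) = aeval N (X : K[X]) * aeval N P.divX
      rw [← map_mul, ← map_mul, mul_comm]
    rw [aeval_X] at h8
    exact h8.eq
  have h9 : Commute N (aeval N P.divX) := by
    show N * aeval N P.divX = aeval N P.divX * N
    have h7 : N = aeval N (X : K[X]) := by simp
    conv_lhs => rw [h7]
    conv_rhs => rw [h7]
    simp only [aeval_X]
    have h8 : Commute (aeval N (X : K[X])) (aeval N P.divX) := by
      show aeval N (X : K[X]) * aeval N P.divX = aeval N P.divX * aeval N (X : K[X])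
      rw [← map_mul, ← map_mul, mul_comm]
    rw [aeval_X] at h8
    exact h8.eq
  rw [h5, h9.mul_pow, hnil, zero_mul]

end LA

end Pool.Agent.H498.EQ
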