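import Pool.Agent.H498.EQ.Lev3
import Pool.Agent.H498.BT.Key

/-!
# Smooth representations of `GL_d(O)`
-/

set_option autoImplicit false

namespace Pool.Agent.H498.EQ

open Matrix Module Pool.Agent.H498.BT

section Ring

variable {O k : Type} [CommRing O] [IsDomain O] [IsDiscreteValuationRing O] [Field k] {ϖ : O}
  (hϖ : Irreducible ϖ) (π₀ : O →+* k) (hπ₀ : Function.Surjective π₀)

include hϖ hπ₀ in
lemma ker_pi0 (x : O) : π₀ x = 0 ↔ ϖ ∣ x := by
  have h1 : (RingHom.ker π₀).IsMaximal := RingHom.ker_isMaximal_of_surjective π₀ hπ₀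
  have h2 := IsLocalRing.eq_maximalIdeal h1
  rw [← RingHom.mem_ker, h2, hϖ.maximalIdeal_eq, Ideal.mem_span_singleton]

/-- the residue map of `O / ϖ ^ r` -/
def pr {r : ℕ} (hr : r ≠ 0) : O ⧸ Ideal.span {ϖ ^ r} →+* k :=
  Ideal.Quotient.lift _ π₀ (fun x hx => by
    rw [Ideal.mem_span_singleton] at hx
    rw [ker_pi0 hϖ π₀ hπ₀]
    exact (dvd_pow_self ϖ hr).trans hx)

lemma pr_mk {r : ℕ} (hr : r ≠ 0) (x : O) : pr hϖ π₀ hπ₀ hr (Ideal.Quotient.mk _ x) = π₀ x := rfl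

include hϖ hπ₀ in
lemma residue_equiv' : Nonempty ((O ⧸ Ideal.span {ϖ}) ≃+* k) := by
  have h1 : RingHom.ker π₀ = Ideal.span {ϖ} := by
    ext x
    rw [RingHom.mem_ker, Ideal.mem_span_singleton]
    exact ker_pi0 hϖ π₀ hπ₀ x
  exact ⟨(Ideal.quotEquivOfEq h1.symm).trans (RingHom.quotientKerEquivOfSurjective hπ₀)⟩

include hπ₀ hϖ in
lemma finite_quot' [Finite k] (N : ℕ) : Finite (O ⧸ Ideal.span {ϖ ^ N}) := by
  obtain ⟨e⟩ := residue_equiv' hϖ π₀ hπ₀
  have : Finite (O ⧸ Ideal.span {ϖ}) := Finite.of_equiv k e.symm.toEquiv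
  have h1 := Ideal.finite_quotient_pow (I := Ideal.span {ϖ}) ((Submodule.fg_span (Set.finite_singleton ϖ))) N
  rwa [Ideal.span_singleton_pow] at h1

include hπ₀ hϖ in
lemma card_quot' [Finite k] (N : ℕ) : Nat.card (O ⧸ Ideal.span {ϖ ^ N}) = Nat.card k ^ N := by
  obtain ⟨e⟩ := residue_equiv' hϖ π₀ hπ₀
  have h1 : (Ideal.span {ϖ}).IsPrime := (Ideal.span_singleton_prime hϖ.ne_zero).2 hϖ.prime
  have h2 := cardQuot_pow_of_prime (P := Ideal.span {ϖ}) (i := N) (by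
    rw [Ne, Ideal.span_singleton_eq_bot]; exact hϖ.ne_zero)
  rw [Ideal.span_singleton_pow] at h2
  rw [Submodule.cardQuot_apply, Submodule.cardQuot_apply] at h2
  rw [h2, Nat.card_congr e.toEquiv]

lemma mk_eq {r : ℕ} (x y : O) : (Ideal.Quotient.mk (Ideal.span {ϖ ^ r}) x = Ideal.Quotient.mk _ y) ↔ ϖ ^ r ∣ x - y := by
  rw [Ideal.Quotient.eq, Ideal.mem_span_singleton]

/-- the chain ring `O / ϖ ^ r` -/
lemma chain [Finite k] {r : ℕ} (hr : r ≠ 0) :
    Chain (pr hϖ π₀ hπ₀ hr) (Ideal.Quotient.mk (Ideal.span {ϖ ^ r}) ϖ) r where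
  surj := by
    intro y
    obtain ⟨x, rfl⟩ := hπ₀ y
    exact ⟨Ideal.Quotient.mk _ x, rfl⟩
  ker := by
    intro x
    obtain ⟨x, rfl⟩ := Ideal.Quotient.mk_surjective x
    rw [pr_mk, ker_pi0 hϖ π₀ hπ₀]
    constructor
    · rintro ⟨y, rfl⟩
      exact ⟨Ideal.Quotient.mk _ y, map_mul _ _ _⟩
    · rintro ⟨y, hy⟩
      obtain ⟨y, rfl⟩ := Ideal.Quotient.mk_surjective y
      rw [← map_mul, mk_eq] at hy
      have h1 := (dvd_pow_self ϖ hr).trans hy
      have h2 := dvd_add h1 (dvd_mul_right ϖ y)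
      rwa [sub_add_cancel] at h2
  ann := by
    intro i hi x
    obtain ⟨x, rfl⟩ := Ideal.Quotient.mk_surjective x
    constructor
    · intro h
      rw [← map_pow, ← map_mul, mk_zero_iff, show r = i + (r - i) by omega, pow_add] at h
      obtain ⟨y, rfl⟩ := (mul_dvd_mul_iff_left (pow_ne_zero i hϖ.ne_zero)).1 h
      exact ⟨Ideal.Quotient.mk _ y, by rw [map_mul, map_pow]⟩
    · rintro ⟨y, hy⟩
      rw [hy, ← mul_assoc, ← pow_add, show i + (r - i) = r by omega]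
      have : (Ideal.Quotient.mk (Ideal.span {ϖ ^ r}) ϖ) ^ r = 0 := by
        rw [← map_pow, mk_zero_iff]
      rw [this, zero_mul]
  div := by
    intro i hi x
    obtain ⟨x, rfl⟩ := Ideal.Quotient.mk_surjective x
    by_cases hx : x = 0
    · left
      exact ⟨0, by rw [hx, map_zero, mul_zero]⟩
    obtain ⟨v, u, hu⟩ := IsDiscreteValuationRing.associated_pow_irreducible hx hϖ
    rcases Nat.lt_or_ge v i with hv | hv
    · right
      refine ⟨Ideal.Quotient.mk _ ((u : O) * ϖ ^ (i - 1 - v)), ?_⟩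
      rw [← map_mul, ← map_pow, ← mul_assoc, hu, ← pow_add, show v + (i - 1 - v) = i - 1 by omega]
    · left
      refine ⟨Ideal.Quotient.mk _ (ϖ ^ (v - i) * ((u⁻¹ : Oˣ) : O)), ?_⟩
      rw [← map_pow, ← map_mul]
      congr 1
      rw [← mul_assoc, ← pow_add, show i + (v - i) = v by omega, ← hu, mul_assoc, Units.mul_inv, mul_one]
  reps := by
    intro i hi
    refine ⟨O ⧸ Ideal.span {ϖ ^ i}, finite_quot' hϖ π₀ hπ₀ i, fun x => Ideal.Quotient.mk _ (Quotient.out x),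
      card_quot' hϖ π₀ hπ₀ i, ?_⟩
    rintro x y ⟨z, hz⟩
    obtain ⟨z, rfl⟩ := Ideal.Quotient.mk_surjective z
    rw [← map_sub, ← map_pow, ← map_mul, mk_eq] at hz
    have h1 : ϖ ^ i ∣ Quotient.out x - Quotient.out y := by
      have h2 := (pow_dvd_pow ϖ hi).trans hz
      have h3 := dvd_add h2 (dvd_mul_right (ϖ ^ i) z)
      rwa [sub_add_cancel] at h3
    rw [← mk_eq (r := i)] at h1
    have h4 : ∀ w : O ⧸ Ideal.span {ϖ ^ i}, Ideal.Quotient.mk _ (Quotient.out w) = w := fun w => Quotient.out_eq w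
    rw [← h4 x, ← h4 y]
    exact h1

include hϖ in
lemma nilSurj' [Finite k] {r : ℕ} (hr : r ≠ 0) : NilSurj (pr hϖ π₀ hπ₀ hr) where
  surj := (chain hϖ π₀ hπ₀ hr).surj
  nil := by
    intro a ha
    obtain ⟨x, rfl⟩ := Ideal.Quotient.mk_surjective a
    rw [pr_mk, ker_pi0 hϖ π₀ hπ₀] at ha
    obtain ⟨y, rfl⟩ := ha
    refine ⟨r, ?_⟩
    rw [← map_pow, mk_zero_iff, mul_pow]
    exact dvd_mul_right _ _

end Ring

end Pool.Agent.H498.EQ
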