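import Pool.Agent.H498.EQ.Smo

/-!
# Smooth representations of `GL_d(O)`: levels, reductions, character ratios
-/

set_option autoImplicit false

namespace Pool.Agent.H498.EQ

open Matrix Module Pool.Agent.H498.BT

section Defs

variable {O k : Type} [CommRing O] [Field k] {d : ℕ} {V : Type} [AddCommGroup V] [Module ℂ V]

/-- `g ≡ 1 mod ϖ ^ r` -/
def Cg (ϖ : O) (r : ℕ) (g : GL (Fin d) O) : Prop :=
  ∃ X : Matrix (Fin d) (Fin d) O, (g : Matrix (Fin d) (Fin d) O) = 1 + ϖ ^ r • X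

/-- `ρ` is trivial on the `g ≡ 1 mod ϖ ^ N` for some `N`. -/
def Smooth (ϖ : O) (ρ : Representation ℂ (GL (Fin d) O) V) : Prop :=
  ∃ N : ℕ, ∀ g, Cg ϖ N g → ρ g = LinearMap.id

/-- Some twist `ρ ⊗ χ⁻¹ ∘ det` is trivial on the `g ≡ 1 mod ϖ ^ r`. -/
def HasLevel (ϖ : O) (r : ℕ) (ρ : Representation ℂ (GL (Fin d) O) V) : Prop :=
  ∃ χ : Oˣ →* ℂˣ, ∀ g, Cg ϖ r g → ρ g = ((χ (GeneralLinearGroup.det g) : ℂˣ) : ℂ) • LinearMap.id

/-- `θ` is the Brauer character of the reduction of `ρ`: its value at `ḡ` is the trace of `g` if the order of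
`g` in `GL_d(O / ϖ ^ N)` is prime to `p`, where `ρ` factors through `GL_d(O / ϖ ^ N)`. -/
def IsRed (ϖ : O) (π₀ : O →+* k) (p : ℕ) (θ : GL (Fin d) k → ℂ) (ρ : Representation ℂ (GL (Fin d) O) V) : Prop :=
  ∀ (N m : ℕ) (g : GL (Fin d) O), 0 < N → (∀ g', Cg ϖ N g' → ρ g' = LinearMap.id) → ¬ p ∣ m → Cg ϖ N (g ^ m) →
    θ (GeneralLinearGroup.map π₀ g) = LinearMap.trace ℂ V (ρ g)

lemma Cg_mono {ϖ : O} {r r' : ℕ} (h : r ≤ r') {g : GL (Fin d) O} (hg : Cg ϖ r' g) : Cg ϖ r g := by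
  obtain ⟨X, hX⟩ := hg
  refine ⟨ϖ ^ (r' - r) • X, ?_⟩
  rw [hX, smul_smul, ← pow_add, show r + (r' - r) = r' by omega]

lemma Cg_red {ϖ : O} {r : ℕ} (π₀ : O →+* k) (h0 : π₀ ϖ = 0) (hr : 0 < r) {g : GL (Fin d) O} (hg : Cg ϖ r g) :
    GeneralLinearGroup.map π₀ g = 1 := by
  obtain ⟨X, hX⟩ := hg
  apply Units.ext
  show (g : Matrix (Fin d) (Fin d) O).map π₀ = 1
  rw [hX]
  ext i j
  rw [Matrix.map_apply, Matrix.add_apply, map_add, Matrix.smul_apply, smul_eq_mul, map_mul, map_pow, h0,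
    zero_pow hr.ne', zero_mul, add_zero, Matrix.one_apply, Matrix.one_apply]
  split_ifs <;> simp

end Defs

section Main

variable {O k : Type} [CommRing O] [IsDomain O] [IsDiscreteValuationRing O] [Field k] [Finite k] {ϖ : O}
  (hϖ : Irreducible ϖ) (π₀ : O →+* k) (hπ₀ : Function.Surjective π₀) {d : ℕ}

omit [Finite k] [Field k] in
lemma cg_iff (r : ℕ) (g : GL (Fin d) O) :
    Cg ϖ r g ↔ GeneralLinearGroup.map (Ideal.Quotient.mk (Ideal.span {ϖ ^ r})) g = 1 := by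
  constructor
  · rintro ⟨X, hX⟩
    apply Units.ext
    show (g : Matrix (Fin d) (Fin d) O).map _ = 1
    rw [hX]
    ext i j
    rw [Matrix.map_apply, Matrix.add_apply, Matrix.smul_apply, map_add, smul_eq_mul, map_mul,
      (show Ideal.Quotient.mk (Ideal.span {ϖ ^ r}) (ϖ ^ r) = 0 by rw [mk_zero_iff]), zero_mul, add_zero,
      Matrix.one_apply, Matrix.one_apply]
    split_ifs <;> simp
  · intro h
    have h1 : ∀ i j, ∃ x, (g : Matrix (Fin d) (Fin d) O) i j - (1 : Matrix (Fin d) (Fin d) O) i j = ϖ ^ r * x := by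
      intro i j
      have h2 := congrArg (fun (M : GL (Fin d) (O ⧸ Ideal.span {ϖ ^ r})) => M.val i j) h
      simp only [GeneralLinearGroup.map_apply, Units.val_one] at h2
      have h3 : Ideal.Quotient.mk (Ideal.span {ϖ ^ r}) ((g : Matrix (Fin d) (Fin d) O) i j -
          (1 : Matrix (Fin d) (Fin d) O) i j) = 0 := by
        rw [map_sub, h2, Matrix.one_apply, Matrix.one_apply]
        split_ifs <;> simp
      rw [mk_zero_iff] at h3
      exact h3
    choose X hX using h1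
    refine ⟨Matrix.of X, ?_⟩
    ext i j
    rw [Matrix.add_apply, Matrix.smul_apply, smul_eq_mul, Matrix.of_apply, ← hX]
    ring

include hϖ hπ₀ in
lemma gl_surj {r : ℕ} (hr : r ≠ 0) :
    Function.Surjective (GeneralLinearGroup.map (n := Fin d) (Ideal.Quotient.mk (Ideal.span {ϖ ^ r}))) := by
  intro Q
  choose Qe hQe using fun (ij : Fin d × Fin d) =>
    Ideal.Quotient.mk_surjective (I := Ideal.span {ϖ ^ r}) ((Q : Matrix (Fin d) (Fin d) _) ij.1 ij.2)
  have hQmap : (Matrix.of fun i j => Qe (i, j)).map (Ideal.Quotient.mk (Ideal.span {ϖ ^ r})) =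
      (Q : Matrix (Fin d) (Fin d) _) := by
    ext i j
    simp [hQe]
  obtain ⟨Q', hQ'⟩ : IsUnit (Matrix.of fun i j => Qe (i, j)) := by
    rw [Matrix.isUnit_iff_isUnit_det]
    have h1 : IsUnit (Ideal.Quotient.mk (Ideal.span {ϖ ^ r}) (Matrix.of fun i j => Qe (i, j)).det) := by
      have h2 : Ideal.Quotient.mk (Ideal.span {ϖ ^ r}) (Matrix.of fun i j => Qe (i, j)).det =
          ((Matrix.of fun i j => Qe (i, j)).map (Ideal.Quotient.mk (Ideal.span {ϖ ^ r}))).det := by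
        rw [RingHom.map_det]; rfl
      rw [h2, hQmap]
      exact (Matrix.isUnit_iff_isUnit_det _).1 Q.isUnit
    have h3 : IsUnit (π₀ (Matrix.of fun i j => Qe (i, j)).det) := by
      have := h1.map (pr hϖ π₀ hπ₀ hr)
      rwa [pr_mk] at this
    by_contra h4
    have h5 : (Matrix.of fun i j => Qe (i, j)).det ∈ IsLocalRing.maximalIdeal O :=
      (IsLocalRing.mem_maximalIdeal _).2 h4
    rw [hϖ.maximalIdeal_eq, Ideal.mem_span_singleton, ← ker_pi0 hϖ π₀ hπ₀] at h5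
    rw [h5] at h3
    exact not_isUnit_zero h3
  refine ⟨Q', ?_⟩
  apply Units.ext
  show (Q' : Matrix (Fin d) (Fin d) O).map _ = _
  rw [hQ', hQmap]


end Main

section Desc

variable {G H : Type} [Group G] [Group H] (M : G →* H) (hM : Function.Surjective M)
  {V : Type} [AddCommGroup V] [Module ℂ V] (ρ : Representation ℂ G V) (δ : G →* ℂˣ)
  (hδ : ∀ g, M g = 1 → ρ g = ((δ g : ℂˣ) : ℂ) • LinearMap.id)

include hM hδ in
/-- the twisted representation of the quotient -/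
lemma exists_desc : ∃ ρ' : Representation ℂ H V, ∀ g, ρ' (M g) = ((δ g : ℂˣ) : ℂ)⁻¹ • ρ g := by
  have hwell : ∀ g g', M g = M g' → ((δ g : ℂˣ) : ℂ)⁻¹ • ρ g = ((δ g' : ℂˣ) : ℂ)⁻¹ • ρ g' := by
    intro g g' h
    have h1 : M (g'⁻¹ * g) = 1 := by rw [map_mul, map_inv, h, inv_mul_cancel]
    have h2 := hδ _ h1
    have h3 : ρ g = ρ g' * ρ (g'⁻¹ * g) := by rw [← map_mul, mul_inv_cancel_left]
    rw [h3, h2, map_mul, map_inv]
    have e1 : (LinearMap.id : V →ₗ[ℂ] V) = 1 := rfl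
    rw [e1, mul_smul_comm, mul_one, smul_smul, Units.val_mul, Units.val_inv_eq_inv_val]
    congr 1
    have h4 : ((δ g : ℂˣ) : ℂ) ≠ 0 := Units.ne_zero _
    have h5 : ((δ g' : ℂˣ) : ℂ) ≠ 0 := Units.ne_zero _
    field_simp
  choose σ hσ using hM
  refine ⟨{ toFun := fun h => ((δ (σ h) : ℂˣ) : ℂ)⁻¹ • ρ (σ h), map_one' := ?_, map_mul' := ?_ }, ?_⟩
  · rw [hwell (σ 1) 1 (by rw [hσ, map_one]), map_one, map_one]
    simp
  · intro a b
    rw [hwell (σ (a * b)) (σ a * σ b) (by rw [hσ, map_mul, hσ, hσ]), map_mul, map_mul, Units.val_mul, mul_inv,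
      smul_mul_smul_comm]
  · intro g
    exact hwell _ _ (hσ _)

include hM in
lemma desc_irr (hirr : ρ.IsIrreducible) (ρ' : Representation ℂ H V)
    (h : ∀ g, ρ' (M g) = ((δ g : ℂˣ) : ℂ)⁻¹ • ρ g) : ρ'.IsIrreducible := by
  have hV := nontriv_of_irr ρ hirr
  have hn : Nontrivial (Subrepresentation ρ') := by
    refine ⟨⊥, ⊤, fun h' => ?_⟩
    have h1 := congrArg Subrepresentation.toSubmodule h'
    exact bot_ne_top h1
  exact { eq_bot_or_eq_top := fun a => by
            have h1 := hirr.eq_bot_or_eq_top (⟨a.toSubmodule, fun g v hv => by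
              have h2 := a.apply_mem_toSubmodule (M g) hv
              rw [h, LinearMap.smul_apply] at h2
              have h3 := a.toSubmodule.smul_mem ((δ g : ℂˣ) : ℂ) h2
              rwa [smul_smul, mul_inv_cancel₀ (Units.ne_zero _), one_smul] at h3⟩ : Subrepresentation ρ)
            rcases h1 with h1 | h1
            · left
              have h2 : a.toSubmodule = ⊥ := congrArg Subrepresentation.toSubmodule h1
              exact Subrepresentation.toSubmodule_injective h2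
            · right
              have h2 : a.toSubmodule = ⊤ := congrArg Subrepresentation.toSubmodule h1
              exact Subrepresentation.toSubmodule_injective h2 }

end Desc

section Main2

variable {O k : Type} [CommRing O] [IsDomain O] [IsDiscreteValuationRing O] [Field k] [Finite k] {ϖ : O}
  (hϖ : Irreducible ϖ) (π₀ : O →+* k) (hπ₀ : Function.Surjective π₀) {d : ℕ}
  {V : Type} [AddCommGroup V] [Module ℂ V] [FiniteDimensional ℂ V] (ρ : Representation ℂ (GL (Fin d) O) V)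
  (hirr : ρ.IsIrreducible)

include hϖ hπ₀ hirr in
/-- **character ratios** -/
theorem ratio_smooth (p : ℕ) [hp : Fact p.Prime] [CharP k p] (r : ℕ) (hr : ∀ r' < r, ¬ HasLevel ϖ r' ρ)
    (N m : ℕ) (g : GL (Fin d) O) (hN0 : 0 < N) (hN : ∀ g', Cg ϖ N g' → ρ g' = LinearMap.id) (hm : ¬ p ∣ m)
    (hgm : Cg ϖ N (g ^ m))
    (hg : ¬ ∃ c : k, ((GeneralLinearGroup.map π₀ g : GL (Fin d) k) : Matrix (Fin d) (Fin d) k) = c • 1) :
    ‖LinearMap.trace ℂ V (ρ g)‖ * (Nat.card k : ℝ) ^ (r / 4) ≤ finrank ℂ V := by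
  classical
  have hV := nontriv_of_irr ρ hirr
  have hm0 : 0 < m := Nat.pos_of_ne_zero (by rintro rfl; exact hm (dvd_zero p))
  have hπϖ : π₀ ϖ = 0 := (ker_pi0 hϖ π₀ hπ₀ ϖ).2 dvd_rfl
  have hex : ∃ r, HasLevel ϖ r ρ := ⟨N, 1, fun g' hg' => by
    rw [hN g' hg', MonoidHom.one_apply, Units.val_one, one_smul]⟩
  obtain ⟨r0, hr0⟩ : ∃ r0, r0 = Nat.find hex := ⟨_, rfl⟩
  have hL : HasLevel ϖ r0 ρ := by rw [hr0]; exact Nat.find_spec hex
  have hmin : ∀ r' < r0, ¬ HasLevel ϖ r' ρ := by rw [hr0]; exact fun r' h => Nat.find_min hex h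
  have hrr : r ≤ r0 := by
    by_contra hcon
    exact hr r0 (by omega) hL
  have hq : (1 : ℝ) ≤ Nat.card k := by
    exact_mod_cast Nat.card_pos
  have hgoal : ‖LinearMap.trace ℂ V (ρ g)‖ * (Nat.card k : ℝ) ^ (r0 / 4) ≤ finrank ℂ V → 
      ‖LinearMap.trace ℂ V (ρ g)‖ * (Nat.card k : ℝ) ^ (r / 4) ≤ finrank ℂ V := by
    intro h
    refine le_trans (mul_le_mul_of_nonneg_left (pow_le_pow_right₀ hq (Nat.div_le_div_right hrr)) (norm_nonneg _)) h
  apply hgoal
  rcases Nat.lt_or_ge r0 2 with hsmall | hlarge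
  · rw [show r0 / 4 = 0 by omega, pow_zero, mul_one]
    apply norm_trace_le _ m hm0
    rw [← map_pow]
    exact hN _ hgm
  have hNr : r0 ≤ N := by
    by_contra hcon
    exact hmin N (by omega) ⟨1, fun g' hg' => by
      rw [hN g' hg', MonoidHom.one_apply, Units.val_one, one_smul]⟩
  obtain ⟨χ, hχ⟩ := hL
  have hr00 : r0 ≠ 0 := by omega
  have hsurj := gl_surj hϖ π₀ hπ₀ (d := d) hr00
  have hker : ∀ g, GeneralLinearGroup.map (Ideal.Quotient.mk (Ideal.span {ϖ ^ r0})) g = 1 →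
      ρ g = (((χ.comp GeneralLinearGroup.det) g : ℂˣ) : ℂ) • LinearMap.id := by
    intro g hg
    rw [← cg_iff] at hg
    exact hχ g hg
  obtain ⟨ρ', hρ'⟩ := exists_desc _ hsurj ρ (χ.comp GeneralLinearGroup.det) hker
  have hirr' := desc_irr _ hsurj ρ (χ.comp GeneralLinearGroup.det) hirr ρ' hρ'
  have := finite_quot' hϖ π₀ hπ₀ r0
  have hfin := ratio_level (chain hϖ π₀ hπ₀ hr00) p hlarge ρ' hirr' (by
    rintro ⟨χ₂, hχ₂⟩
    apply hmin (r0 - 1) (by omega)
    refine ⟨χ * χ₂.comp (Units.map (Ideal.Quotient.mk (Ideal.span {ϖ ^ r0})).toMonoidHom), ?_⟩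
    rintro g' ⟨X, hX⟩
    have h1 := hχ₂ (GeneralLinearGroup.map (Ideal.Quotient.mk (Ideal.span {ϖ ^ r0})) g')
      ⟨X.map (Ideal.Quotient.mk (Ideal.span {ϖ ^ r0})), by
        show (g' : Matrix (Fin d) (Fin d) O).map _ = _
        rw [hX]
        ext i j
        simp only [Matrix.map_apply, Matrix.add_apply, Matrix.smul_apply, smul_eq_mul, map_add, map_mul, map_pow,
          Matrix.one_apply]
        split_ifs <;> simp⟩
    rw [hρ'] at h1
    have h2 := congrArg (fun T => (((χ.comp GeneralLinearGroup.det) g' : ℂˣ) : ℂ) • T) h1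
    simp only [smul_smul] at h2
    rw [mul_inv_cancel₀ (Units.ne_zero _), one_smul] at h2
    rw [h2, MonoidHom.mul_apply, Units.val_mul]
    congr 2
    congr 1
    show χ₂ _ = χ₂ _
    congr 1
    apply Units.ext
    show ((g' : Matrix (Fin d) (Fin d) O).map _).det = Ideal.Quotient.mk (Ideal.span {ϖ ^ r0}) ((g' : Matrix (Fin d) (Fin d) O).det)
    rw [RingHom.map_det]
    rfl) (GeneralLinearGroup.map (Ideal.Quotient.mk (Ideal.span {ϖ ^ r0})) g) m hm (by
    have h1 := Cg_red π₀ hπϖ hN0 hgm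
    rw [map_pow] at h1
    have h2 := congrArg (fun Q : GL (Fin d) k => Q.val) h1
    simp only [Units.val_pow_eq_pow_val, Units.val_one] at h2
    exact h2) (by
    rintro ⟨c, hc⟩
    exact hg ⟨c, hc⟩)
  rw [hρ', map_smul, norm_smul, norm_inv] at hfin
  have hn1 : ‖(((χ.comp GeneralLinearGroup.det) g : ℂˣ) : ℂ)‖ = 1 := by
    have h1 := hχ (g ^ m) (Cg_mono hNr hgm)
    rw [hN _ hgm] at h1
    obtain ⟨v, hv⟩ := exists_ne (0 : V)
    have h2 := LinearMap.congr_fun h1 v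
    rw [LinearMap.smul_apply, LinearMap.id_apply] at h2
    have h3 : ((χ (GeneralLinearGroup.det (g ^ m)) : ℂˣ) : ℂ) = 1 := by
      have h4 : (((χ (GeneralLinearGroup.det (g ^ m)) : ℂˣ) : ℂ) - 1) • v = 0 := by
        rw [sub_smul, ← h2, one_smul, sub_self]
      rcases smul_eq_zero.1 h4 with h5 | h5
      · exact sub_eq_zero.1 h5
      · exact absurd h5 hv
    have h6 : (((χ.comp GeneralLinearGroup.det) g : ℂˣ) : ℂ) ^ m = 1 := by
      rw [← h3, ← Units.val_pow_eq_pow_val, ← map_pow]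
      rfl
    have h7 : ‖(((χ.comp GeneralLinearGroup.det) g : ℂˣ) : ℂ)‖ ^ m = 1 := by
      rw [← norm_pow, h6, norm_one]
    exact (pow_eq_one_iff_of_nonneg (norm_nonneg _) hm0.ne').1 h7
  rw [hn1, inv_one, one_mul] at hfin
  exact hfin

end Main2

end Pool.Agent.H498.EQ
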