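import Pool.Agent.H498.EQ.VRam
import Pool.Agent.H498.EQ.Fin5

/-!
# Very ramified types: exact multiplicities
-/

set_option autoImplicit false

namespace Pool.Agent.H498.EQ

open Matrix Module Pool.Agent.N28.BM Pool.Agent.H498.BT

/-- `θ` is the Brauer character of the reduction of a very ramified irreducible smooth representation of `GL_d(O)`
of dimension `δ`: the matrix `β` of `HasOrbit` has one Jordan block, with eigenvalue in `k`. -/
def IsVeryRam {O k : Type} [CommRing O] [Field k] (ϖ : O) (π₀ : O →+* k) (p : ℕ) {d : ℕ} (θ : GL (Fin d) k → ℂ)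
    (δ : ℕ) : Prop :=
  ∃ (V : Type) (_ : AddCommGroup V) (_ : Module ℂ V) (_ : FiniteDimensional ℂ V)
    (ρ : Representation ℂ (GL (Fin d) O) V), ρ.IsIrreducible ∧ Smooth ϖ ρ ∧ finrank ℂ V = δ ∧
      IsRed ϖ π₀ p θ ρ ∧ ∃ β, OneBlock β ∧ HasOrbit ϖ π₀ ρ β

lemma IsVeryRam.isType {O k : Type} [CommRing O] [Field k] {ϖ : O} {π₀ : O →+* k} {p : ℕ} {d : ℕ}
    {θ : GL (Fin d) k → ℂ} {δ : ℕ} (h : IsVeryRam ϖ π₀ p θ δ) : IsType ϖ π₀ p θ δ 0 := by
  obtain ⟨V, i1, i2, i3, ρ, h1, h2, h3, h4, _⟩ := h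
  exact ⟨V, i1, i2, i3, ρ, h1, h2, h3, h4, fun l' hl' => absurd hl' (Nat.not_lt_zero _)⟩

section Main

variable {k F : Type} [Field k] [Fintype k] [Field F] [IsAlgClosed F] (ι : k →+* F) {p f : ℕ}
  [hp : Fact p.Prime] [CharP F p] [CharP k p] {S : Type} [Fintype S] [DecidableEq S] {n : ℕ} (κ : S → ZMod f)
  (t : Fˣ →* ℂˣ) (ht : Function.Injective t) (s : Wt S (n + 1) → P S (n + 1)) (hs : IsWeyl s)
  (D : SerreWeights k F (n + 1) t)
  (hirr : ∀ w, IrrRep (D.rep w)) (hiso : ∀ w w', w ≠ w' → ¬ IsoRep (D.rep w) (D.rep w'))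
  {O : Type} [CommRing O] [IsDomain O] [IsDiscreteValuationRing O] {ϖ : O} (hϖ : Irreducible ϖ)
  (π₀ : O →+* k) (hπ₀ : Function.Surjective π₀)
  (r : D.W → ℕ) (hr : ∀ g : GL (Fin (n + 1)) k, ¬ p ∣ orderOf g → ∑ w, (r w : ℂ) * D.br w g =
    open scoped Classical in if g = 1 then (Nat.card (GL (Fin (n + 1)) k) : ℂ) else 0)

include hϖ hπ₀ in
lemma vr_theta {θ : GL (Fin (n + 1)) k → ℂ} {δ : ℕ} (hθ : IsVeryRam ϖ π₀ p θ δ) (g : GL (Fin (n + 1)) k)
    (hg : ¬ p ∣ orderOf g) (hgs : ¬ ∃ c : k, (g : Matrix (Fin (n + 1)) (Fin (n + 1)) k) = c • 1) : θ g = 0 := by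
  obtain ⟨V, _, _, _, ρ, hirr, hsm, hδ, hred, β, hβ, hor⟩ := hθ
  obtain ⟨N, hN0, hN⟩ := smooth_pos ρ hsm
  obtain ⟨u, m, hm, hum, hu⟩ := lift_preg hϖ π₀ hπ₀ p g hg hN0.ne'
  rw [← hu, hred N m u hN0 hN hm hum]
  apply orbit_trace hϖ π₀ hπ₀ ρ hirr β hor
  intro h hcomm
  rw [hu] at hcomm
  apply hgs
  obtain ⟨c, hc⟩ := comm_oneBlock (p := p) β hβ _ (orderOf g) hg (by
    rw [← Units.val_pow_eq_pow_val, conj_pow, pow_orderOf_eq_one, mul_one, mul_inv_cancel, Units.val_one]) hcomm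
  refine ⟨c, ?_⟩
  have e2 : g = h⁻¹ * (h * g * h⁻¹) * h := by group
  rw [e2, Units.val_mul, Units.val_mul, hc, mul_smul_comm, smul_mul_assoc, mul_one, ← Units.val_mul,
    inv_mul_cancel, Units.val_one]

include ht hs hirr hiso hϖ hπ₀ hr in
/-- **the multiplicities for very ramified types** -/
theorem vr_mult {θ : GL (Fin (n + 1)) k → ℂ} {δ : ℕ} (hθ : IsVeryRam ϖ π₀ p θ δ)
    {mult : Wt S (n + 1) → D.W → ℕ} (hmult : IsMult ι (p := p) κ t s D θ mult) (h : Wt S (n + 1)) (hh : Dom h)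
    (w : D.W) : (¬ SameChar t D (mult h) w → mult h w = 0) ∧
      (SameChar t D (mult h) w → (mult h w : ℝ) * Nat.card (GL (Fin (n + 1)) k) =
        ((Fintype.card k : ℝ) - 1) * r w * (wdim h * δ)) := by
  classical
  have hBr := brauer p t ht D.dim D.rep hirr hiso D.br D.br_eq
  have hA := pair_one ι κ t s hs D π₀ hθ.isType hmult h hh
  have hA0 : 0 < wdim h * (δ : ℝ) := mul_pos (wdim_pos h hh) (by exact_mod_cast delta_pos hθ.isType)
  have hAne : ∑ w, (mult h w : ℂ) * D.br w 1 ≠ 0 := by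
    rw [hA]
    exact_mod_cast hA0.ne'
  obtain ⟨hcore1, hcore2⟩ := core' t D hirr hBr r hr (mult h)
    (pair_scale ι κ t s hs D hϖ π₀ hπ₀ hθ.isType hmult h hh) hAne
  refine ⟨hcore1 w, fun hS => ?_⟩
  have h2 := (Fintype.linearIndependent_iff.1 hBr) (fun w => ((mult h w : ℂ) -
    if SameChar t D (mult h) w then ((Fintype.card k : ℂ) - 1) * r w *
        (∑ w', (mult h w' : ℂ) * D.br w' 1) / Nat.card (GL (Fin (n + 1)) k) else 0)) (by
    funext g
    rw [Finset.sum_apply, Pi.zero_apply]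
    have h3 := hcore2 g.1 g.2
    have h4 : (if (∃ c : k, ((g : GL (Fin (n + 1)) k) : Matrix (Fin (n + 1)) (Fin (n + 1)) k) = c • 1) then (0 : ℂ) else
        ∑ w, (mult h w : ℂ) * D.br w g) = 0 := by
      split_ifs with hS'
      · rfl
      · obtain ⟨x, hx⟩ := list_eigen ι (g : GL (Fin (n + 1)) k)
        rw [hmult h hh _ x hx, vr_theta hϖ π₀ hπ₀ hθ g.1 g.2 hS', mul_zero]
    rw [h4] at h3
    refine (Finset.sum_congr rfl fun w _ => ?_).trans h3
    rw [Pi.smul_apply, smul_eq_mul]) w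
  rw [if_pos hS, hA, sub_eq_zero] at h2
  have hG : (Nat.card (GL (Fin (n + 1)) k) : ℂ) ≠ 0 := by exact_mod_cast Nat.card_pos.ne'
  rw [eq_div_iff hG] at h2
  have h5 : (((mult h w : ℝ) * Nat.card (GL (Fin (n + 1)) k) : ℝ) : ℂ) =
      ((((Fintype.card k : ℝ) - 1) * r w * (wdim h * δ) : ℝ) : ℂ) := by
    push_cast at h2 ⊢
    linear_combination h2
  exact_mod_cast h5

/-- The scalar matrices act on the representation with the multiplicities `m` through the character `ω`. -/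
def HasChar (m : D.W → ℕ) (ω : kˣ →* ℂˣ) : Prop :=
  ∀ a : kˣ, ∑ w, (m w : ℂ) * D.br w (sc a) = ((ω a : ℂˣ) : ℂ) * ∑ w, (m w : ℂ) * D.br w 1

/-- The scalar matrices act on the Serre weight `w` through the character `ω`. -/
def WtChar (w : D.W) (ω : kˣ →* ℂˣ) : Prop := ∀ a : kˣ, D.br w (sc a) = ((ω a : ℂˣ) : ℂ) * D.br w 1

omit [Fintype k] [CharP F p] [CharP k p] hp [IsAlgClosed F] in
lemma same_iff (m : D.W → ℕ) (hm : ∑ w, (m w : ℂ) * D.br w 1 ≠ 0) (ω : kˣ →* ℂˣ) (h : HasChar t D m ω) (w : D.W) :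
    SameChar t D m w ↔ WtChar t D w ω := by
  unfold SameChar WtChar
  apply forall_congr'
  intro a
  rw [h a]
  constructor
  · intro h1
    apply mul_right_cancel₀ hm
    rw [h1]
    ring
  · intro h1
    rw [h1]
    ring

omit [Fintype k] [CharP F p] [CharP k p] hp [IsAlgClosed F] in
lemma closure_repr (P : D.W → Prop) (r : D.W → ℕ) (x : ℕ)
    (hx : x ∈ AddSubmonoid.closure {x | ∃ w, P w ∧ x = r w}) :
    open scoped Classical in ∃ c : D.W → ℕ, x = ∑ w, if P w then r w * c w else 0 := by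
  classical
  induction hx using AddSubmonoid.closure_induction with
  | mem x hx =>
    obtain ⟨w, hw, rfl⟩ := hx
    refine ⟨Pi.single w 1, ?_⟩
    rw [Finset.sum_eq_single w]
    · rw [if_pos hw, Pi.single_eq_same, mul_one]
    · intro w' _ hw'
      rw [Pi.single_eq_of_ne hw', mul_zero, ite_self]
    · intro h
      exact absurd (Finset.mem_univ _) h
  | zero => exact ⟨0, by simp⟩
  | add x y _ _ hx hy =>
    obtain ⟨c, rfl⟩ := hx
    obtain ⟨c', rfl⟩ := hy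
    refine ⟨c + c', ?_⟩
    rw [← Finset.sum_add_distrib]
    refine Finset.sum_congr rfl fun w _ => ?_
    split_ifs
    · rw [Pi.add_apply, mul_add]
    · rfl

include ht hs hirr hiso hϖ hπ₀ hr in
/-- **Q1 for very ramified types** -/
theorem vr_q1 {T : Type} (θ : T → GL (Fin (n + 1)) k → ℂ) (δ : T → ℕ) (hθ : ∀ τ, IsVeryRam ϖ π₀ p (θ τ) (δ τ))
    (mult : T → Wt S (n + 1) → D.W → ℕ) (hmult : ∀ τ, IsMult ι (p := p) κ t s D (θ τ) (mult τ))
    (e : T → Wt S (n + 1) → ℕ) :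
    (∃ μ : D.W → ℕ, ∀ τ h, Dom h → e τ h = ∑ w, mult τ h w * μ w) ↔
    ∃ A : (kˣ →* ℂˣ) → ℕ, (∀ ω, A ω ∈ AddSubmonoid.closure {x | ∃ w, WtChar t D w ω ∧ x = r w}) ∧
      ∀ τ h, Dom h → ∀ ω, HasChar t D (mult τ h) ω →
        (e τ h : ℝ) * Nat.card (GL (Fin (n + 1)) k) = ((Fintype.card k : ℝ) - 1) * A ω * (wdim h * δ τ) := by
  classical
  have hG : (0 : ℝ) < Nat.card (GL (Fin (n + 1)) k) := by exact_mod_cast Nat.card_pos
  have hne : ∀ τ h, Dom h → ∑ w, (mult τ h w : ℂ) * D.br w 1 ≠ 0 := by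
    intro τ h hh
    rw [pair_one ι κ t s hs D π₀ (hθ τ).isType (hmult τ) h hh]
    have hA0 : 0 < wdim h * (δ τ : ℝ) := mul_pos (wdim_pos h hh) (by exact_mod_cast delta_pos (hθ τ).isType)
    exact_mod_cast hA0.ne'
  have key : ∀ (μ : D.W → ℕ) τ h, Dom h → ∀ ω, HasChar t D (mult τ h) ω →
      ((∑ w, mult τ h w * μ w : ℕ) : ℝ) * Nat.card (GL (Fin (n + 1)) k) =
        ((Fintype.card k : ℝ) - 1) * ((∑ w, if WtChar t D w ω then r w * μ w else 0 : ℕ) : ℝ) * (wdim h * δ τ) := by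
    intro μ τ h hh ω hω
    push_cast
    rw [Finset.sum_mul, Finset.mul_sum, Finset.sum_mul]
    refine Finset.sum_congr rfl fun w _ => ?_
    obtain ⟨h1, h2⟩ := vr_mult ι κ t ht s hs D hirr hiso hϖ π₀ hπ₀ r hr (hθ τ) (hmult τ) h hh w
    rw [same_iff t D _ (hne τ h hh) ω hω w] at h1 h2
    split_ifs with hS
    · have h3 := h2 hS
      calc (mult τ h w : ℝ) * μ w * Nat.card (GL (Fin (n + 1)) k)
          = ((mult τ h w : ℝ) * Nat.card (GL (Fin (n + 1)) k)) * μ w := by ring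
        _ = _ := by rw [h3]; ring
    · rw [h1 hS]
      simp
  have hex : ∀ τ h, Dom h → ∃ ω, HasChar t D (mult τ h) ω := by
    intro τ h hh
    obtain ⟨ω, hω⟩ := exists_omega_f t D (mult τ h)
      (pair_scale ι κ t s hs D hϖ π₀ hπ₀ (hθ τ).isType (hmult τ) h hh) (hne τ h hh)
    refine ⟨ω, fun a => ?_⟩
    have h1 := hω a 1 (by
      rw [orderOf_one]
      intro h
      exact hp.out.one_lt.ne' (Nat.dvd_one.1 h))
    simpa using h1
  constructor
  · rintro ⟨μ, hμ⟩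
    refine ⟨fun ω => ∑ w, if WtChar t D w ω then r w * μ w else 0, ?_, ?_⟩
    · intro ω
      refine AddSubmonoid.sum_mem _ fun w _ => ?_
      split_ifs with hS
      · rw [mul_comm, ← smul_eq_mul]
        refine AddSubmonoid.nsmul_mem _ (AddSubmonoid.subset_closure ?_) _
        exact ⟨w, hS, rfl⟩
      · exact AddSubmonoid.zero_mem _
    · intro τ h hh ω hω
      rw [hμ τ h hh]
      exact key μ τ h hh ω hω
  · rintro ⟨A, hA1, hA2⟩
    choose c hc using fun ω => closure_repr t D (fun w => WtChar t D w ω) r (A ω) (hA1 ω)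
    choose om hom using exists_omega t D hirr
    have hom' : ∀ w, WtChar t D w (om w) := by
      intro w a
      have := hom w a 1
      rwa [mul_one] at this
    have huniq : ∀ w ω, WtChar t D w ω → ω = om w := by
      intro w ω h1
      have hb : D.br w 1 ≠ 0 := by
        rw [br_one]
        exact_mod_cast (hirr w).1.ne'
      ext a
      apply mul_right_cancel₀ hb
      rw [← h1 a, ← hom' w a]
    refine ⟨fun w => c (om w) w, ?_⟩
    intro τ h hh
    obtain ⟨ω, hω⟩ := hex τ h hh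
    have h1 := hA2 τ h hh ω hω
    have h2 := key (fun w => c (om w) w) τ h hh ω hω
    have h3 : (∑ w, if WtChar t D w ω then r w * c (om w) w else 0) = A ω := by
      rw [hc ω]
      refine Finset.sum_congr rfl fun w _ => ?_
      split_ifs with hS
      · rw [← huniq w ω hS]
      · rfl
    rw [h3] at h2
    have h4 : (e τ h : ℝ) * Nat.card (GL (Fin (n + 1)) k) =
        ((∑ w, mult τ h w * c (om w) w : ℕ) : ℝ) * Nat.card (GL (Fin (n + 1)) k) := by rw [h1, h2]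
    exact_mod_cast mul_right_cancel₀ hG.ne' h4

include ht hs hirr hiso hϖ hπ₀ hr in
/-- all types are asymptotically proportional to the very ramified ones -/
theorem vr_limit (z : D.W → ℤ) : ∃ C : ℝ, 0 < C ∧
    ∀ (θ : GL (Fin (n + 1)) k → ℂ) (δ : ℕ), IsVeryRam ϖ π₀ p θ δ → ∀ mult : Wt S (n + 1) → D.W → ℕ,
      IsMult ι (p := p) κ t s D θ mult →
    ∀ (θ' : GL (Fin (n + 1)) k → ℂ) (δ' l' : ℕ), IsType ϖ π₀ p θ' δ' l' → ∀ mult' : Wt S (n + 1) → D.W → ℕ,
      IsMult ι (p := p) κ t s D θ' mult' → 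
    ∀ h h' : Wt S (n + 1), Dom h → Dom h' → SamePair t D (mult h) (mult' h') → ∀ σ : S,
      |(∑ w, (mult' h' w : ℝ) * z w) / (wdim h' * δ') - (∑ w, (mult h w : ℝ) * z w) / (wdim h * δ)| *
        (((h' σ 0 - h' σ (Fin.last n) : ℤ) : ℝ) * (Fintype.card k : ℝ) ^ (l' / 4)) ≤ C := by
  classical
  obtain ⟨C, hC, hb⟩ := main_bound ι κ t ht s hs D hirr hiso hϖ π₀ hπ₀ r hr
  refine ⟨(∑ w, |(z w : ℝ)|) * C + 1, by positivity, ?_⟩
  intro θ δ hθ mult hmult θ' δ' l' hθ' mult' hmult' h h' hh hh' hpair σ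
  have hG : (0 : ℝ) < Nat.card (GL (Fin (n + 1)) k) := by exact_mod_cast Nat.card_pos
  have hA0 : 0 < wdim h * (δ : ℝ) := mul_pos (wdim_pos h hh) (by exact_mod_cast delta_pos hθ.isType)
  have hA0' : 0 < wdim h' * (δ' : ℝ) := mul_pos (wdim_pos h' hh') (by exact_mod_cast delta_pos hθ')
  have hne : ∑ w, (mult h w : ℂ) * D.br w 1 ≠ 0 := by
    rw [pair_one ι κ t s hs D π₀ hθ.isType hmult h hh]
    exact_mod_cast hA0.ne'
  have hne' : ∑ w, (mult' h' w : ℂ) * D.br w 1 ≠ 0 := by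
    rw [pair_one ι κ t s hs D π₀ hθ' hmult' h' hh']
    exact_mod_cast hA0'.ne'
  obtain ⟨K, hK⟩ : ∃ K : ℝ, K = ((h' σ 0 - h' σ (Fin.last n) : ℤ) : ℝ) * (Fintype.card k : ℝ) ^ (l' / 4) := ⟨_, rfl⟩
  have hgap : (0 : ℝ) ≤ ((h' σ 0 - h' σ (Fin.last n) : ℤ) : ℝ) := by
    have := (hh' σ).antitone (Fin.zero_le (Fin.last n))
    exact_mod_cast sub_nonneg.2 this
  have hK0 : 0 ≤ K := by rw [hK]; positivity
  rw [← hK]
  have e1 : (∑ w, (mult h w : ℝ) * z w) / (wdim h * δ) =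
      ∑ w, (if SameChar t D (mult h) w then ((Fintype.card k : ℝ) - 1) * r w / Nat.card (GL (Fin (n + 1)) k) else 0) * z w := by
    rw [Finset.sum_div]
    refine Finset.sum_congr rfl fun w _ => ?_
    obtain ⟨h1, h2⟩ := vr_mult ι κ t ht s hs D hirr hiso hϖ π₀ hπ₀ r hr hθ hmult h hh w
    split_ifs with hS
    · have h3 := h2 hS
      have h4 : (mult h w : ℝ) = ((Fintype.card k : ℝ) - 1) * r w * (wdim h * δ) / Nat.card (GL (Fin (n + 1)) k) := by
        rw [eq_div_iff hG.ne', h3]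
      rw [h4, div_eq_iff hA0.ne']
      ring
    · rw [h1 hS]
      simp
  have e2 : (∑ w, (mult' h' w : ℝ) * z w) / (wdim h' * δ') - (∑ w, (mult h w : ℝ) * z w) / (wdim h * δ) =
      (∑ w, ((mult' h' w : ℝ) - mainTerm t D r (mult' h') (wdim h' * δ') w) * z w) / (wdim h' * δ') := by
    rw [e1, Finset.sum_div, Finset.sum_div, ← Finset.sum_sub_distrib]
    refine Finset.sum_congr rfl fun w _ => ?_
    unfold mainTerm
    rw [same_of_pair t D _ _ hne hne' hpair w]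
    split_ifs
    · rw [eq_div_iff hA0'.ne', sub_mul, div_mul_cancel₀ _ hA0'.ne']
      ring
    · simp
  rw [e2, abs_div, abs_of_pos hA0', div_mul_eq_mul_div, div_le_iff₀ hA0']
  have h5 : |∑ w, ((mult' h' w : ℝ) - mainTerm t D r (mult' h') (wdim h' * δ') w) * z w| * K ≤
      (∑ w, |(z w : ℝ)|) * (C * (wdim h' * δ')) := by
    calc |∑ w, ((mult' h' w : ℝ) - mainTerm t D r (mult' h') (wdim h' * δ') w) * z w| * K
        ≤ (∑ w, |((mult' h' w : ℝ) - mainTerm t D r (mult' h') (wdim h' * δ') w) * z w|) * K :=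
          mul_le_mul_of_nonneg_right (Finset.abs_sum_le_sum_abs _ _) hK0
      _ ≤ _ := by
        rw [Finset.sum_mul, Finset.sum_mul]
        refine Finset.sum_le_sum fun w _ => ?_
        rw [abs_mul, mul_comm |(mult' h' w : ℝ) - _|, mul_assoc]
        apply mul_le_mul_of_nonneg_left _ (abs_nonneg _)
        have h2 := (hb θ' δ' l' hθ' mult' hmult' h' hh' w).2 σ
        rw [Nat.card_eq_fintype_card (α := k), ← hK] at h2
        exact h2
  refine h5.trans ?_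
  nlinarith

end Main

end Pool.Agent.H498.EQ
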