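import Pool.Agent.H498.EQ.Ram
import Pool.Agent.H498.EQ.Fin

/-!
# Very ramified representations: vanishing of the character off the centre
-/

set_option autoImplicit false

namespace Pool.Agent.H498.EQ

open Matrix Module Pool.Agent.N28.BM Pool.Agent.H498.BT

/-- For some `r ≥ 1` and some character `χ` of `Oˣ` the representation `ρ` of `GL_d(O)` is `χ ∘ det` on the
`g ≡ 1 mod ϖ ^ (r + 1)`, and there is a nonzero vector on which the `g = 1 + ϖ ^ r X` act by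
`χ(det g) Ψ(tr (β X))`, where `Ψ` is a nontrivial additive character of `k`. -/
def HasOrbit {O k : Type} [CommRing O] [Field k] (ϖ : O) (π₀ : O →+* k) {d : ℕ} {V : Type} [AddCommGroup V]
    [Module ℂ V] (ρ : Representation ℂ (GL (Fin d) O) V) (β : Matrix (Fin d) (Fin d) k) : Prop :=
  ∃ (r : ℕ) (χ : Oˣ →* ℂˣ) (Ψ : AddChar k ℂ) (v : V), 1 ≤ r ∧
    (∃ x, Ψ x ≠ 1) ∧ (∀ g, Cg ϖ (r + 1) g → ρ g = ((χ (GeneralLinearGroup.det g) : ℂˣ) : ℂ) • LinearMap.id) ∧
    v ≠ 0 ∧ ∀ (g : GL (Fin d) O) (X : Matrix (Fin d) (Fin d) O), (g : Matrix (Fin d) (Fin d) O) = 1 + ϖ ^ r • X →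
      ρ g v = (((χ (GeneralLinearGroup.det g) : ℂˣ) : ℂ) * Ψ (trace (β * X.map π₀))) • v

section Zero

variable {O k : Type} [CommRing O] [IsDomain O] [IsDiscreteValuationRing O] [Field k] [Finite k] {ϖ : O}
  (hϖ : Irreducible ϖ) (π₀ : O →+* k) (hπ₀ : Function.Surjective π₀) {d : ℕ}
  {V : Type} [AddCommGroup V] [Module ℂ V] [FiniteDimensional ℂ V] (ρ : Representation ℂ (GL (Fin d) O) V)
  (hirr : ρ.IsIrreducible)

/-- an eigenvector of an abelian group -/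
lemma exists_psi {H : Type} [Group H] (σ : Representation ℂ H V) (v : V) (hv : v ≠ 0) (c : H → ℂ)
    (h : ∀ g, σ g v = c g • v) : ∃ ψ : H →* ℂˣ, ∀ g, ((ψ g : ℂˣ) : ℂ) = c g := by
  have hcancel : ∀ a b : ℂ, a • v = b • v → a = b := by
    intro a b hab
    have h1 : (a - b) • v = 0 := by rw [sub_smul, hab, sub_self]
    rcases smul_eq_zero.1 h1 with h2 | h2
    · exact sub_eq_zero.1 h2
    · exact absurd h2 hv
  let c' : H →* ℂ :=
    { toFun := c
      map_one' := by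
        apply hcancel
        rw [← h, map_one, one_smul]
        rfl
      map_mul' := by
        intro a b
        apply hcancel
        rw [← h, map_mul, Module.End.mul_apply, h b, map_smul, h a, smul_smul, mul_comm] }
  exact ⟨c'.toHomUnits, fun g => rfl⟩

include hϖ hπ₀ hirr in
theorem orbit_trace (β : Matrix (Fin d) (Fin d) k) (hor : HasOrbit ϖ π₀ ρ β)
    (g : GL (Fin d) O)
    (hg : ∀ h : GL (Fin d) k, β * ((h * GeneralLinearGroup.map π₀ g * h⁻¹ : GL (Fin d) k) : Matrix (Fin d) (Fin d) k) ≠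
      ((h * GeneralLinearGroup.map π₀ g * h⁻¹ : GL (Fin d) k) : Matrix (Fin d) (Fin d) k) * β) :
    LinearMap.trace ℂ V (ρ g) = 0 := by
  classical
  have hV := nontriv_of_irr ρ hirr
  have hπϖ : π₀ ϖ = 0 := (ker_pi0 hϖ π₀ hπ₀ ϖ).2 dvd_rfl
  obtain ⟨r, χ, Ψ, v, hr1, ⟨x0, hx0⟩, hχ, hv0, hv⟩ := hor
  have hr00 : r + 1 ≠ 0 := by omega
  have hsurj := gl_surj hϖ π₀ hπ₀ (d := d) hr00
  obtain ⟨M, hM⟩ : ∃ M : GL (Fin d) O →* GL (Fin d) (O ⧸ Ideal.span {ϖ ^ (r + 1)}),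
    M = GeneralLinearGroup.map (Ideal.Quotient.mk (Ideal.span {ϖ ^ (r + 1)})) := ⟨_, rfl⟩
  have hker : ∀ g, M g = 1 → ρ g = (((χ.comp GeneralLinearGroup.det) g : ℂˣ) : ℂ) • LinearMap.id := by
    intro g hg
    rw [hM, ← cg_iff] at hg
    exact hχ g hg
  have hMsurj : Function.Surjective M := by rw [hM]; exact hsurj
  obtain ⟨ρ', hρ'⟩ := exists_desc M hMsurj ρ (χ.comp GeneralLinearGroup.det) hker
  have hirr' := desc_irr M hMsurj ρ (χ.comp GeneralLinearGroup.det) hirr ρ' hρ'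
  have := finite_quot' hϖ π₀ hπ₀ (r + 1)
  have hC := chain hϖ π₀ hπ₀ hr00
  have h2l : 2 * 1 ≤ r + 1 := by omega
  obtain ⟨ϖ', hϖ'⟩ : ∃ ϖ', ϖ' = Ideal.Quotient.mk (Ideal.span {ϖ ^ (r + 1)}) ϖ := ⟨_, rfl⟩
  rw [← hϖ'] at hC
  -- the action of the congruence subgroup
  have hact : ∀ κ : KL ϖ' 1 d, ∃ c : ℂ, ρ' (κ : GL (Fin d) (O ⧸ Ideal.span {ϖ ^ (r + 1)})) v = c • v := by
    intro κ
    obtain ⟨u, hu⟩ := hMsurj (κ : GL (Fin d) (O ⧸ Ideal.span {ϖ ^ (r + 1)}))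
    have h1 := (mem_KL 1 _).1 κ.2
    have h2 : ϖ' ^ 1 • (κ : GL (Fin d) (O ⧸ Ideal.span {ϖ ^ (r + 1)})).val - ϖ' ^ 1 • 1 = 0 := by
      rw [h1, sub_self]
    rw [← smul_sub] at h2
    obtain ⟨Y, hY⟩ := hC.annM 1 (by omega) _ h2
    rw [Nat.add_sub_cancel] at hY
    have hC2 : ∃ X : Matrix (Fin d) (Fin d) O, (u : Matrix (Fin d) (Fin d) O) = 1 + ϖ ^ r • X := by
      have h3 : ∀ i j, ϖ ^ r ∣ (u : Matrix (Fin d) (Fin d) O) i j - (1 : Matrix (Fin d) (Fin d) O) i j := by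
        intro i j
        have h4 := congrFun (congrFun hY i) j
        rw [← hu] at h4
        obtain ⟨y, hy⟩ := Ideal.Quotient.mk_surjective (Y i j)
        have h5 : Ideal.Quotient.mk (Ideal.span {ϖ ^ (r + 1)}) ((u : Matrix (Fin d) (Fin d) O) i j -
            (1 : Matrix (Fin d) (Fin d) O) i j) = Ideal.Quotient.mk (Ideal.span {ϖ ^ (r + 1)}) (ϖ ^ r * y) := by
          rw [Matrix.sub_apply, Matrix.smul_apply, smul_eq_mul, ← hy, hϖ', ← map_pow, ← map_mul, hM] at h4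
          rw [map_sub, ← h4]
          congr 1
          rw [Matrix.one_apply, Matrix.one_apply]
          split_ifs <;> simp
        rw [mk_eq] at h5
        have h6 := (pow_dvd_pow ϖ (Nat.le_succ r)).trans h5
        have h7 := dvd_add h6 (dvd_mul_right (ϖ ^ r) y)
        rwa [sub_add_cancel] at h7
      choose X hX using h3
      refine ⟨Matrix.of X, ?_⟩
      ext i j
      rw [Matrix.add_apply, Matrix.smul_apply, smul_eq_mul, Matrix.of_apply, ← hX]
      ring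
    obtain ⟨X, hX⟩ := hC2
    refine ⟨((((χ.comp GeneralLinearGroup.det) u : ℂˣ) : ℂ))⁻¹ * (((χ (GeneralLinearGroup.det u) : ℂˣ) : ℂ) *
      Ψ (trace (β * X.map π₀))), ?_⟩
    rw [← hu, hρ', LinearMap.smul_apply, hv u X hX, smul_smul]
  choose c hc using hact
  obtain ⟨ψ, hψ⟩ := exists_psi (ρ'.comp (KL ϖ' 1 d).subtype) v hv0 c hc
  have hψv : ∀ κ : KL ϖ' 1 d, ρ' (κ : GL (Fin d) (O ⧸ Ideal.span {ϖ ^ (r + 1)})) v = ((ψ κ : ℂˣ) : ℂ) • v := by
    intro κ
    rw [hψ]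
    exact hc κ
  -- the values of `ψ`
  have hlam : ∀ X : Matrix (Fin d) (Fin d) (O ⧸ Ideal.span {ϖ ^ (r + 1)}),
      ((lam hC h2l ψ X : ℂˣ) : ℂ) = Ψ (trace (β * X.map (pr hϖ π₀ hπ₀ hr00))) := by
    intro X
    have h3 := hψv (uK hC h2l X)
    choose Xe hXe using fun (ij : Fin d × Fin d) => Ideal.Quotient.mk_surjective (X ij.1 ij.2)
    obtain ⟨X', hX'⟩ : ∃ X' : Matrix (Fin d) (Fin d) O, X'.map (Ideal.Quotient.mk (Ideal.span {ϖ ^ (r + 1)})) = X :=
      ⟨Matrix.of fun i j => Xe (i, j), by ext i j; simp [hXe]⟩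
    obtain ⟨u, hu⟩ := hMsurj ((uK hC h2l X : KL ϖ' 1 d) : GL (Fin d) (O ⧸ Ideal.span {ϖ ^ (r + 1)}))
    have hE : ∃ X'' : Matrix (Fin d) (Fin d) O, (u : Matrix (Fin d) (Fin d) O) = 1 + ϖ ^ r • X'' ∧
        X''.map π₀ = X'.map π₀ := by
      have h4 : ∀ i j, ϖ ^ (r + 1) ∣ (u : Matrix (Fin d) (Fin d) O) i j -
          ((1 : Matrix (Fin d) (Fin d) O) i j + ϖ ^ r * X' i j) := by
        intro i j
        rw [← mk_eq]
        have h5 := congrArg (fun Q : GL (Fin d) (O ⧸ Ideal.span {ϖ ^ (r + 1)}) => Q.val i j) hu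
        simp only [hM] at h5
        rw [uK_val] at h5
        have h6 : Ideal.Quotient.mk (Ideal.span {ϖ ^ (r + 1)}) ((u : Matrix (Fin d) (Fin d) O) i j) =
            (1 + ϖ' ^ (r + 1 - 1) • X) i j := h5
        rw [h6, Matrix.add_apply, Matrix.smul_apply, smul_eq_mul, map_add, map_mul, map_pow, ← hϖ', ← hX',
          Matrix.map_apply, Nat.add_sub_cancel]
        congr 1
        rw [Matrix.one_apply, Matrix.one_apply]
        split_ifs <;> simp
      choose Y hY using h4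
      refine ⟨X' + ϖ • Matrix.of Y, ?_, ?_⟩
      · ext i j
        rw [Matrix.add_apply, Matrix.smul_apply, smul_eq_mul, Matrix.add_apply, Matrix.smul_apply, smul_eq_mul,
          Matrix.of_apply]
        have := hY i j
        linear_combination this
      · ext i j
        rw [Matrix.map_apply, Matrix.map_apply, Matrix.add_apply, Matrix.smul_apply, smul_eq_mul, map_add, map_mul,
          hπϖ, zero_mul, add_zero]
    obtain ⟨X'', hX1, hX2⟩ := hE
    rw [← hu, hρ', LinearMap.smul_apply, hv u X'' hX1, smul_smul] at h3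
    have h7 : ((((χ.comp GeneralLinearGroup.det) u : ℂˣ) : ℂ))⁻¹ * (((χ (GeneralLinearGroup.det u) : ℂˣ) : ℂ) *
      Ψ (trace (β * X''.map π₀))) = Ψ (trace (β * X''.map π₀)) := by
      rw [← mul_assoc]
      have : ((((χ.comp GeneralLinearGroup.det) u : ℂˣ) : ℂ))⁻¹ * ((χ (GeneralLinearGroup.det u) : ℂˣ) : ℂ) = 1 :=
        inv_mul_cancel₀ (Units.ne_zero _)
      rw [this, one_mul]
    rw [h7, hX2] at h3
    have h8 : Ψ (trace (β * X'.map π₀)) = ((ψ (uK hC h2l X) : ℂˣ) : ℂ) := by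
      have h9 : (Ψ (trace (β * X'.map π₀)) - ((ψ (uK hC h2l X) : ℂˣ) : ℂ)) • v = 0 := by
        rw [sub_smul, h3, sub_self]
      rcases smul_eq_zero.1 h9 with h10 | h10
      · exact sub_eq_zero.1 h10
      · exact absurd h10 hv0
    unfold lam
    rw [← h8, ← hX']
    congr 3
  have hKc := KL_comm (d := d) hC h2l
  have hratio := ratio_le ρ' (KL ϖ' 1 d) hKc ψ hirr' v hv0 hψv (M g)
  have hempty : IsEmpty {h : GL (Fin d) (O ⧸ Ideal.span {ϖ ^ (r + 1)}) // ∀ n : KL ϖ' 1 d,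
      ψ ⟨(h * M g * h⁻¹) * n * (h * M g * h⁻¹)⁻¹ * (n : GL (Fin d) (O ⧸ Ideal.span {ϖ ^ (r + 1)}))⁻¹,
        comm_mem (KL ϖ' 1 d) _ n⟩ = 1} := by
    constructor
    rintro ⟨h, hh⟩
    have h1 := fun Z => lam_cm hC h2l ψ (h * M g * h⁻¹) hh Z
    obtain ⟨y, hy⟩ : ∃ y : GL (Fin d) k, y = GeneralLinearGroup.map (pr hϖ π₀ hπ₀ hr00) (h * M g * h⁻¹) := ⟨_, rfl⟩
    have h2 : ∀ Z : Matrix (Fin d) (Fin d) k, Ψ (trace (β * cm (y : Matrix (Fin d) (Fin d) k) Z)) = 1 := by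
      intro Z
      obtain ⟨Z', hZ'⟩ := hC.surjM Z
      have h3 := congrArg (fun z : ℂˣ => (z : ℂ)) (h1 Z')
      simp only [hlam, Units.val_one] at h3
      rw [← h3, ← hZ', hy]
      congr 3
      unfold cm
      simp only [Matrix.map_sub, Matrix.map_mul, map_sub, implies_true]
      rfl
    have hW : β * (y : Matrix (Fin d) (Fin d) k) = (y : Matrix (Fin d) (Fin d) k) * β := by
      rw [← sub_eq_zero]
      by_contra hne
      obtain ⟨W, hWd⟩ : ∃ W, W = β * (y : Matrix (Fin d) (Fin d) k) - (y : Matrix (Fin d) (Fin d) k) * β := ⟨_, rfl⟩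
      rw [← hWd] at hne
      obtain ⟨i, j, hij⟩ : ∃ i j, W i j ≠ 0 := by
        by_contra hcon
        push Not at hcon
        exact hne (by ext i j; exact hcon i j)
      apply hx0
      rw [← h2 (Matrix.single j i ((W i j)⁻¹ * x0))]
      congr 1
      have h4 : trace (β * cm (y : Matrix (Fin d) (Fin d) k) (Matrix.single j i ((W i j)⁻¹ * x0))) =
          trace (W * Matrix.single j i ((W i j)⁻¹ * x0)) := by
        generalize Matrix.single j i ((W i j)⁻¹ * x0) = Z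
        rw [hWd]
        unfold cm
        rw [mul_sub, sub_mul, trace_sub, trace_sub, ← mul_assoc, ← mul_assoc]
        congr 1
        rw [Matrix.trace_mul_comm (β * Z), ← mul_assoc]
      rw [h4, Matrix.trace_mul_single]
      simp [hij]
    obtain ⟨h', hh'⟩ : ∃ h' : GL (Fin d) k, h' = GeneralLinearGroup.map (pr hϖ π₀ hπ₀ hr00) h := ⟨_, rfl⟩
    have hMg : GeneralLinearGroup.map (pr hϖ π₀ hπ₀ hr00) (M g) = GeneralLinearGroup.map π₀ g := by
      rw [hM]; rfl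
    apply hg h'
    have h5 : y = h' * GeneralLinearGroup.map π₀ g * h'⁻¹ := by
      rw [hy, map_mul, map_mul, map_inv, hMg, hh']
    rw [← h5]
    exact hW
  rw [@Nat.card_of_isEmpty _ hempty, Nat.cast_zero, mul_zero] at hratio
  have hG : (0 : ℝ) < Nat.card (GL (Fin d) (O ⧸ Ideal.span {ϖ ^ (r + 1)})) := by exact_mod_cast Nat.card_pos
  have h0 : ‖LinearMap.trace ℂ V (ρ' (M g))‖ = 0 := by
    have := norm_nonneg (LinearMap.trace ℂ V (ρ' (M g)))
    nlinarith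
  rw [norm_eq_zero, hρ', map_smul, smul_eq_mul] at h0
  exact (mul_eq_zero.1 h0).resolve_left (inv_ne_zero (Units.ne_zero _))

end Zero

end Pool.Agent.H498.EQ
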