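import Pool.Agent.H498.EQ.Alt
import Pool.Graph.R_pool_sql_team_seeded_63374d34.N28.BM.Dom

/-!
# Bounds for Weyl characters on the unit torus and the dimension formula
-/

set_option autoImplicit false

namespace Pool.Agent.H498.EQ

open Finset Matrix Pool.Agent.N28.BM Filter Topology

variable {S : Type} [Fintype S] [DecidableEq S]

omit [DecidableEq S] in
lemma evx_single {d : ℕ} (y : S → Fin d → ℂˣ) (h : Wt S d) (m : ℤ) :
    evx y (AddMonoidAlgebra.single h m) = m * ∏ σ, ∏ i, ((y σ i : ℂˣ) : ℂ) ^ (h σ i) := by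
  simp [evx, AddMonoidAlgebra.lift_single]

lemma evx_altE {d : ℕ} (y : S → Fin d → ℂˣ) (h : Wt S d) :
    evx y (altE h) = ∏ σ, altn (h σ) (fun i => ((y σ i : ℂˣ) : ℂ)) := by
  unfold altE altn
  rw [map_sum]
  simp only [Matrix.det_apply, Matrix.of_apply]
  rw [Finset.prod_univ_sum, Fintype.piFinset_univ]
  refine Finset.sum_congr rfl fun π _ => ?_
  rw [map_zsmul, evx_single, Int.cast_one, one_mul]
  unfold sgnW
  have h1 : ∀ σ, (Equiv.Perm.sign (π σ)) • ∏ i, ((y σ i : ℂˣ) : ℂ) ^ h σ (π σ i) =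
      (((Equiv.Perm.sign (π σ) : ℤˣ) : ℤ) : ℂ) * ∏ i, ((y σ i : ℂˣ) : ℂ) ^ h σ (π σ i) := by
    intro σ
    rw [Units.smul_def, zsmul_eq_mul]
  rw [Finset.prod_congr rfl fun σ _ => h1 σ, Finset.prod_mul_distrib, zsmul_eq_mul]
  push_cast
  rfl

/-- a path of points -/
noncomputable def pth {d : ℕ} (y : S → Fin d → ℂˣ) (ε : ℝ) : S → Fin d → ℂˣ := fun σ i =>
  y σ i * Units.mk0 (Complex.exp (((i : ℕ) * ε : ℝ) * Complex.I)) (Complex.exp_ne_zero _)

omit [Fintype S] [DecidableEq S] in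
lemma pth_val {d : ℕ} (y : S → Fin d → ℂˣ) (ε : ℝ) (σ : S) (i : Fin d) :
    ((pth y ε σ i : ℂˣ) : ℂ) = y σ i * Complex.exp (((i : ℕ) * ε : ℝ) * Complex.I) := by
  simp [pth]

omit [Fintype S] [DecidableEq S] in
lemma pth_norm {d : ℕ} (y : S → Fin d → ℂˣ) (ε : ℝ) (σ : S) (i : Fin d) :
    ‖((pth y ε σ i : ℂˣ) : ℂ)‖ = ‖((y σ i : ℂˣ) : ℂ)‖ := by
  rw [pth_val, norm_mul, Complex.norm_exp_ofReal_mul_I, mul_one]

omit [Fintype S] [DecidableEq S] in
lemma pth_zero {d : ℕ} (y : S → Fin d → ℂˣ) : pth y 0 = y := by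
  funext σ i
  apply Units.ext
  rw [pth_val]
  simp

omit [DecidableEq S] in
lemma pth_cont {d : ℕ} (y : S → Fin d → ℂˣ) (a : P S d) : Continuous fun ε => evx (pth y ε) a := by
  induction a using AddMonoidAlgebra.induction_linear with
  | zero => simp only [map_zero]; exact continuous_const
  | add a b ha hb => simp only [map_add]; exact ha.add hb
  | single h m =>
    simp only [evx_single]
    refine continuous_const.mul (continuous_finsetProd _ fun σ _ => continuous_finsetProd _ fun i _ => ?_)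
    refine Continuous.zpow₀ ?_ _ fun ε => Or.inl (Units.ne_zero _)
    simp only [pth_val]
    fun_prop

omit [Fintype S] [DecidableEq S] in
lemma pth_ne {d : ℕ} (y : S → Fin d → ℂˣ) (σ : S) (i j : Fin d) (hij : i ≠ j) :
    ∀ᶠ ε in 𝓝[>] (0 : ℝ), ((pth y ε σ i : ℂˣ) : ℂ) ≠ ((pth y ε σ j : ℂˣ) : ℂ) := by
  by_cases hy : ((y σ i : ℂˣ) : ℂ) = y σ j
  · have h1 : ∀ᶠ ε in 𝓝[>] (0 : ℝ), ε < 2 * Real.pi / (d + 1) := by
      apply mem_nhdsWithin_of_mem_nhds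
      exact Iio_mem_nhds (by positivity)
    filter_upwards [h1, self_mem_nhdsWithin] with ε h2 h3
    rw [Set.mem_Ioi] at h3
    rw [pth_val, pth_val, hy]
    intro h4
    have h5 := mul_left_cancel₀ (Units.ne_zero _) h4
    rw [Complex.exp_eq_exp_iff_exists_int] at h5
    obtain ⟨m, hm⟩ := h5
    have h6 : (((i : ℕ) : ℝ) - (j : ℕ)) * ε = m * (2 * Real.pi) := by
      have h7 := congrArg Complex.im hm
      simp at h7
      linarith
    have hd : (0 : ℝ) < d + 1 := by positivity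
    have h8 : |((i : ℕ) : ℝ) - (j : ℕ)| * ε < 2 * Real.pi := by
      have h9 : |((i : ℕ) : ℝ) - (j : ℕ)| < d + 1 := by
        rw [abs_lt]
        have h10 : ((i : ℕ) : ℝ) < d := by exact_mod_cast i.2
        have h11 : ((j : ℕ) : ℝ) < d := by exact_mod_cast j.2
        have h12 : (0 : ℝ) ≤ (i : ℕ) := Nat.cast_nonneg _
        have h13 : (0 : ℝ) ≤ (j : ℕ) := Nat.cast_nonneg _
        constructor <;> linarith
      rw [lt_div_iff₀ hd] at h2
      calc _ < (d + 1) * ε := mul_lt_mul_of_pos_right h9 h3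
        _ = ε * (d + 1) := mul_comm _ _
        _ < _ := h2
    have h14 : |(m : ℝ)| * (2 * Real.pi) = |((i : ℕ) : ℝ) - (j : ℕ)| * ε := by
      have h15 := congrArg (fun r : ℝ => |r|) h6
      simp only [abs_mul] at h15
      rw [abs_of_pos h3, abs_of_pos (by norm_num : (0:ℝ) < 2), abs_of_pos Real.pi_pos] at h15
      exact h15.symm
    have h16 : |(m : ℝ)| < 1 := by
      by_contra hcon
      push Not at hcon
      have : 2 * Real.pi ≤ |(m : ℝ)| * (2 * Real.pi) := by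
        have h17 : (0 : ℝ) < 2 * Real.pi := by positivity
        nlinarith
      linarith
    have h18 : m = 0 := by
      have : |m| < 1 := by exact_mod_cast h16
      exact Int.abs_lt_one_iff.1 this
    rw [h18, Int.cast_zero, zero_mul] at h6
    rcases mul_eq_zero.1 h6 with h19 | h19
    · apply hij
      apply Fin.ext
      have : ((i : ℕ) : ℝ) = (j : ℕ) := by linarith
      exact_mod_cast this
    · exact h3.ne' h19
  · have h1 : Tendsto (fun ε : ℝ => ((pth y ε σ i : ℂˣ) : ℂ) - ((pth y ε σ j : ℂˣ) : ℂ)) (𝓝 0)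
        (𝓝 (((y σ i : ℂˣ) : ℂ) - y σ j)) := by
      have h2 : Continuous fun ε : ℝ => ((pth y ε σ i : ℂˣ) : ℂ) - ((pth y ε σ j : ℂˣ) : ℂ) := by
        simp only [pth_val]
        fun_prop
      have h3 := h2.tendsto 0
      rwa [pth_zero] at h3
    have h2 := h1.eventually_ne (sub_ne_zero.2 hy)
    exact Filter.Eventually.mono (mem_nhdsWithin_of_mem_nhds h2) fun ε h => sub_ne_zero.1 h

lemma altn_rho_ne {n : ℕ} (x : Fin (n + 1) → ℂ) (hx : Function.Injective x) : altn (rho n) x ≠ 0 := by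
  have h1 : (Matrix.of fun (i j : Fin (n + 1)) => x j ^ rho n i) =
      ((Matrix.vandermonde x)ᵀ).submatrix Fin.revPerm id := by
    ext i j
    simp only [Matrix.of_apply, Matrix.submatrix_apply, Matrix.transpose_apply, Matrix.vandermonde_apply, id,
      Fin.revPerm_apply, rho]
    rw [← zpow_natCast]
    congr 1
    rw [Fin.val_rev]
    omega
  unfold altn
  rw [h1, Matrix.det_permute, Matrix.det_transpose]
  refine mul_ne_zero ?_ (Matrix.det_vandermonde_ne_zero_iff.2 hx)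
  rcases Int.units_eq_one_or (Equiv.Perm.sign (Fin.revPerm (n := n + 1))) with h | h <;> rw [h] <;> simp

omit [DecidableEq S] in
lemma pth_reg {n : ℕ} (y : S → Fin (n + 1) → ℂˣ) : ∀ᶠ ε in 𝓝[>] (0 : ℝ),
    ∀ σ, altn (rho n) (fun i => ((pth y ε σ i : ℂˣ) : ℂ)) ≠ 0 := by
  rw [Filter.eventually_all]
  intro σ
  have h1 : ∀ᶠ ε in 𝓝[>] (0 : ℝ), ∀ (ij : Fin (n + 1) × Fin (n + 1)), ij.1 ≠ ij.2 →
      ((pth y ε σ ij.1 : ℂˣ) : ℂ) ≠ ((pth y ε σ ij.2 : ℂˣ) : ℂ) := by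
    rw [Filter.eventually_all]
    intro ij
    by_cases hij : ij.1 = ij.2
    · exact Eventually.of_forall fun ε h => absurd hij h
    · exact (pth_ne y σ ij.1 ij.2 hij).mono fun ε h _ => h
  filter_upwards [h1] with ε h2
  apply altn_rho_ne
  intro i j hij
  by_contra hne
  exact h2 (i, j) hne hij

section Weyl

variable {n : ℕ} (s : Wt S (n + 1) → P S (n + 1)) (hs : IsWeyl s)

include hs in
lemma evx_weyl (y : S → Fin (n + 1) → ℂˣ) (h : Wt S (n + 1)) :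
    evx y (s h) * ∏ σ, altn (rho n) (fun i => ((y σ i : ℂˣ) : ℂ)) = ∏ σ, altn (h σ) (fun i => ((y σ i : ℂˣ) : ℂ)) := by
  have h1 := evx_altE y (fun _ : S => rho n)
  have h2 := evx_altE y h
  rw [← h1, ← h2, ← map_mul, hs]

include hs in
lemma evx_le (y : S → Fin (n + 1) → ℂˣ) (hy : ∀ σ i, ‖((y σ i : ℂˣ) : ℂ)‖ = 1) (h : Wt S (n + 1)) (hh : Dom h) :
    ‖evx y (s h)‖ ≤ ∏ σ, wgt false (h σ) := by
  have h1 : Tendsto (fun ε : ℝ => ‖evx (pth y ε) (s h)‖) (𝓝[>] 0) (𝓝 ‖evx y (s h)‖) := by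
    have := ((pth_cont y (s h)).norm.tendsto 0).mono_left (nhdsWithin_le_nhds (s := Set.Ioi 0))
    rwa [pth_zero] at this
  refine le_of_tendsto h1 ?_
  filter_upwards [pth_reg y] with ε hε
  have h2 := congrArg norm (evx_weyl s hs (pth y ε) h)
  rw [norm_mul, norm_prod, norm_prod] at h2
  have h3 : 0 < ∏ σ, ‖altn (rho n) (fun i => ((pth y ε σ i : ℂˣ) : ℂ))‖ :=
    Finset.prod_pos fun σ _ => norm_pos_iff.2 (hε σ)
  have h4 : ∏ σ, ‖altn (h σ) (fun i => ((pth y ε σ i : ℂˣ) : ℂ))‖ ≤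
      (∏ σ, wgt false (h σ)) * ∏ σ, ‖altn (rho n) (fun i => ((pth y ε σ i : ℂˣ) : ℂ))‖ := by
    rw [← Finset.prod_mul_distrib]
    refine Finset.prod_le_prod (fun _ _ => norm_nonneg _) fun σ _ => ?_
    exact altn_le n (h σ) (hh σ) _ fun i => by rw [pth_norm, hy]
  rw [← h2] at h4
  exact le_of_mul_le_mul_right h4 h3

include hs in
lemma evx_le' (y : S → Fin (n + 1) → ℂˣ) (hy : ∀ σ i, ‖((y σ i : ℂˣ) : ℂ)‖ = 1) (h : Wt S (n + 1)) (hh : Dom h)
    (σ₀ : S) (i j : Fin (n + 1)) (hij : i ≠ j) :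
    ‖evx y (s h)‖ * ‖((y σ₀ i : ℂˣ) : ℂ) - y σ₀ j‖ * ((h σ₀ 0 - h σ₀ (Fin.last n) : ℤ) : ℝ) ≤
      2 * ∏ σ, wgt false (h σ) := by
  obtain ⟨n, rfl⟩ : ∃ n', n = n' + 1 := by
    refine Nat.exists_eq_succ_of_ne_zero ?_
    rintro rfl
    exact hij (Subsingleton.elim (α := Fin 1) _ _)
  have h1 : Tendsto (fun ε : ℝ => ‖evx (pth y ε) (s h)‖ * ‖((pth y ε σ₀ i : ℂˣ) : ℂ) - pth y ε σ₀ j‖ *
      ((h σ₀ 0 - h σ₀ (Fin.last (n + 1)) : ℤ) : ℝ)) (𝓝[>] 0)
      (𝓝 (‖evx y (s h)‖ * ‖((y σ₀ i : ℂˣ) : ℂ) - y σ₀ j‖ * ((h σ₀ 0 - h σ₀ (Fin.last (n + 1)) : ℤ) : ℝ))) := by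
    have h2 : Continuous fun ε : ℝ => ‖evx (pth y ε) (s h)‖ * ‖((pth y ε σ₀ i : ℂˣ) : ℂ) - pth y ε σ₀ j‖ *
        ((h σ₀ 0 - h σ₀ (Fin.last (n + 1)) : ℤ) : ℝ) := by
      refine ((pth_cont y (s h)).norm.mul ?_).mul continuous_const
      simp only [pth_val]
      fun_prop
    have := (h2.tendsto 0).mono_left (nhdsWithin_le_nhds (s := Set.Ioi 0))
    rwa [pth_zero] at this
  refine le_of_tendsto h1 ?_
  filter_upwards [pth_reg y] with ε hε
  set z := pth y ε with hz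
  have hzn : ∀ σ i, ‖((z σ i : ℂˣ) : ℂ)‖ = 1 := fun σ i => by rw [hz, pth_norm, hy]
  have h2 := congrArg norm (evx_weyl s hs z h)
  rw [norm_mul, norm_prod, norm_prod] at h2
  have h3 : 0 < ∏ σ, ‖altn (rho (n + 1)) (fun i => ((z σ i : ℂˣ) : ℂ))‖ :=
    Finset.prod_pos fun σ _ => norm_pos_iff.2 (hε σ)
  have hM : (0 : ℝ) ≤ ((h σ₀ 0 - h σ₀ (Fin.last (n + 1)) : ℤ) : ℝ) := by
    have := hh σ₀ (Fin.last_pos (n := n))
    exact_mod_cast (by omega : 0 ≤ h σ₀ 0 - h σ₀ (Fin.last (n + 1)))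
  have h4 : (∏ σ, ‖altn (h σ) (fun i => ((z σ i : ℂˣ) : ℂ))‖) *
      (‖((z σ₀ i : ℂˣ) : ℂ) - z σ₀ j‖ * ((h σ₀ 0 - h σ₀ (Fin.last (n + 1)) : ℤ) : ℝ)) ≤
      (2 * ∏ σ, wgt false (h σ)) * ∏ σ, ‖altn (rho (n + 1)) (fun i => ((z σ i : ℂˣ) : ℂ))‖ := by
    rw [← Finset.mul_prod_erase _ _ (Finset.mem_univ σ₀), ← Finset.mul_prod_erase Finset.univ (fun σ => wgt false (h σ))
      (Finset.mem_univ σ₀), ← Finset.mul_prod_erase Finset.univ (fun σ => ‖altn (rho (n + 1)) (fun i => ((z σ i : ℂˣ) : ℂ))‖)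
      (Finset.mem_univ σ₀)]
    have h5 : ∏ σ ∈ Finset.univ.erase σ₀, ‖altn (h σ) (fun i => ((z σ i : ℂˣ) : ℂ))‖ ≤
        (∏ σ ∈ Finset.univ.erase σ₀, wgt false (h σ)) *
          ∏ σ ∈ Finset.univ.erase σ₀, ‖altn (rho (n + 1)) (fun i => ((z σ i : ℂˣ) : ℂ))‖ := by
      rw [← Finset.prod_mul_distrib]
      exact Finset.prod_le_prod (fun _ _ => norm_nonneg _) fun σ _ => altn_le (n + 1) (h σ) (hh σ) _ fun i => hzn _ _
    have h6 : ‖altn (h σ₀) (fun i => ((z σ₀ i : ℂˣ) : ℂ))‖ *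
        (‖((z σ₀ i : ℂˣ) : ℂ) - z σ₀ j‖ * ((h σ₀ 0 - h σ₀ (Fin.last (n + 1)) : ℤ) : ℝ)) ≤
        2 * wgt false (h σ₀) * ‖altn (rho (n + 1)) (fun i => ((z σ₀ i : ℂˣ) : ℂ))‖ := by
      have h7 := altn_le' n (h σ₀) (hh σ₀) (fun i => ((z σ₀ i : ℂˣ) : ℂ)) (fun i => hzn _ _) i j hij
      rw [wgt_mul]
      nlinarith [mul_le_mul_of_nonneg_right h7 hM]
    calc _ = (‖altn (h σ₀) (fun i => ((z σ₀ i : ℂˣ) : ℂ))‖ *
          (‖((z σ₀ i : ℂˣ) : ℂ) - z σ₀ j‖ * ((h σ₀ 0 - h σ₀ (Fin.last (n + 1)) : ℤ) : ℝ))) *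
          ∏ σ ∈ Finset.univ.erase σ₀, ‖altn (h σ) (fun i => ((z σ i : ℂˣ) : ℂ))‖ := by ring
      _ ≤ (2 * wgt false (h σ₀) * ‖altn (rho (n + 1)) (fun i => ((z σ₀ i : ℂˣ) : ℂ))‖) *
          ((∏ σ ∈ Finset.univ.erase σ₀, wgt false (h σ)) *
          ∏ σ ∈ Finset.univ.erase σ₀, ‖altn (rho (n + 1)) (fun i => ((z σ i : ℂˣ) : ℂ))‖) := by
        refine mul_le_mul h6 h5 (Finset.prod_nonneg fun _ _ => norm_nonneg _) ?_
        have := (wgt_nonneg false (h σ₀) (hh σ₀)).le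
        positivity
      _ = _ := by ring
  rw [← h2] at h4
  refine le_of_mul_le_mul_right ?_ h3
  calc _ = _ := by ring
    _ ≤ _ := h4

/-- the Weyl dimension `∏_σ ∏_{i<j} (h_{σ,i} - h_{σ,j}) / (j - i)` -/
noncomputable def wdim {S : Type} [Fintype S] {n : ℕ} (h : Wt S (n + 1)) : ℝ :=
  ∏ σ, (wgt false (h σ) / wgt false (rho n))

omit [DecidableEq S] in
lemma wdim_pos (h : Wt S (n + 1)) (hh : Dom h) : 0 < wdim h :=
  Finset.prod_pos fun σ _ => div_pos (wgt_nonneg _ _ (hh σ)) (wgt_nonneg _ _ (rho_anti n))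

omit [DecidableEq S] in
lemma wdim_mul (h : Wt S (n + 1)) :
    ∏ σ, wgt false (h σ) = wdim h * (wgt false (rho n)) ^ Fintype.card S := by
  unfold wdim
  rw [Finset.prod_div_distrib, Finset.prod_const, Finset.card_univ]
  field_simp [(wgt_nonneg false (rho n) (rho_anti n)).ne']

lemma exp_diff (a : ℤ) : Tendsto (fun ε : ℝ => (Complex.exp ((ε : ℝ) * Complex.I) ^ a - 1) / (ε : ℂ)) (𝓝[>] 0)
    (𝓝 (a * Complex.I)) := by
  have h1 : HasDerivAt (fun ε : ℝ => Complex.exp (((ε : ℝ) : ℂ) * (a * Complex.I))) (a * Complex.I) 0 := by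
    have h2 : HasDerivAt (fun ε : ℝ => (((ε : ℝ) : ℂ) * (a * Complex.I))) (a * Complex.I) 0 := by
      have := (Complex.ofRealCLM.hasDerivAt (x := (0 : ℝ))).mul_const ((a : ℂ) * Complex.I)
      simpa using this
    have h3 := h2.cexp
    simpa using h3
  rw [hasDerivAt_iff_tendsto_slope] at h1
  have h2 := h1.mono_left (nhdsWithin_mono (0 : ℝ) (fun x (hx : x ∈ Set.Ioi 0) => (ne_of_gt hx : x ≠ 0)))
  refine h2.congr' ?_
  filter_upwards [self_mem_nhdsWithin] with ε hε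
  rw [slope_def_module, sub_zero, Complex.ofReal_zero, zero_mul, Complex.exp_zero, Complex.real_smul,
    Complex.ofReal_inv, div_eq_inv_mul, ← Complex.exp_int_mul]
  congr 3
  ring

include hs in
/-- **Weyl's dimension formula.** -/
theorem evx_one (h : Wt S (n + 1)) : evx (fun _ _ => 1) (s h) = (wdim h : ℂ) := by
  have h1 : Tendsto (fun ε : ℝ => evx (pth (fun _ _ => 1) ε) (s h)) (𝓝[>] 0) (𝓝 (evx (fun _ _ => 1) (s h))) := by
    have := ((pth_cont (fun (_ : S) (_ : Fin (n + 1)) => (1 : ℂˣ)) (s h)).tendsto 0).mono_left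
      (nhdsWithin_le_nhds (s := Set.Ioi 0))
    rwa [pth_zero] at this
  have hv : ∀ (g : Fin (n + 1) → ℤ) (σ : S) (ε : ℝ), altn g (fun i => ((pth (fun _ _ => 1) ε σ i : ℂˣ) : ℂ)) =
      ∏ i, ∏ j ∈ Finset.Ioi i, (Complex.exp ((ε : ℝ) * Complex.I) ^ g j - Complex.exp ((ε : ℝ) * Complex.I) ^ g i) := by
    intro g σ ε
    rw [← Matrix.det_vandermonde]
    unfold altn
    congr 1
    ext i j
    simp only [Matrix.of_apply, Matrix.vandermonde_apply, pth_val, Units.val_one, one_mul]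
    rw [← zpow_natCast, ← _root_.zpow_mul, mul_comm (g i), _root_.zpow_mul, zpow_natCast, ← Complex.exp_nat_mul]
    congr 2
    push_cast
    ring
  have h2 : Tendsto (fun ε : ℝ => ∏ σ : S, ((altn (h σ) (fun i => ((pth (fun _ _ => 1) ε σ i : ℂˣ) : ℂ))) /
      altn (rho n) (fun i => ((pth (fun _ _ => 1) ε σ i : ℂˣ) : ℂ)))) (𝓝[>] 0) (𝓝 (wdim h : ℂ)) := by
    unfold wdim
    rw [Complex.ofReal_prod]
    refine tendsto_finsetProd _ fun σ _ => ?_
    have h3 : (((wgt false (h σ) / wgt false (rho n) : ℝ)) : ℂ) =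
        ∏ i, ∏ j ∈ Finset.Ioi i, ((((h σ j : ℂ) - h σ i) * Complex.I) / (((rho n j : ℂ) - rho n i) * Complex.I)) := by
      unfold wgt
      rw [← Finset.prod_div_distrib, Complex.ofReal_prod]
      refine Finset.prod_congr rfl fun i _ => ?_
      rw [← Finset.prod_div_distrib, Complex.ofReal_prod]
      refine Finset.prod_congr rfl fun j _ => ?_
      simp only [Bool.false_eq_true, false_and, if_false]
      rw [mul_div_mul_right _ _ Complex.I_ne_zero, ← neg_sub (h σ i : ℂ), ← neg_sub (rho n i : ℂ), neg_div_neg_eq]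
      push_cast
      rfl
    rw [h3]
    have h4 : ∀ ε : ℝ, 0 < ε → ∏ i, ∏ j ∈ Finset.Ioi i,
        (((Complex.exp ((ε : ℝ) * Complex.I) ^ h σ j - 1) / (ε : ℂ) - (Complex.exp ((ε : ℝ) * Complex.I) ^ h σ i - 1) / (ε : ℂ)) /
        ((Complex.exp ((ε : ℝ) * Complex.I) ^ rho n j - 1) / (ε : ℂ) - (Complex.exp ((ε : ℝ) * Complex.I) ^ rho n i - 1) / (ε : ℂ))) =
        (altn (h σ) (fun i => ((pth (fun _ _ => 1) ε σ i : ℂˣ) : ℂ))) /
      altn (rho n) (fun i => ((pth (fun _ _ => 1) ε σ i : ℂˣ) : ℂ)) := by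
      intro ε hε
      have hε0 : (ε : ℂ) ≠ 0 := by exact_mod_cast hε.ne'
      rw [hv, hv, ← Finset.prod_div_distrib]
      refine Finset.prod_congr rfl fun i _ => ?_
      rw [← Finset.prod_div_distrib]
      refine Finset.prod_congr rfl fun j _ => ?_
      rw [← sub_div, ← sub_div, div_div_div_cancel_right₀ hε0]
      congr 1 <;> ring
    refine Tendsto.congr' (Filter.mem_of_superset self_mem_nhdsWithin fun ε hε => h4 ε hε) ?_
    refine tendsto_finsetProd _ fun i _ => tendsto_finsetProd _ fun j hj => ?_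
    refine Tendsto.div ?_ ?_ ?_
    · rw [sub_mul]
      exact (exp_diff _).sub (exp_diff _)
    · rw [sub_mul]
      exact (exp_diff _).sub (exp_diff _)
    · refine mul_ne_zero ?_ Complex.I_ne_zero
      have := rho_anti n (Finset.mem_Ioi.1 hj)
      rw [sub_ne_zero]
      exact_mod_cast this.ne
  refine tendsto_nhds_unique h1 (h2.congr' ?_)
  filter_upwards [pth_reg (S := S) (n := n) (fun _ _ => 1)] with ε hε
  have h3 := evx_weyl s hs (pth (fun _ _ => 1) ε) h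
  rw [Finset.prod_div_distrib, eq_comm, eq_div_iff (Finset.prod_ne_zero_iff.2 fun σ _ => hε σ)]
  exact h3

include hs in
/-- the value at central points -/
theorem evx_central (u : S → ℂˣ) (h : Wt S (n + 1)) : evx (fun σ _ => u σ) (s h) =
    (∏ σ, ((u σ : ℂˣ) : ℂ) ^ (∑ i, (h σ i - rho n i))) * (wdim h : ℂ) := by
  rw [← evx_one s hs h]
  have h1 : Tendsto (fun ε : ℝ => evx (pth (fun σ _ => u σ) ε) (s h)) (𝓝[>] 0)
      (𝓝 (evx (fun σ _ => u σ) (s h))) := by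
    have := ((pth_cont (fun (σ : S) (_ : Fin (n + 1)) => u σ) (s h)).tendsto 0).mono_left
      (nhdsWithin_le_nhds (s := Set.Ioi 0))
    rwa [pth_zero] at this
  have h2 : Tendsto (fun ε : ℝ => (∏ σ, ((u σ : ℂˣ) : ℂ) ^ (∑ i, (h σ i - rho n i))) *
      evx (pth (fun _ _ => 1) ε) (s h)) (𝓝[>] 0)
      (𝓝 ((∏ σ, ((u σ : ℂˣ) : ℂ) ^ (∑ i, (h σ i - rho n i))) * evx (fun _ _ => 1) (s h))) := by
    have := ((pth_cont (fun (_ : S) (_ : Fin (n + 1)) => (1 : ℂˣ)) (s h)).tendsto 0).mono_left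
      (nhdsWithin_le_nhds (s := Set.Ioi 0))
    rw [pth_zero] at this
    exact this.const_mul _
  refine tendsto_nhds_unique h1 (h2.congr' ?_)
  filter_upwards [pth_reg (S := S) (n := n) (fun _ _ => 1)] with ε hε
  have h3 := evx_weyl s hs (pth (fun _ _ => 1) ε) h
  have h4 := evx_weyl s hs (pth (fun σ _ => u σ) ε) h
  have h5 : ∀ (g : Fin (n + 1) → ℤ) (σ : S), altn g (fun i => ((pth (fun σ _ => u σ) ε σ i : ℂˣ) : ℂ)) =
      ((u σ : ℂˣ) : ℂ) ^ (∑ i, g i) * altn g (fun i => ((pth (fun _ _ => 1) ε σ i : ℂˣ) : ℂ)) := by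
    intro g σ
    rw [← altn_scale g _ _ (Units.ne_zero _)]
    congr 1
    funext i
    rw [pth_val, pth_val, Units.val_one, one_mul]
  have h6 : (∏ σ, altn (rho n) (fun i => ((pth (fun _ _ => 1) ε σ i : ℂˣ) : ℂ))) ≠ 0 :=
    Finset.prod_ne_zero_iff.2 fun σ _ => hε σ
  have h7 : (∏ σ, ((u σ : ℂˣ) : ℂ) ^ (∑ i, rho n i)) ≠ 0 :=
    Finset.prod_ne_zero_iff.2 fun σ _ => zpow_ne_zero _ (Units.ne_zero _)
  simp only [h5, Finset.prod_mul_distrib] at h4
  rw [← h3] at h4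
  have h8 : (∏ σ, ((u σ : ℂˣ) : ℂ) ^ (∑ i, h σ i)) =
      (∏ σ, ((u σ : ℂˣ) : ℂ) ^ (∑ i, (h σ i - rho n i))) * ∏ σ, ((u σ : ℂˣ) : ℂ) ^ (∑ i, rho n i) := by
    rw [← Finset.prod_mul_distrib]
    refine Finset.prod_congr rfl fun σ _ => ?_
    rw [← zpow_add₀ (Units.ne_zero _), ← Finset.sum_add_distrib]
    congr 1
    exact Finset.sum_congr rfl fun i _ => by ring
  rw [h8] at h4
  have h9 := mul_ne_zero h7 h6
  apply mul_right_cancel₀ h9
  rw [h4]
  ring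

end Weyl

end Pool.Agent.H498.EQ
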